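import Pool.Agent.Lib.MP_162bbe_gt.DvMain

set_option autoImplicit false

/-! For a short element, twice the number of eigenvalues of any fixed modulus above one is a
multiple of the dimension of the division algebra. -/

namespace Pool.Agent.Lib.MP_162bbe_gt

open Finset MulAction Module Polynomial Pool.Agent.Lib.MP_f61260_nt

section lin

variable {k V : Type*} [Field k] [AddCommGroup V] [Module k V] [FiniteDimensional k V]

lemma dd_factor {D : Type*} [DivisionRing D] [Algebra k D] [Module D V] [IsScalarTower k D V]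
    (δ : V →ₗ[D] V) {f : k[X]} (hf : Irreducible f) {L : Type*} [Field L] (e : k →+* L) :
    ∃ χ₁ χ₂ : k[X], χ₁.Monic ∧ (δ.restrictScalars k).charpoly = χ₁ * χ₂ ∧
      finrank k D ∣ χ₁.natDegree ∧ (∀ w, eval₂ e w χ₁ = 0 → eval₂ e w f = 0) ∧
      ∀ w, eval₂ e w χ₂ = 0 → eval₂ e w f ≠ 0 := by
  obtain ⟨φ, hφ⟩ : ∃ φ : Module.End k V, φ = δ.restrictScalars k := ⟨_, rfl⟩
  rw [← hφ]
  obtain ⟨a, g, hg, hχ⟩ := WfDvdMonoid.max_power_factor φ.charpoly_monic.ne_zero hf
  have hco : IsCoprime (f ^ a) g := (hf.coprime_iff_not_dvd.2 hg).pow_left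
  have hc : IsCompl (LinearMap.ker (aeval φ (f ^ a))) (LinearMap.ker (aeval φ g)) :=
    ⟨disjoint_ker_aeval_of_isCoprime φ hco, codisjoint_iff.2 (by
      rw [sup_ker_aeval_eq_ker_aeval_mul_of_coprime φ hco, ← hχ, φ.aeval_self_charpoly,
        LinearMap.ker_zero])⟩
  have hmul := dv_charpoly_mul φ hc (dv_ker_inv φ _) (dv_ker_inv φ _)
  refine ⟨_, _, LinearMap.charpoly_monic _, hmul, ?_, fun w hw => ?_, fun w hw hz => ?_⟩
  · have hsm : ∀ (q : k[X]) (d : D) (x : V), aeval φ q (d • x) = d • aeval φ q x := by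
      intro q d x
      induction q using Polynomial.induction_on with
      | C a =>
        rw [aeval_C, Module.algebraMap_end_apply, Module.algebraMap_end_apply,
          ← algebraMap_smul D a, ← algebraMap_smul D a x, ← mul_smul, ← mul_smul, Algebra.commutes]
      | add a b ha hb => simp only [map_add, LinearMap.add_apply, ha, hb, smul_add]
      | monomial n a h =>
        rw [pow_succ, ← mul_assoc, mul_comm, map_mul, aeval_X, Module.End.mul_apply,
          Module.End.mul_apply, h, hφ]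
        exact δ.map_smul _ _
    let W : Submodule D V :=
      { carrier := LinearMap.ker (aeval φ (f ^ a))
        add_mem' := add_mem
        zero_mem' := zero_mem _
        smul_mem' := fun d x hx => by
          rw [SetLike.mem_coe, LinearMap.mem_ker] at hx ⊢
          rw [hsm, hx, smul_zero] }
    rw [LinearMap.charpoly_natDegree]
    exact ⟨finrank D W, (finrank_mul_finrank k D W).symm⟩
  · have h1 := dv_root e _ (dv_restrict φ (f ^ a) _) hw
    rw [eval₂_pow] at h1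
    exact eq_zero_of_pow_eq_zero h1
  · have h1 := dv_root e _ (dv_restrict φ g _) hw
    obtain ⟨u, v, huv⟩ := hf.coprime_iff_not_dvd.2 hg
    have h2 := congrArg (eval₂ e w) huv
    rw [eval₂_add, eval₂_mul, eval₂_mul, hz, h1, eval₂_one] at h2
    simp at h2

end lin

lemma dd_classes {α β : Type*} [DecidableEq β] (T : Multiset α) (m : α → β) (n : ℕ)
    (h : ∀ z ∈ T, n ∣ 2 * (T.filter fun w => m z = m w).card) : n ∣ 2 * T.card := by
  rw [← Multiset.card_map m T, ← Multiset.toFinset_sum_count_eq, Finset.mul_sum]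
  refine Finset.dvd_sum fun b hb => ?_
  rw [Multiset.mem_toFinset, Multiset.mem_map] at hb
  obtain ⟨z, hz, rfl⟩ := hb
  rw [Multiset.count_map]
  exact h z hz

variable {k : Type} [Field k] [NumberField k]

omit [NumberField k] in
lemma dd_mod {e : k →+* Qb} {f : k[X]} (hf : f ≠ 0)
    (htr : ∀ w w', eval₂ e w f = 0 → eval₂ e w' f = 0 → ∃ g ∈ stabilizer GA e, g w = w')
    (h0 : ∀ w, eval₂ e w f = 0 → w ≠ 0) {z : Qb} (hz : eval₂ e z f = 0) (hz1 : 1 < ‖(z : ℂ)‖)
    (hdep : ∀ g ∈ stabilizer GA e, ∃ a b : ℤ, (a ≠ 0 ∨ b ≠ 0) ∧ z ^ a * g z ^ b = 1)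
    {w : Qb} (hw : eval₂ e w f = 0) (hw1 : 1 < ‖(w : ℂ)‖) : ‖(w : ℂ)‖ = ‖(z : ℂ)‖ := by
  classical
  let l : Qb → ℝ := fun w => Real.log ‖(w : ℂ)‖
  have hz0 := h0 z hz
  have hlz : 0 < l z := Real.log_pos hz1
  have hlw : 0 < l w := Real.log_pos hw1
  have key : ∀ w, eval₂ e w f = 0 → ∀ h : GA, l (h w) * l z = l w * l (h z) := by
    intro w hw h
    obtain ⟨g, hg, rfl⟩ := htr z w hz hw
    obtain ⟨a, b, hab, h1⟩ := hdep g hg
    have h2 : ∀ u : GA, a * l (u z) + b * l (u (g z)) = 0 := by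
      intro u
      have h3 := congrArg (fun y => Real.log ‖algebraMap Qb ℂ (u y)‖) h1
      have n1 : ‖algebraMap Qb ℂ (u z)‖ ≠ 0 := by simpa using hz0
      have n2 : ‖algebraMap Qb ℂ (u (g z))‖ ≠ 0 := by simpa using hz0
      simp only [map_mul, map_zpow₀, norm_mul, norm_zpow, map_one, norm_one, Real.log_one] at h3
      rwa [Real.log_mul (zpow_ne_zero _ n1) (zpow_ne_zero _ n2), Real.log_zpow, Real.log_zpow] at h3
    have e1 : a * l z + b * l (g z) = 0 := h2 1
    have e2 := h2 h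
    rcases hab with h3 | h3
    · refine mul_left_cancel₀ (Int.cast_ne_zero (α := ℝ).2 h3) ?_
      linear_combination l (h (g z)) * e1 - l (g z) * e2
    · refine mul_left_cancel₀ (Int.cast_ne_zero (α := ℝ).2 h3) ?_
      linear_combination l z * e2 - l (h z) * e1
  have hst : ∀ g ∈ stabilizer GA e, ∀ u, eval₂ e u f = 0 → eval₂ e (g u) f = 0 := by
    intro g hg u hu
    have := eval_smul g e f u
    rwa [mem_stabilizer_iff.1 hg, hu, map_zero] at this
  have hmem : ∀ u, u ∈ (f.map e).roots.toFinset ↔ eval₂ e u f = 0 := fun u => by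
    rw [Multiset.mem_toFinset, mem_roots_map hf]
  obtain ⟨v, hv, hmax⟩ := Finset.exists_max_image (f.map e).roots.toFinset (fun u => |l u|)
    ⟨z, (hmem z).2 hz⟩
  rw [hmem] at hv
  have hle : ∀ u, eval₂ e u f = 0 → |l u| ≤ l z := by
    intro u hu
    refine (hmax u ((hmem u).2 hu)).trans ?_
    obtain ⟨g, hg, hgv⟩ := htr z v hz hv
    have a1 := key v hv g
    rw [hgv] at a1
    have a2 : l (g v) ≤ |l v| := (le_abs_self _).trans (hmax _ ((hmem _).2 (hst g hg v hv)))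
    have a3 : l z ≤ |l v| := (le_abs_self _).trans (hmax _ ((hmem _).2 hz))
    have a4 : |l v| * |l v| ≤ |l v| * l z := by
      rw [abs_mul_abs_self, ← a1]
      exact mul_le_mul_of_nonneg_right a2 hlz.le
    exact le_of_mul_le_mul_left a4 (hlz.trans_le a3)
  obtain ⟨g, hg, hgw⟩ := htr w z hw hz
  have a1 := key w hw g
  rw [hgw] at a1
  have a2 : l (g z) ≤ l z := (le_abs_self _).trans (hle _ (hst g hg z hz))
  have a3 : l w ≤ l z := (le_abs_self _).trans (hle _ hw)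
  have a4 : l z * l z ≤ l w * l z := a1 ▸ mul_le_mul_of_nonneg_left a2 hlw.le
  have a5 : l w = l z := le_antisymm a3 (le_of_mul_le_mul_right a4 hlz)
  exact Real.log_injOn_pos (Set.mem_Ioi.2 (by linarith)) (Set.mem_Ioi.2 (by linarith)) a5

lemma dd_div {D : Type} [DivisionRing D] [Algebra k D] {V : Type} [AddCommGroup V] [Module D V]
    [Module k V] [IsScalarTower k D V] [FiniteDimensional k V] (δ : V →ₗ[D] V) {χ : k[X]}
    (hχ : χ = (δ.restrictScalars k).charpoly) (e : k →+* Qb)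
    (hne : ∀ w : Qb, eval₂ e w χ = 0 → w ≠ 0)
    (hdep : ∀ z : Qb, eval₂ e z χ = 0 →
      ∀ g ∈ stabilizer GA e, ∃ a b : ℤ, (a ≠ 0 ∨ b ≠ 0) ∧ z ^ a * g z ^ b = 1)
    {ρ : ℝ} (hρ : 1 < ρ) :
    finrank k D ∣ 2 * ((χ.map e).roots.filter fun w : Qb => ‖(w : ℂ)‖ = ρ).card := by
  classical
  have hm : χ.Monic := hχ ▸ LinearMap.charpoly_monic _
  refine dd_classes _ (fun w => orbit (stabilizer GA e) w) _ fun z hzT => ?_
  rw [Multiset.mem_filter, mem_roots_map hm.ne_zero] at hzT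
  obtain ⟨hz, hzρ⟩ := hzT
  have hz1 : 1 < ‖(z : ℂ)‖ := hzρ ▸ hρ
  obtain ⟨f, hf, hfz, hfd, htr⟩ := dv_min e z
  obtain ⟨χ₁, χ₂, m1, m2, m3, m4, m5⟩ := dd_factor δ hf e
  rw [← hχ] at m2
  have h0 : ∀ w, eval₂ e w f = 0 → w ≠ 0 :=
    fun w hw => hne w (eval₂_eq_zero_of_dvd_of_eval₂_eq_zero _ _ (hfd χ hz) hw)
  have hcount := dv_count m1 m4 htr h0 hfz hz1 (hdep z hz)
  have hne2 : χ₂ ≠ 0 := by
    rintro rfl
    exact hm.ne_zero (by rw [m2, mul_zero])
  have horb : ∀ w, orbit (stabilizer GA e) z = orbit (stabilizer GA e) w ↔ eval₂ e w f = 0 := by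
    intro w
    rw [eq_comm, orbit_eq_iff]
    constructor
    · rintro ⟨⟨g, hg⟩, rfl⟩
      have := eval_smul g e f z
      rw [mem_stabilizer_iff.1 hg, hfz, map_zero] at this
      exact this
    · intro hw
      obtain ⟨g, hg, hgw⟩ := htr z w hfz hw
      exact ⟨⟨g, hg⟩, hgw⟩
  have hroots : (χ.map e).roots = (χ₁.map e).roots + (χ₂.map e).roots := by
    rw [← roots_mul (by rw [← Polynomial.map_mul, ← m2]; exact (hm.map e).ne_zero),
      ← Polynomial.map_mul, ← m2]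
  have heq : (((χ.map e).roots.filter fun w : Qb => ‖(w : ℂ)‖ = ρ).filter fun w =>
      orbit (stabilizer GA e) z = orbit (stabilizer GA e) w) =
      (χ₁.map e).roots.filter fun w : Qb => 1 < ‖(w : ℂ)‖ := by
    have hnil : ((χ₂.map e).roots.filter fun w : Qb =>
        orbit (stabilizer GA e) z = orbit (stabilizer GA e) w ∧ ‖(w : ℂ)‖ = ρ) = 0 :=
      Multiset.filter_eq_nil.2 fun w hw h => m5 w ((mem_roots_map hne2).1 hw) ((horb w).1 h.1)
    rw [Multiset.filter_filter, hroots, Multiset.filter_add, hnil, add_zero]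
    refine Multiset.filter_congr fun w hw => ?_
    have a1 := m4 w ((mem_roots_map m1.ne_zero).1 hw)
    exact ⟨fun h => h.2 ▸ hρ, fun h => ⟨(horb w).2 a1,
      (dd_mod hf.ne_zero htr h0 hfz hz1 (hdep z hz) a1 h).trans hzρ⟩⟩
  rw [heq]
  rcases hcount with h | h
  · rw [h]
    exact m3.mul_left 2
  · rw [h]
    exact m3

theorem dd_main (M r : ℕ) : ∃ c : ℝ, 0 < c ∧
    ∀ (k : Type) [Field k] [NumberField k] (D : Type) [DivisionRing D] [Algebra k D]
      (V : Type) [AddCommGroup V] [Module D V] [Module k V] [IsScalarTower k D V]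
      [FiniteDimensional k V] (S : Fin r → k →+* ℂ) (δ : V →ₗ[D] V) (χ : k[X]) (t : ℝ),
      χ = (δ.restrictScalars k).charpoly → χ.natDegree = M → (∀ n, IsIntegral ℤ (χ.coeff n)) →
      (∀ σ : k →+* ℂ, σ ∉ Set.range S → ∀ z ∈ (χ.map σ).roots, ‖z‖ = 1) →
      (∀ i, ∀ z ∈ (χ.map (S i)).roots, z ≠ 0 ∧ ‖z‖ ≤ Real.exp (c * t)) →
      ((∃ i, ∃ z ∈ (χ.map (S i)).roots, 1 < ‖z‖) → ∃ i, ∃ ρ : ℝ, 1 < ρ ∧
        ¬ finrank k D ∣ 2 * ((χ.map (S i)).roots.filter fun z => ‖z‖ = ρ).card) →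
      0 ≤ t → t ^ 3 ≤ finrank ℚ k →
      ∀ i, ∀ z ∈ (χ.map (S i)).roots, ∃ n, 0 < n ∧ z ^ n = 1 := by
  classical
  obtain ⟨c₀, hc₀, κ, hAD⟩ := exists_AD 3
  obtain ⟨C₁, hC₁, hsm⟩ := small_t κ 2
  obtain ⟨c, hc, hcc⟩ := small_c hc₀ κ r M 2 C₁
  refine ⟨c, hc, fun k _ _ D _ _ V _ _ _ _ _ S δ χ t hχ hM hint hcirc hS hcnt ht htd => ?_⟩
  have hm : χ.Monic := hχ ▸ LinearMap.charpoly_monic _
  have hd : (1 : ℝ) ≤ finrank ℚ k := by exact_mod_cast finrank_pos
  have hT : ∀ e : k →+* Qb, e ∈ univ.image (fun i => up (S i)) ↔ dn e ∈ Set.range S := fun e => by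
    rw [mem_image]
    exact ⟨fun ⟨i, _, h⟩ => ⟨i, congrArg dn h⟩, fun ⟨i, h⟩ => ⟨i, mem_univ _, dn_inj h⟩⟩
  have hrt : ∀ (e : k →+* Qb) (w : Qb), eval₂ e w χ = 0 → (w : ℂ) ∈ (χ.map (dn e)).roots := by
    intro e w hw
    rw [mem_roots_map hm.ne_zero, eval_dn, hw]; rfl
  have hg : ∀ (e : k →+* Qb) (w : Qb) (g : GA), eval₂ e w χ = 0 → eval₂ (g • e) (g w) χ = 0 := by
    intro e w g hw
    rw [eval_smul, hw, map_zero]
  have hne : ∀ (e : k →+* Qb) (w : Qb), eval₂ e w χ = 0 → w ≠ 0 := by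
    intro e w hw h0
    by_cases h : dn e ∈ Set.range S
    · obtain ⟨i, hi⟩ := h
      exact (hS i _ (hi ▸ hrt e w hw)).1 (congrArg Subtype.val h0)
    · have := hcirc _ h _ (hrt e w hw)
      rw [h0] at this
      simp at this
  have hdep : ∀ e : k →+* Qb, dn e ∈ Set.range S → ∀ z : Qb, eval₂ e z χ = 0 →
      ∀ g ∈ stabilizer GA e, ∃ a b : ℤ, (a ≠ 0 ∨ b ≠ 0) ∧ z ^ a * g z ^ b = 1 := by
    intro e he z hz g hgs
    by_contra hcon
    push Not at hcon
    have h2 := core_bound (hAD 2 (by omega)) hm (T := univ.image fun i => up (S i))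
      (r := r) (card_image_le.trans (by simp)) hz (hne e z hz) (isIntegral_of_root e hm hint hz)
      (s := c * t) (by positivity)
      (fun u hu => hcirc _ (fun h => hu ((hT _).2 h)) _ (hrt _ _ (hg e z u hz)))
      (fun u hu => by
        obtain ⟨i, hi⟩ := (hT _).1 hu
        exact (hS i _ (hi ▸ hrt _ _ (hg e z u hz))).2) ![1, g]
      (fun n hn => by
        rw [Fin.prod_univ_two] at hn
        by_contra hn0
        refine hcon (n 0) (n 1) ?_ hn
        by_contra h3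
        push Not at h3
        exact hn0 (funext fun a => by fin_cases a; exacts [h3.1, h3.2]))
      (V := stabilizer GA e) (orb_top e).idx fun σ hσ a => by
        have : ((![1, g] a)⁻¹ * σ * ![1, g] a) ∈ stabilizer GA e := by
          have : ![1, g] a ∈ stabilizer GA e := by fin_cases a; exacts [one_mem _, hgs]
          exact mul_mem (mul_mem (inv_mem this) hσ) this
        rw [mem_stabilizer_iff.1 this]
        exact (hT e).2 he
    rw [hM] at h2
    refine absurd h2 (not_le.2 (hcc _ t _ 2 hd ht (by positivity)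
      (hM ▸ idx_pos (idx_root hm hz)) (by omega) le_rfl ?_))
    exact (mul_le_mul_of_nonneg_left (hsm _ t hd ht htd 2 le_rfl) (by positivity)).trans
      (le_of_eq (by ring))
  have hle : ∀ (e : k →+* Qb) (w : Qb), eval₂ e w χ = 0 → ‖(w : ℂ)‖ ≤ 1 := by
    intro e z hz
    by_contra hz1
    rw [not_le] at hz1
    have he : dn e ∈ Set.range S := by_contra fun h => hz1.ne' (hcirc _ h _ (hrt e z hz))
    obtain ⟨i, hi⟩ := he
    obtain ⟨j, ρ, hρ, hnd⟩ := hcnt ⟨i, z, hi ▸ hrt e z hz, hz1⟩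
    refine hnd ?_
    have h1 := dd_div δ hχ (up (S j)) (hne _) (hdep _ ⟨j, rfl⟩) hρ
    have a1 := (IsAlgClosed.splits (χ.map (up (S j)))).roots_map (algebraMap Qb ℂ)
    rw [Polynomial.map_map, show (algebraMap Qb ℂ).comp (up (S j)) = S j from rfl] at a1
    rw [a1, Multiset.filter_map, Multiset.card_map]
    exact h1
  intro i w hw
  rw [mem_roots_map hm.ne_zero] at hw
  have hwi := isIntegral_of_root _ hm hint hw
  let z : Qb := ⟨w, mem_algebraicClosure_iff'.2 hwi.tower_top⟩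
  have hz : eval₂ (up (S i)) z χ = 0 := Subtype.ext ((eval_dn (up (S i)) _ z).symm.trans hw)
  obtain ⟨n, hn, h⟩ := dv_kron (hne _ z hz) (isIntegral_of_root _ hm hint hz)
    fun g => hle _ _ (hg _ z g hz)
  exact ⟨n, hn, congrArg Subtype.val h⟩

end Pool.Agent.Lib.MP_162bbe_gt
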