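import Mathlib

set_option autoImplicit false

/-! Bounded groups of matrices. -/

namespace Pool.Agent.Lib.MP_162bbe_gt

open Finset Polynomial Matrix Filter Topology

variable {M : ℕ}

lemma norm_le_of_eigen {A : Matrix (Fin M) (Fin M) ℂ} {v : Fin M → ℂ} (hv : v ≠ 0) {z : ℂ}
    (h : A *ᵥ v = z • v) {B : ℝ} (hB : ∀ a b, ‖A a b‖ ≤ B) : ‖z‖ ≤ M * B := by
  obtain ⟨b₀, hb₀⟩ := Function.ne_iff.1 hv
  obtain ⟨a, -, ha⟩ := exists_max_image univ (fun a => ‖v a‖) ⟨b₀, mem_univ _⟩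
  have h1 : 0 < ‖v a‖ := (norm_pos_iff.2 hb₀).trans_le (ha b₀ (mem_univ _))
  have h2 := congrArg (‖· a‖) h
  simp only [Pi.smul_apply, smul_eq_mul, norm_mul, mulVec, dotProduct] at h2
  apply le_of_mul_le_mul_right _ h1
  rw [← h2]
  refine (norm_sum_le _ _).trans ((sum_le_card_nsmul _ _ (B * ‖v a‖) fun b _ => ?_).trans ?_)
  · rw [norm_mul]
    exact mul_le_mul (hB a b) (ha b (mem_univ _)) (norm_nonneg _)
      ((norm_nonneg _).trans (hB a b))
  · simp [mul_assoc]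

lemma exists_eigen {A : Matrix (Fin M) (Fin M) ℂ} {z : ℂ} (h : eval z A.charpoly = 0) :
    ∃ v : Fin M → ℂ, v ≠ 0 ∧ A *ᵥ v = z • v := by
  rw [eval_charpoly, ← exists_mulVec_eq_zero_iff] at h
  obtain ⟨v, hv, h⟩ := h
  refine ⟨v, hv, ?_⟩
  rw [sub_mulVec, sub_eq_zero] at h
  rw [← h]
  ext a
  simp [scalar_apply, mulVec_diagonal]

variable {Γ : Type*} [Group Γ]

lemma norm_le_one_of_bdd (τ : Γ →* Matrix (Fin M) (Fin M) ℂ) {B : ℝ}
    (hB : ∀ γ a b, ‖τ γ a b‖ ≤ B) {γ : Γ} {v : Fin M → ℂ} (hv : v ≠ 0) {z : ℂ}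
    (h : τ γ *ᵥ v = z • v) : ‖z‖ ≤ 1 := by
  have h1 : ∀ m : ℕ, τ (γ ^ m) *ᵥ v = z ^ m • v := fun m => by
    induction m with
    | zero => simp
    | succ m ih => rw [pow_succ, map_mul, ← mulVec_mulVec, h, mulVec_smul, ih, smul_smul, pow_succ']
  by_contra hz
  obtain ⟨m, hm⟩ := pow_unbounded_of_one_lt (M * B) (not_le.1 hz)
  have := norm_le_of_eigen hv (h1 m) (hB _)
  rw [norm_pow] at this
  linarith

lemma norm_eq_one_of_bdd (τ : Γ →* Matrix (Fin M) (Fin M) ℂ) {B : ℝ}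
    (hB : ∀ γ a b, ‖τ γ a b‖ ≤ B) {γ : Γ} {z : ℂ} (h : eval z (τ γ).charpoly = 0) : ‖z‖ = 1 := by
  obtain ⟨v, hv, h⟩ := exists_eigen h
  have h1 : z • (τ γ⁻¹ *ᵥ v) = v := by
    rw [← mulVec_smul, ← h, mulVec_mulVec, ← map_mul, inv_mul_cancel, map_one, one_mulVec]
  have hz : z ≠ 0 := fun h0 => hv (by rw [← h1, h0, zero_smul])
  have h2 : τ γ⁻¹ *ᵥ v = z⁻¹ • v := by
    conv_rhs => rw [← h1, smul_smul, inv_mul_cancel₀ hz, one_smul]
  have h3 := norm_le_one_of_bdd τ hB hv h2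
  rw [norm_inv, inv_le_one₀ (norm_pos_iff.2 hz)] at h3
  exact le_antisymm (norm_le_one_of_bdd τ hB hv h) h3

lemma eq_one_of_nilpotent (τ : Γ →* Matrix (Fin M) (Fin M) ℂ) {B : ℝ}
    (hB : ∀ γ a b, ‖τ γ a b‖ ≤ B) {γ : Γ} {j : ℕ} (h : (τ γ - 1) ^ (j + 1) = 0) : τ γ = 1 := by
  induction j with
  | zero => rwa [zero_add, pow_one, sub_eq_zero] at h
  | succ j ih =>
    apply ih
    set n := τ γ - 1 with hn
    have hu : τ γ = 1 + n := by rw [hn]; abel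
    have h1 : ∀ m : ℕ, n ^ j * τ (γ ^ m) = n ^ j + (m : ℂ) • n ^ (j + 1) := fun m => by
      induction m with
      | zero => simp
      | succ m ihm =>
        rw [pow_succ, map_mul, ← mul_assoc, ihm, hu, add_mul, mul_add, mul_add, mul_one, mul_one,
          smul_mul_assoc, ← pow_succ, ← pow_succ, h, smul_zero, add_zero, Nat.cast_succ, add_smul,
          one_smul]
        abel
    ext a b
    by_contra hab
    have hpos : 0 < ‖(n ^ (j + 1)) a b‖ := norm_pos_iff.2 hab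
    obtain ⟨m, hm⟩ := exists_nat_gt (((∑ c, ‖(n ^ j) a c‖ * B) + ‖(n ^ j) a b‖) /
      ‖(n ^ (j + 1)) a b‖)
    rw [div_lt_iff₀ hpos] at hm
    have h2 : (m : ℂ) * (n ^ (j + 1)) a b = (n ^ j * τ (γ ^ m)) a b - (n ^ j) a b := by
      rw [h1]; simp
    have h3 := congrArg norm h2
    rw [norm_mul, Complex.norm_natCast] at h3
    have h4 : ‖(n ^ j * τ (γ ^ m)) a b‖ ≤ ∑ c, ‖(n ^ j) a c‖ * B := by
      rw [mul_apply]
      refine (norm_sum_le _ _).trans (sum_le_sum fun c _ => ?_)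
      rw [norm_mul]
      exact mul_le_mul_of_nonneg_left (hB _ _ _) (norm_nonneg _)
    have h5 := norm_sub_le ((n ^ j * τ (γ ^ m)) a b) ((n ^ j) a b)
    linarith

lemma exists_pow_eq_one (τ : Γ →* Matrix (Fin M) (Fin M) ℂ) {B : ℝ}
    (hB : ∀ γ a b, ‖τ γ a b‖ ≤ B) {γ : Γ}
    (h : ∀ z, eval z (τ γ).charpoly = 0 → ∃ n, 0 < n ∧ z ^ n = 1) :
    ∃ n, 0 < n ∧ τ (γ ^ n) = 1 := by
  classical
  have hm := (τ γ).charpoly_monic
  obtain ⟨n, hn, hz⟩ : ∃ n, 0 < n ∧ ∀ z ∈ (τ γ).charpoly.roots.toFinset, z ^ n = 1 := by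
    choose! f hf using h
    have key : ∀ z ∈ (τ γ).charpoly.roots.toFinset, eval z (τ γ).charpoly = 0 := fun z hz =>
      (mem_roots hm.ne_zero).1 (Multiset.mem_toFinset.1 hz)
    refine ⟨∏ z ∈ (τ γ).charpoly.roots.toFinset, f z, prod_pos fun z hz => (hf z (key z hz)).1,
      fun z hz => ?_⟩
    obtain ⟨c, hc⟩ := dvd_prod_of_mem f hz
    rw [hc, pow_mul, (hf z (key z hz)).2, one_pow]
  refine ⟨n, hn, eq_one_of_nilpotent τ hB (j := (τ γ).charpoly.roots.card) ?_⟩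
  have h1 : (τ γ).charpoly ∣ (X ^ n - 1 : ℂ[X]) ^ (τ γ).charpoly.roots.card := by
    conv_lhs => rw [(IsAlgClosed.splits (τ γ).charpoly).eq_prod_roots_of_monic hm]
    refine (Multiset.prod_dvd_prod_of_dvd _ (fun _ => (X ^ n - 1 : ℂ[X])) fun z hz' => ?_).trans
      (by simp)
    rw [dvd_iff_isRoot]
    simp [hz z (Multiset.mem_toFinset.2 hz')]
  obtain ⟨c, hc⟩ := h1
  have h2 := congrArg (aeval (τ γ)) hc
  rw [map_mul, aeval_self_charpoly, zero_mul, map_pow, map_sub, map_pow, aeval_X, map_one] at h2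
  rw [map_pow, pow_succ, h2, zero_mul]

lemma spec_nhds {G : Type*} [Group G] [TopologicalSpace G] {r : ℕ}
    (π : Fin r → G →* Matrix (Fin M) (Fin M) ℂ) (hπ : ∀ i, Continuous (π i)) {R : ℝ} (hR : 1 < R) :
    {g | ∀ i, ∀ z, eval z (π i g).charpoly = 0 → ‖z‖ < R} ∈ 𝓝 (1 : G) := by
  have hη : 0 < (R - 1) / (M + 1) := div_pos (by linarith) (by positivity)
  have h1 : ∀ᶠ g in 𝓝 (1 : G), ∀ i a b, ‖(π i g - 1) a b‖ < (R - 1) / (M + 1) := by
    simp only [eventually_all]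
    intro i a b
    have hc : Continuous fun g => ‖(π i g - 1) a b‖ :=
      (((hπ i).sub continuous_const).matrix_elem a b).norm
    refine hc.continuousAt.eventually_lt continuousAt_const ?_
    simpa using hη
  refine mem_of_superset h1 fun g hg i z hz => ?_
  obtain ⟨v, hv, h⟩ := exists_eigen hz
  have h2 : (π i g - 1) *ᵥ v = (z - 1) • v := by rw [sub_mulVec, h, one_mulVec, sub_smul, one_smul]
  have h3 := norm_le_of_eigen hv h2 fun a b => (hg i a b).le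
  have h4 : (M : ℝ) * ((R - 1) / (M + 1)) < R - 1 := by
    rw [← mul_div_assoc, div_lt_iff₀ (by positivity)]
    nlinarith
  have h5 := norm_sub_norm_le z 1
  rw [norm_one] at h5
  linarith

end Pool.Agent.Lib.MP_162bbe_gt
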