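import Pool.Agent.Lib.MP_162bbe_gt.TMain
import Pool.Agent.Lib.MP_162bbe_gt.Mat

set_option autoImplicit false

/-! From algebraic numbers to arithmetic groups, in several variables. -/

namespace Pool.Agent.Lib.MP_162bbe_gt

open Finset MulAction Module Polynomial Pool.Agent.Lib.MP_f61260_nt

lemma exists_pow_nilpotent {M : ℕ} (A : Matrix (Fin M) (Fin M) ℂ)
    (h : ∀ z, eval z A.charpoly = 0 → ∃ n, 0 < n ∧ z ^ n = 1) :
    ∃ n, 0 < n ∧ IsNilpotent (A ^ n - 1) := by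
  classical
  have hm := A.charpoly_monic
  obtain ⟨n, hn, hz⟩ : ∃ n, 0 < n ∧ ∀ z ∈ A.charpoly.roots.toFinset, z ^ n = 1 := by
    choose! f hf using h
    have key : ∀ z ∈ A.charpoly.roots.toFinset, eval z A.charpoly = 0 := fun z hz =>
      (mem_roots hm.ne_zero).1 (Multiset.mem_toFinset.1 hz)
    refine ⟨∏ z ∈ A.charpoly.roots.toFinset, f z, prod_pos fun z hz => (hf z (key z hz)).1,
      fun z hz => ?_⟩
    obtain ⟨c, hc⟩ := dvd_prod_of_mem f hz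
    rw [hc, pow_mul, (hf z (key z hz)).2, one_pow]
  refine ⟨n, hn, A.charpoly.roots.card, ?_⟩
  have h1 : A.charpoly ∣ (X ^ n - 1 : ℂ[X]) ^ A.charpoly.roots.card := by
    conv_lhs => rw [(IsAlgClosed.splits A.charpoly).eq_prod_roots_of_monic hm]
    refine (Multiset.prod_dvd_prod_of_dvd _ (fun _ => (X ^ n - 1 : ℂ[X])) fun z hz' => ?_).trans
      (by simp)
    rw [dvd_iff_isRoot]
    simp [hz z (Multiset.mem_toFinset.2 hz')]
  obtain ⟨c, hc⟩ := h1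
  have h2 := congrArg (aeval A) hc
  rwa [map_mul, Matrix.aeval_self_charpoly, zero_mul, map_pow, map_sub, map_pow, aeval_X,
    map_one] at h2

lemma eig_ne_zero {M : ℕ} {Γ : Type*} [Group Γ] (τ : Γ →* Matrix (Fin M) (Fin M) ℂ) {γ : Γ} {z : ℂ}
    (h : eval z (τ γ).charpoly = 0) : z ≠ 0 := by
  obtain ⟨v, hv, h⟩ := exists_eigen h
  rintro rfl
  apply hv
  rw [← Matrix.one_mulVec v, ← map_one τ, ← inv_mul_cancel γ, map_mul, ← Matrix.mulVec_mulVec, h,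
    zero_smul, Matrix.mulVec_zero]

open IntermediateField in
theorem lattice_n (M r m : ℕ) : ∃ κ : ℕ, ∀ C : ℝ, ∃ c : ℝ, 0 < c ∧
    ∀ (Γ : Type*) [Group Γ] (k : Type) [Field k] [NumberField k]
      (ρ : Γ →* Matrix (Fin M) (Fin M) k) (S : Fin r → k →+* ℂ) (t : ℝ),
      (∀ γ n, IsIntegral ℤ ((ρ γ).charpoly.coeff n)) →
      (∀ σ : k →+* ℂ, σ ∉ Set.range S → ∃ B : ℝ, ∀ γ a b, ‖σ (ρ γ a b)‖ ≤ B) →
      0 ≤ t → t ^ (m + 5) ≤ finrank ℚ k →
      (Group.IsSolvable (normalClosure ℚ k ℂ ≃ₐ[ℚ] normalClosure ℚ k ℂ) ∨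
        finrank ℚ (normalClosure ℚ k ℂ) ≤ finrank ℚ k ^ m ∨
        ∀ (i : Fin r) (k₁ : IntermediateField ℚ k),
          (∀ σ : k →+* ℂ, (∀ x ∈ k₁, σ x = S i x) → σ ∈ Set.range S) →
          ∃ (j : ℕ) (σ : Fin j → k₁ →+* ℂ), 1 ≤ j ∧ j ≤ m ∧ Function.Injective σ ∧
            (finrank ℚ ↥(⨆ l, (σ l).toRatAlgHom.fieldRange) : ℝ) *
              (t * Real.log (3 * finrank ℚ k) ^ κ) ^ j ≤ C * finrank ℚ k ^ j) →
      ∀ γ, (∀ i z, eval₂ (S i) z (ρ γ).charpoly = 0 → ‖z‖ ≤ Real.exp (c * t)) →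
        ∃ n, 0 < n ∧ IsNilpotent (ρ (γ ^ n) - 1) := by
  classical
  obtain ⟨κ, hκ⟩ := salem_n M r m
  refine ⟨κ, fun C => ?_⟩
  obtain ⟨c, hc, hsalem⟩ := hκ C
  refine ⟨c, hc, fun Γ _ k _ _ ρ S t hint hbdd ht htd hyp γ hγ => ?_⟩
  let τ : (k →+* ℂ) → Γ →* Matrix (Fin M) (Fin M) ℂ := fun σ =>
    (σ.mapMatrix : Matrix (Fin M) (Fin M) k →+* _).toMonoidHom.comp ρ
  have hτ : ∀ σ z, eval z (τ σ γ).charpoly = eval₂ σ z (ρ γ).charpoly := fun σ z => by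
    rw [eval₂_eq_eval_map, ← Matrix.charpoly_map]; rfl
  have hcirc : ∀ σ z, eval₂ σ z (ρ γ).charpoly = 0 → ‖z‖ ≠ 1 → ∃ i, S i = σ := by
    intro σ z hz hz1
    by_contra h
    obtain ⟨B, hB⟩ := hbdd σ h
    exact hz1 (norm_eq_one_of_bdd (τ σ) hB ((hτ σ z).trans hz))
  have hm := (ρ γ).charpoly_monic
  by_cases hall : ∀ (σ : k →+* ℂ) z, eval₂ σ z (ρ γ).charpoly = 0 → ‖z‖ = 1
  · obtain ⟨σ⟩ : Nonempty (k →+* ℂ) := inferInstance
    obtain ⟨n, hn, N, h⟩ := exists_pow_nilpotent (τ σ γ) fun z hz => by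
      obtain ⟨P, -, -, -, h1, -, -, h2⟩ := exists_minpoly hm (hint γ) σ ((hτ σ z).symm.trans hz)
      exact h2 fun w hw => (h1 w hw).elim fun σ' h => hall σ' w h
    refine ⟨n, hn, N, Matrix.map_injective σ.injective ?_⟩
    change σ.mapMatrix _ = σ.mapMatrix _
    rw [map_pow, map_sub, map_one, map_zero, map_pow, map_pow]
    exact h
  exfalso
  push Not at hall
  obtain ⟨σ₀, w, hw, hw1⟩ := hall
  obtain ⟨i, rfl⟩ := hcirc σ₀ w hw hw1
  have hwi := isIntegral_of_root _ hm (hint γ) hw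
  let z : Qb := ⟨w, mem_algebraicClosure_iff'.2 hwi.tower_top⟩
  have hz : eval₂ (up (S i)) z (ρ γ).charpoly = 0 :=
    Subtype.ext ((eval_dn (up (S i)) _ z).symm.trans hw)
  have hgz : ∀ g : GA, eval₂ (dn (g • up (S i))) (g z : ℂ) (ρ γ).charpoly = 0 := fun g => by
    rw [eval_dn, eval_smul, hz, map_zero]; rfl
  have hT : ∀ e : k →+* Qb, e ∈ univ.image (fun i => up (S i)) ↔ dn e ∈ Set.range S := fun e => by
    rw [mem_image]
    exact ⟨fun ⟨i, _, h⟩ => ⟨i, congrArg dn h⟩, fun ⟨i, h⟩ => ⟨i, mem_univ _, dn_inj h⟩⟩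
  have hd : 1 ≤ finrank ℚ k := finrank_pos
  obtain ⟨g, hg, h⟩ := hsalem k (ρ γ).charpoly (univ.image fun i => up (S i)) (up (S i)) z t hm
    (by rw [Matrix.charpoly_natDegree_eq_dim, Fintype.card_fin]) (card_image_le.trans (by simp))
    ht htd hz ((isIntegral_algHom_iff (algebraMap Qb ℂ).toIntAlgHom Subtype.val_injective).1 hwi)
    (fun h => eig_ne_zero (τ (S i)) ((hτ _ w).trans hw) (congrArg Subtype.val h)) hw1
    (fun g hg => by_contra fun h => hg ((hT _).2 (hcirc _ _ (hgz g) h))) fun k₁ hk₁ => by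
      have ho : Orb (⊤ : Subgroup GA) ((up (S i)).comp (algebraMap k₁ k)) (finrank ℚ k) :=
        (orb_top _).mono (Submodule.finrank_le k₁.toSubmodule)
      rcases hyp with h | h | h
      · obtain ⟨n, hn⟩ := solv_fix (k := k)
        obtain ⟨j, hj, h⟩ := tup_solv ((up (S i)).comp (algebraMap k₁ k)) (n := n)
          (fun ν hν => RingHom.ext fun x => RingHom.congr_fun (hn ν hν (up (S i))) x) ho
        exact ⟨j + 1, _, by omega, by omega, h, Or.inr (Nat.le_mul_of_pos_left _ (by omega))⟩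
      · obtain ⟨N, hN, hN'⟩ := idx_field (normalClosure ℚ k ℂ)
        rcases tup_poly _ m ho N (fun g => hN' _ _ fun x =>
          (dn (g • up (S i))).toRatAlgHom.fieldRange_le_normalClosure ⟨x, rfl⟩) hN with h' | h'
        · exact ⟨1, _, le_rfl, by omega, h', Or.inr (by simp)⟩
        · exact ⟨m + 1, _, by omega, by omega, h',
            Or.inr (h.trans (Nat.le_mul_of_pos_left _ (by omega)))⟩
      · obtain ⟨j, σ, hj, hj', hσ, h⟩ := h i k₁ fun σ hσ => by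
          obtain ⟨g, hg⟩ := emb_trans (up (S i)) (up σ)
          refine (hT (up σ)).1 (hg ▸ hk₁ g (mem_stab.2 fun x => ?_))
          exact (RingHom.congr_fun hg x).trans (Subtype.ext (hσ x x.2))
        exact ⟨j, _, hj, by omega, tup_field _ σ hσ, Or.inl h⟩
  obtain ⟨i', hi'⟩ := (hT _).1 hg
  exact absurd (hγ i' _ (hi' ▸ hgz g)) (not_le.2 h)

end Pool.Agent.Lib.MP_162bbe_gt
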