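import Pool.Agent.Lib.MP_162bbe_gt.Ad.Final

namespace Pool.Agent.Lib.MP_162bbe_gt.AllTypes

open Pool.Agent.Lib.MP_162bbe_gt.Ad

/-- Uniform discreteness of the torsion-free uniform arithmetic lattices whose field of definition
has a solvable or small normal closure, in every semisimple group without compact factors. -/
theorem result (r m : ℕ) (g : Fin r → Type) [∀ i, LieRing (g i)] [∀ i, LieAlgebra ℂ (g i)]
    [∀ i, Module.Finite ℂ (g i)] [∀ i, LieAlgebra.IsSimple ℂ (g i)] :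
    ∃ a : ℕ, ∀ (C : ℝ) (h : ∀ i, Submodule ℝ (g i)) (G : Type) [Group G] [TopologicalSpace G]
      [IsTopologicalGroup G] (π : ∀ i, G →* Module.End ℂ (g i)), Adj h π →
      UnifDiscrete {Γ : Subgroup G | CompactSpace (G ⧸ Γ) ∧ (∀ γ ∈ Γ, IsOfFinOrder γ → γ = 1) ∧
        SmallArith h π m a C Γ} := by
  obtain ⟨a, ha⟩ := fin_order r m g
  refine ⟨a, fun C h G _ _ _ π hA => ?_⟩
  obtain ⟨U, hU, h1⟩ := ha C h G π hA
  exact ⟨U, hU, fun Γ hΓ b γ hγ hb => hΓ.2.1 γ hγ (h1 Γ hΓ.1 hΓ.2.2 b γ hγ hb)⟩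

end Pool.Agent.Lib.MP_162bbe_gt.AllTypes
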