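import Pool.Agent.Lib.MP_162bbe_gt.Zero1

set_option autoImplicit false

/-! A zero estimate on the two-dimensional torus. -/

namespace Pool.Agent.Lib.MP_162bbe_gt

open MvPolynomial Finset

variable {F : Type*} [Field F]

/-- a good prime forces a small degree -/
lemma good_prime [IsAlgClosed F] [CharZero F] {w G : MvPolynomial (Fin 2) F}
    (hw : Irreducible w) {e : Fin 2 →₀ ℕ} (he : coeff e w = 1) (hG : G ≠ 0)
    (hinv : ∀ σ, cj σ G = G) {q : ℕ} (hq : 0 < q) (hd : w ∣ expand q G)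
    (hgood : ∀ ζ : Fin 2 → F, (∀ i, ζ i ^ q = 1) → (∃ σ, sc ζ w ∣ cj σ w) → ζ = 1)
    (I : Finset (MvPolynomial (Fin 2) F)) (hI : ∀ v, v ∈ I ↔ ∃ σ, cj σ w = v) :
    q * (I.card * w.totalDegree) ≤ G.totalDegree := by
  classical
  have : NeZero q := ⟨hq.ne'⟩
  have : NeZero (q : F) := ⟨Nat.cast_ne_zero.2 hq.ne'⟩
  obtain ⟨ρ, hρ⟩ := HasEnoughRootsOfUnity.exists_primitiveRoot F q
  set μ := Fintype.piFinset fun _ : Fin 2 => Polynomial.nthRootsFinset q (1 : F) with hμ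
  have hμc : μ.card = q ^ 2 := by
    rw [hμ, Fintype.card_piFinset, prod_const, card_univ, Fintype.card_fin, hρ.card_nthRootsFinset]
  have hmem : ∀ ζ ∈ μ, ∀ i, ζ i ^ q = 1 := fun ζ hζ i =>
    (Polynomial.mem_nthRootsFinset hq _).1 (Fintype.mem_piFinset.1 hζ i)
  have hne : ∀ ζ ∈ μ, ∀ i, ζ i ≠ 0 := fun ζ hζ i h => by
    have := hmem ζ hζ i
    rw [h, zero_pow hq.ne'] at this
    exact zero_ne_one this
  have := sum_deg_le (μ ×ˢ I) (fun x => sc x.1 x.2) (fun x hx => by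
      obtain ⟨h1, h2⟩ := mem_product.1 hx
      obtain ⟨σ, hσ⟩ := (hI _).1 h2
      rw [← hσ]
      exact irreducible_sc (hne _ h1) (irreducible_cj σ hw))
    (fun x hx y hy h => by
      obtain ⟨ζ, v⟩ := x
      obtain ⟨ζ', v'⟩ := y
      obtain ⟨h1, h2⟩ := mem_product.1 hx
      obtain ⟨h1', h2'⟩ := mem_product.1 hy
      obtain ⟨σ, rfl⟩ := (hI _).1 h2
      obtain ⟨σ', rfl⟩ := (hI _).1 h2'
      simp only at h h1 h1'
      have hi : ζ'⁻¹ * ζ' = 1 := funext fun i => inv_mul_cancel₀ (hne _ h1' i)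
      have k1 := map_dvd (sc ζ'⁻¹) h
      rw [sc_sc, sc_sc, hi, sc_one] at k1
      have k2 := map_dvd (cj σ⁻¹) k1
      rw [cj_sc, cj_cj, cj_cj, inv_mul_cancel, cj_one] at k2
      have k3 := hgood _ (fun i => by
        rw [← map_pow, Pi.mul_apply, Pi.inv_apply, mul_pow, inv_pow, hmem _ h1, hmem _ h1']
        simp) ⟨_, k2⟩
      have k4 : ζ = ζ' := funext fun i => by
        have h5 := congrFun k3 i
        rw [Pi.one_apply, ← map_one σ⁻¹] at h5
        have h6 := (σ⁻¹).injective h5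
        rw [Pi.mul_apply, Pi.inv_apply, inv_mul_eq_one₀ (hne _ h1' i)] at h6
        exact h6.symm
      subst k4
      rw [hi, sc_one] at k1
      rw [eq_of_dvd_cj hw he k1])
    ((expand_ne_zero hq).2 hG) (fun x hx => by
      obtain ⟨h1, h2⟩ := mem_product.1 hx
      obtain ⟨σ, hσ⟩ := (hI _).1 h2
      rw [← hσ, ← sc_expand (hmem _ h1) G]
      refine map_dvd _ ?_
      rw [← hinv σ, ← cj_expand]
      exact map_dvd _ hd)
  rw [sum_congr rfl (g := fun _ => w.totalDegree) (fun x hx => by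
      obtain ⟨h1, h2⟩ := mem_product.1 hx
      obtain ⟨σ, hσ⟩ := (hI _).1 h2
      rw [totalDegree_sc (hne _ h1), ← hσ, totalDegree_cj]), sum_const, smul_eq_mul, card_product,
    hμc, totalDegree_expand] at this
  apply Nat.le_of_mul_le_mul_left _ hq
  calc q * (q * (I.card * w.totalDegree)) = q ^ 2 * I.card * w.totalDegree := by ring
    _ ≤ G.totalDegree * q := this
    _ = q * G.totalDegree := mul_comm _ _

lemma exists_primitive {c d : ℤ} (h : c ≠ 0 ∨ d ≠ 0) : ∃ a b u v : ℤ, u * a + v * b = 1 ∧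
    ∀ x y : ℤ, c * y - d * x = 0 → x = (u * x + v * y) * a ∧ y = (u * x + v * y) * b := by
  have hg : 0 < Int.gcd c d := Int.gcd_pos_iff.2 h
  obtain ⟨a, b, hab, hc, hd⟩ := Int.exists_gcd_one hg
  have hb := Int.gcd_eq_gcd_ab a b
  rw [hab] at hb
  refine ⟨a, b, Int.gcdA a b, Int.gcdB a b, by push_cast at hb; linarith, fun x y hxy => ?_⟩
  have hg' : (Int.gcd c d : ℤ) ≠ 0 := by exact_mod_cast hg.ne'
  have h1 : a * y - b * x = 0 := by
    apply mul_left_cancel₀ hg'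
    linear_combination hxy - y * hc + x * hd
  push_cast at hb
  constructor
  · linear_combination x * hb - Int.gcdB a b * h1
  · linear_combination y * hb + Int.gcdA a b * h1

/-- curves with collinear support -/
lemma collinear {w : MvPolynomial (Fin 2) F} {e₀ e₁ : Fin 2 →₀ ℕ} (h₀ : e₀ ∈ w.support)
    (hne : e₁ ≠ e₀)
    (hcol : ∀ e ∈ w.support, ((e₁ 0 : ℤ) - e₀ 0) * ((e 1 : ℤ) - e₀ 1) -
      ((e₁ 1 : ℤ) - e₀ 1) * ((e 0 : ℤ) - e₀ 0) = 0) :
    ∃ a b : ℤ, (a ≠ 0 ∨ b ≠ 0) ∧ ∀ v : MvPolynomial (Fin 2) F, v.support = w.support →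
      ∃ S : Finset F, S.card ≤ 2 * w.totalDegree ∧
        ∀ z : Fin 2 → F, (∀ i, z i ≠ 0) → eval z v = 0 → z 0 ^ a * z 1 ^ b ∈ S := by
  classical
  have hcd : ((e₁ 0 : ℤ) - e₀ 0) ≠ 0 ∨ ((e₁ 1 : ℤ) - e₀ 1) ≠ 0 := by
    by_contra h
    push Not at h
    apply hne
    ext i
    fin_cases i
    · have := h.1; simp only [Fin.zero_eta]; omega
    · have := h.2; simp only [Fin.mk_one]; omega
  obtain ⟨a, b, u, u', hab, ht⟩ := exists_primitive hcd
  have hab0 : a ≠ 0 ∨ b ≠ 0 := by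
    by_contra h
    push Not at h
    rw [h.1, h.2] at hab
    simp at hab
  refine ⟨a, b, hab0, fun v hv => ?_⟩
  set δ := w.totalDegree with hδ
  let t : (Fin 2 →₀ ℕ) → ℤ := fun e => u * ((e 0 : ℤ) - e₀ 0) + u' * ((e 1 : ℤ) - e₀ 1)
  have ht' : ∀ e ∈ w.support, ((e 0 : ℤ) - e₀ 0) = t e * a ∧ ((e 1 : ℤ) - e₀ 1) = t e * b :=
    fun e he => ht _ _ (hcol e he)
  have hdeg : ∀ e ∈ w.support, e 0 + e 1 ≤ δ := fun e he =>
    mem_Sx.1 (mem_Sx_of_mem_support le_rfl he)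
  have htb : ∀ e ∈ w.support, |t e| ≤ δ := by
    intro e he
    obtain ⟨k1, k2⟩ := ht' e he
    have d1 := hdeg e he
    have d0 := hdeg e₀ h₀
    rcases hab0 with h | h
    · have : |t e| ≤ |t e * a| := by
        rw [abs_mul]
        exact le_mul_of_one_le_right (abs_nonneg _) (Int.one_le_abs h)
      rw [← k1] at this
      refine this.trans (abs_le.2 ⟨by omega, by omega⟩)
    · have : |t e| ≤ |t e * b| := by
        rw [abs_mul]
        exact le_mul_of_one_le_right (abs_nonneg _) (Int.one_le_abs h)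
      rw [← k2] at this
      refine this.trans (abs_le.2 ⟨by omega, by omega⟩)
  let R : Polynomial F := ∑ e ∈ w.support, Polynomial.monomial (t e + δ).toNat (coeff e v)
  have hR0 : R ≠ 0 := by
    intro h
    have h1 := congrArg (Polynomial.coeff · δ) h
    simp only [R, Polynomial.finsetSum_coeff, Polynomial.coeff_monomial,
      Polynomial.coeff_zero] at h1
    rw [sum_eq_single e₀] at h1
    · rw [if_pos (by simp [t])] at h1
      exact mem_support_iff.1 (hv ▸ h₀) h1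
    · intro e he hee
      rw [if_neg]
      intro h2
      have h3 := abs_le.1 (htb e he)
      have h4 : t e = 0 := by omega
      obtain ⟨k1, k2⟩ := ht' e he
      rw [h4, zero_mul] at k1 k2
      apply hee
      ext i
      fin_cases i
      · simp only [Fin.zero_eta]; omega
      · simp only [Fin.mk_one]; omega
    · intro h; exact absurd h₀ h
  have hRd : R.natDegree ≤ 2 * δ := by
    refine Polynomial.natDegree_sum_le_of_forall_le _ _ fun e he => ?_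
    refine (Polynomial.natDegree_monomial_le _).trans ?_
    have h3 := abs_le.1 (htb e he)
    omega
  refine ⟨R.roots.toFinset, (Multiset.toFinset_card_le _).trans
    ((Polynomial.card_roots' _).trans hRd), fun z hz hzv => ?_⟩
  rw [Multiset.mem_toFinset, Polynomial.mem_roots hR0, Polynomial.IsRoot]
  have h0 := hz 0
  have h1 := hz 1
  have hγ : z 0 ^ a * z 1 ^ b ≠ 0 := mul_ne_zero (zpow_ne_zero _ h0) (zpow_ne_zero _ h1)
  have hc : z 0 ^ e₀ 0 * z 1 ^ e₀ 1 ≠ 0 := mul_ne_zero (pow_ne_zero _ h0) (pow_ne_zero _ h1)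
  apply mul_left_cancel₀ hc
  rw [eval_eq', hv] at hzv
  rw [mul_zero, ← mul_zero ((z 0 ^ a * z 1 ^ b) ^ δ), ← hzv]
  simp only [R, Polynomial.eval_finsetSum, Polynomial.eval_monomial, mul_sum]
  refine sum_congr rfl fun e he => ?_
  obtain ⟨k1, k2⟩ := ht' e he
  have h3 := abs_le.1 (htb e he)
  have e1 : z 0 ^ e 0 = z 0 ^ e₀ 0 * (z 0 ^ a) ^ t e := by
    rw [← zpow_mul, ← zpow_natCast, ← zpow_natCast, ← zpow_add₀ h0]
    congr 1; linarith
  have e2 : z 1 ^ e 1 = z 1 ^ e₀ 1 * (z 1 ^ b) ^ t e := by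
    rw [← zpow_mul, ← zpow_natCast, ← zpow_natCast, ← zpow_add₀ h1]
    congr 1; linarith
  have e3 : (z 0 ^ a * z 1 ^ b) ^ (t e + δ).toNat =
      (z 0 ^ a * z 1 ^ b) ^ t e * (z 0 ^ a * z 1 ^ b) ^ δ := by
    rw [← zpow_natCast, Int.toNat_of_nonneg (by omega), zpow_add₀ hγ, zpow_natCast]
  rw [Fin.prod_univ_two, e1, e2, e3, mul_zpow]
  ring

/-- the case of a curve contained in all the dilated zero sets -/
lemma case_one [IsAlgClosed F] [CharZero F] {w G : MvPolynomial (Fin 2) F} (hw : Irreducible w)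
    (hG : G ≠ 0) (hinv : ∀ σ, cj σ G = G) {L : ℕ} (hL : G.totalDegree ≤ L) (hd : w ∣ G)
    (Q : Finset ℕ) (hQ : ∀ q ∈ Q, q.Prime) (hdq : ∀ q ∈ Q, w ∣ expand q G)
    (hbig : 4 * L ^ 5 < 2 ^ Q.card) {z : Fin 2 → F} (hz : ∀ i, z i ≠ 0) (hzw : eval z w = 0) :
    (∃ q ∈ Q, ∃ W : MvPolynomial (Fin 2) F, W ≠ 0 ∧ q * W.totalDegree ≤ L ∧
      ∀ σ : F ≃+* F, eval (fun i => σ (z i)) W = 0) ∨
    (∃ a b : ℤ, (a ≠ 0 ∨ b ≠ 0) ∧ ∃ S : Finset F, S.card ≤ 2 * L ∧
      ∀ σ : F ≃+* F, σ (z 0 ^ a * z 1 ^ b) ∈ S) := by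
  classical
  obtain ⟨e₀, h₀⟩ := support_nonempty.2 hw.ne_zero
  wlog he : coeff e₀ w = 1 generalizing w
  · have hc := mem_support_iff.1 h₀
    have hu : IsUnit (C (coeff e₀ w)⁻¹ : MvPolynomial (Fin 2) F) :=
      (IsUnit.mk0 _ (inv_ne_zero hc)).map C
    refine this (w := C (coeff e₀ w)⁻¹ * w) ((irreducible_isUnit_mul hu).2 hw)
      (hu.mul_left_dvd.2 hd) (fun q hq => hu.mul_left_dvd.2 (hdq q hq))
      (by rw [map_mul, hzw, mul_zero]) ?_ ?_
    · rw [mem_support_iff, coeff_C_mul, inv_mul_cancel₀ hc]; exact one_ne_zero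
    · rw [coeff_C_mul, inv_mul_cancel₀ hc]
  obtain ⟨I, hI, hIc⟩ := exists_conj hw he hG hinv hd
  have hδ := deg_pos_of_irred hw
  have hI1 : 0 < I.card := card_pos.2 ⟨w, (hI _).2 ⟨1, cj_one w⟩⟩
  have hδL : w.totalDegree ≤ L := by nlinarith
  have hIL : I.card ≤ L := by nlinarith
  have hex : ∃ e₁ ∈ w.support, e₁ ≠ e₀ := by
    by_contra h
    push Not at h
    rw [eval_eq', sum_eq_single e₀ (fun e he hne => absurd (h e he) hne)
      (fun h => absurd h₀ h), he, one_mul] at hzw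
    exact prod_ne_zero_iff.2 (fun i _ => pow_ne_zero _ (hz i)) hzw
  obtain ⟨e₁, h₁, hne⟩ := hex
  by_cases hcol : ∀ e ∈ w.support, ((e₁ 0 : ℤ) - e₀ 0) * ((e 1 : ℤ) - e₀ 1) -
      ((e₁ 1 : ℤ) - e₀ 1) * ((e 0 : ℤ) - e₀ 0) = 0
  · right
    obtain ⟨a, b, hab, hS⟩ := collinear h₀ hne hcol
    have hS' : ∀ v : MvPolynomial (Fin 2) F, ∃ S : Finset F, v.support = w.support →
        S.card ≤ 2 * w.totalDegree ∧
        ∀ z : Fin 2 → F, (∀ i, z i ≠ 0) → eval z v = 0 → z 0 ^ a * z 1 ^ b ∈ S := fun v => by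
      by_cases h : v.support = w.support
      · obtain ⟨S, hS⟩ := hS v h
        exact ⟨S, fun _ => hS⟩
      · exact ⟨∅, fun h' => absurd h' h⟩
    choose S hS' using hS'
    refine ⟨a, b, hab, I.biUnion S, ?_, fun σ => ?_⟩
    · refine card_biUnion_le.trans ((sum_le_card_nsmul _ _ (2 * w.totalDegree) fun v hv => ?_).trans
        ?_)
      · obtain ⟨σ, rfl⟩ := (hI v).1 hv
        exact (hS' _ (support_cj σ w)).1
      · rw [smul_eq_mul]; nlinarith
    · refine mem_biUnion.2 ⟨cj σ w, (hI _).2 ⟨σ, rfl⟩, ?_⟩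
      have := (hS' _ (support_cj σ w)).2 (fun i => σ (z i))
        (fun i => (map_ne_zero σ).2 (hz i)) (by rw [eval_cj, hzw, map_zero])
      simpa using this
  · left
    push Not at hcol
    obtain ⟨e₂, h₂, hΔ0⟩ := hcol
    set Δ : ℤ := ((e₁ 0 : ℤ) - e₀ 0) * ((e₂ 1 : ℤ) - e₀ 1) -
      ((e₁ 1 : ℤ) - e₀ 1) * ((e₂ 0 : ℤ) - e₀ 0) with hΔ
    have hdeg : ∀ e ∈ w.support, e 0 + e 1 ≤ L := fun e he =>
      mem_Sx.1 (mem_Sx_of_mem_support hδL he)
    have hΔb : Δ.natAbs ≤ 2 * L ^ 2 := by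
      have d0 := hdeg _ h₀
      have d1 := hdeg _ h₁
      have d2 := hdeg _ h₂
      have a1 : |((e₁ 0 : ℤ) - e₀ 0)| ≤ L := abs_le.2 ⟨by omega, by omega⟩
      have a2 : |((e₂ 1 : ℤ) - e₀ 1)| ≤ L := abs_le.2 ⟨by omega, by omega⟩
      have a3 : |((e₁ 1 : ℤ) - e₀ 1)| ≤ L := abs_le.2 ⟨by omega, by omega⟩
      have a4 : |((e₂ 0 : ℤ) - e₀ 0)| ≤ L := abs_le.2 ⟨by omega, by omega⟩
      have : |Δ| ≤ 2 * (L : ℤ) ^ 2 := by
        refine (abs_sub _ _).trans ?_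
        rw [abs_mul, abs_mul]
        have b1 := mul_le_mul a1 a2 (abs_nonneg _) (by positivity)
        have b2 := mul_le_mul a3 a4 (abs_nonneg _) (by positivity)
        nlinarith
      rw [← Int.natCast_natAbs] at this
      exact_mod_cast this
    have hex : ∃ q ∈ Q, ∀ ζ : Fin 2 → F, (∀ i, ζ i ^ q = 1) → (∃ σ, sc ζ w ∣ cj σ w) → ζ = 1 := by
      by_contra h
      push Not at h
      obtain ⟨Z, hZc, hZ⟩ := exists_many (w := w) Q hQ fun q hq => by
        obtain ⟨ζ, k1, k2, k3⟩ := h q hq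
        exact ⟨ζ, k3, k1, k2⟩
      have hZ' : ∀ ζ : Fin 2 → F, ∃ σ : F ≃+* F, ζ ∈ Z → sc ζ w ∣ cj σ w := fun ζ => by
        by_cases hζ : ζ ∈ Z
        · obtain ⟨σ, hσ⟩ := (hZ ζ hζ).2
          exact ⟨σ, fun _ => hσ⟩
        · exact ⟨1, fun h => absurd h hζ⟩
      choose τ hτ using hZ'
      have hN : (∏ q ∈ Q, q) ≠ 0 := prod_ne_zero_iff.2 fun q hq => (hQ q hq).ne_zero
      have k1 := card_le_mul_card_image (f := fun ζ => cj (τ ζ) w) Z (Δ.natAbs ^ 2) (fun v hv => by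
        obtain ⟨ξ, -, rfl⟩ := mem_image.1 hv
        refine card_fibre_le hw (irreducible_cj (τ ξ) hw) h₀ h₁ h₂ hΔ hΔ0 _ fun ζ hζ => ?_
        obtain ⟨m1, m2⟩ := mem_filter.1 hζ
        refine ⟨fun i hi => ?_, m2 ▸ hτ ζ m1⟩
        have := (hZ ζ m1).1 i
        rw [hi, zero_pow hN] at this
        exact zero_ne_one this)
      have k2 : (Z.image fun ζ => cj (τ ζ) w).card ≤ I.card :=
        card_le_card fun v hv => by
          obtain ⟨ξ, -, rfl⟩ := mem_image.1 hv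
          exact (hI _).2 ⟨_, rfl⟩
      have k3 : Δ.natAbs ^ 2 ≤ (2 * L ^ 2) ^ 2 := Nat.pow_le_pow_left hΔb 2
      have k4 : Z.card ≤ (2 * L ^ 2) ^ 2 * L := k1.trans (Nat.mul_le_mul k3 (k2.trans hIL))
      rw [hZc] at k4
      have : (2 * L ^ 2) ^ 2 * L = 4 * L ^ 5 := by ring
      omega
    obtain ⟨q, hq, hgood⟩ := hex
    have hne0 : ∀ v ∈ I, v ≠ 0 := fun v hv => by
      obtain ⟨σ, rfl⟩ := (hI v).1 hv
      exact (irreducible_cj σ hw).ne_zero
    refine ⟨q, hq, ∏ v ∈ I, v, prod_ne_zero_iff.2 hne0, ?_, fun σ => ?_⟩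
    · rw [totalDegree_prod_eq I (fun v => v) hne0,
        sum_congr rfl (g := fun _ => w.totalDegree) (fun v hv => by
          obtain ⟨σ, rfl⟩ := (hI v).1 hv; exact totalDegree_cj σ w), sum_const, smul_eq_mul]
      exact (good_prime hw he hG hinv (hQ q hq).pos (hdq q hq) hgood I hI).trans hL
    · rw [map_prod]
      exact prod_eq_zero ((hI _).2 ⟨σ, rfl⟩) (by rw [eval_cj, hzw, map_zero])

/-- the zero estimate -/
theorem zero_lemma [IsAlgClosed F] [CharZero F] {G : MvPolynomial (Fin 2) F}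
    (hG : G ≠ 0) (hinv : ∀ σ, cj σ G = G) {L : ℕ} (hL : G.totalDegree ≤ L)
    (Q : Finset ℕ) (hQ : ∀ q ∈ Q, q.Prime) {q₁ : ℕ} (hq₁ : ∀ q ∈ Q, q ≤ q₁)
    (hbig : 4 * L ^ 5 < 2 ^ Q.card) (Z : Finset (Fin 2 → F)) (hZ0 : ∀ z ∈ Z, ∀ i, z i ≠ 0)
    (hZ : ∀ z ∈ Z, eval z G = 0) (hZq : ∀ z ∈ Z, ∀ q ∈ Q, eval (fun i => z i ^ q) G = 0) :
    Z.card ≤ q₁ * L ^ 2 ∨ ∃ z ∈ Z,
      (∃ q ∈ Q, ∃ W : MvPolynomial (Fin 2) F, W ≠ 0 ∧ q * W.totalDegree ≤ L ∧
        ∀ σ : F ≃+* F, eval (fun i => σ (z i)) W = 0) ∨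
      (∃ a b : ℤ, (a ≠ 0 ∨ b ≠ 0) ∧ ∃ S : Finset F, S.card ≤ 2 * L ∧
        ∀ σ : F ≃+* F, σ (z 0 ^ a * z 1 ^ b) ∈ S) := by
  classical
  by_cases h : ∃ w, Irreducible w ∧ w ∣ G ∧ (∀ q ∈ Q, w ∣ expand q G) ∧ ∃ z ∈ Z, eval z w = 0
  · obtain ⟨w, hw, hd, hdq, z, hz, hzw⟩ := h
    exact Or.inr ⟨z, hz, case_one hw hG hinv hL hd Q hQ hdq hbig (hZ0 z hz) hzw⟩
  left
  push Not at h
  set s := UniqueFactorizationMonoid.factors G with hs
  have hirr : ∀ w ∈ s.toFinset, Irreducible w := fun w hw =>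
    UniqueFactorizationMonoid.irreducible_of_factor w (Multiset.mem_toFinset.1 hw)
  have hass : Associated s.prod G := UniqueFactorizationMonoid.factors_prod hG
  have hsum : ∑ w ∈ s.toFinset, w.totalDegree ≤ L := by
    rw [← totalDegree_prod_eq s.toFinset (fun w => w) fun w hw => (hirr w hw).ne_zero]
    exact (totalDegree_le_of_dvd_of_isDomain ((Multiset.toFinset_prod_dvd_prod s).trans hass.dvd)
      hG).trans hL
  have hcov : Z ⊆ s.toFinset.biUnion fun w => Z.filter fun z => eval z w = 0 := by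
    intro z hz
    have h1 : eval z s.prod = 0 := by
      obtain ⟨c, hc⟩ := hass.symm.dvd
      rw [hc, map_mul, hZ z hz, zero_mul]
    rw [map_multiset_prod, Multiset.prod_eq_zero_iff, Multiset.mem_map] at h1
    obtain ⟨w, hw, hw0⟩ := h1
    exact mem_biUnion.2 ⟨w, Multiset.mem_toFinset.2 hw, mem_filter.2 ⟨hz, hw0⟩⟩
  refine (card_le_card hcov).trans (card_biUnion_le.trans ?_)
  calc ∑ w ∈ s.toFinset, (Z.filter fun z => eval z w = 0).card
      ≤ ∑ w ∈ s.toFinset, w.totalDegree * (q₁ * L) := by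
        refine sum_le_sum fun w hw => ?_
        have hd : w ∣ G := (Multiset.dvd_prod (Multiset.mem_toFinset.1 hw)).trans hass.dvd
        by_cases hq : ∀ q ∈ Q, w ∣ expand q G
        · rw [filter_eq_empty_iff.2 (h w (hirr w hw) hd hq)]
          simp
        · push Not at hq
          obtain ⟨q, hq, hnd⟩ := hq
          refine (bezout (hirr w hw) hnd _ fun z hz => ?_).trans ?_
          · obtain ⟨k1, k2⟩ := mem_filter.1 hz
            exact ⟨k2, by rw [eval_expand]; exact hZq z k1 q hq⟩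
          · rw [totalDegree_expand, mul_comm G.totalDegree]
            exact Nat.mul_le_mul_left _ (Nat.mul_le_mul (hq₁ q hq) hL)
    _ ≤ L * (q₁ * L) := by rw [← sum_mul]; exact Nat.mul_le_mul_right _ hsum
    _ = q₁ * L ^ 2 := by ring

end Pool.Agent.Lib.MP_162bbe_gt
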