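import Pool.Agent.Lib.MP_162bbe_gt.Step
import Pool.Agent.Lib.MP_162bbe_gt.Zero2

set_option autoImplicit false

/-! The transcendence argument, with all parameters left as hypotheses. -/

namespace Pool.Agent.Lib.MP_162bbe_gt

open MvPolynomial Finset NumberField

variable {N : Type*} [Field N] [NumberField N] [IsGalois ℚ N]

omit [IsGalois ℚ N] in
lemma eval_of_van {Ω : Type*} [CommRing Ω] (ι : N →+* Ω) {x : Fin 2 → 𝓞 N} {g : N ≃ₐ[ℚ] N}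
    {m T : ℕ} (hT : 1 ≤ T) {F : MvPolynomial (Fin 2) ℤ}
    (h : Van (fun l => g • x l ^ m) T (map (Int.castRingHom (𝓞 N)) F)) :
    eval (fun l => ι (g (x l) ^ m)) (map (Int.castRingHom Ω) F) = 0 := by
  have h1 := map_coeff_Sh (ι.comp (algebraMap (𝓞 N) N)) (fun l => g • x l ^ m) F 0
  rw [h 0 (by simp only [Finsupp.coe_zero, Pi.zero_apply]; omega), map_zero, coeff_zero_Sh] at h1
  rw [h1]
  congr 2
  funext l
  rw [smul_pow']
  simp only [map_pow, RingHom.comp_apply]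
  rfl

omit [IsGalois ℚ N] in
lemma exists_lift (g : N ≃ₐ[ℚ] N) : ∃ σ : AlgebraicClosure N ≃+* AlgebraicClosure N,
    ∀ a, σ (algebraMap N _ a) = algebraMap N _ (g a) := by
  have : IsAlgClosure ℚ (AlgebraicClosure N) := IsAlgClosure.ofAlgebraic ℚ N _
  exact ⟨(g.liftNormal (AlgebraicClosure N)).toRingEquiv, fun a => g.liftNormal_commutes _ a⟩

theorem core_param (j : N →+* ℂ) {P : Polynomial ℤ} (hP : P.Monic) {x : Fin 2 → 𝓞 N}
    (hx : ∀ l, Polynomial.aeval (x l) P = 0) (hδ : dd P x ≠ 0) (hx0 : ∀ l, (x l : N) ≠ 0)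
    {n s D k T₀ T₁ κ p₁ q₁ : ℕ} {H : ℝ} (hH0 : 0 ≤ H) (hn : 3 ≤ n) (hs1 : 1 ≤ s) (hk : 1 ≤ k)
    (hbad : ∀ l, n * #(bad j (x l : N)) ≤ s * Fintype.card (N ≃ₐ[ℚ] N))
    (hoff : ∀ l, #(offc j (x l : N)) ≤ s)
    (h0 : ∃ g : N ≃ₐ[ℚ] N, ‖j (g (x 0))‖ ≠ 1 ∧ ‖j (g (x 1))‖ = 1)
    (h1 : ∃ g : N ≃ₐ[ℚ] N, ‖j (g (x 1))‖ ≠ 1) (h2 : ∃ g : N ≃ₐ[ℚ] N, 1 < ‖j (g (x 0))‖)
    (hH : ∀ (g : N ≃ₐ[ℚ] N) l, ‖j (g (x l))‖ ≤ Real.exp H)
    (hD : #(orb (fun l => (x l : N)) 1) ≤ D) (hT₁ : 1 ≤ T₁) (hT₀ : 1 ≤ T₀)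
    (hκ : κ = 10 * T₀ * (T₀ + 5)) (A B : Finset ℕ)
    (hA : ∀ p ∈ A, p.Prime ∧ ¬ p ^ Fintype.card (N ≃ₐ[ℚ] N) ∣ nrm (dd P x) ^ 4 ∧ p ≤ p₁ ∧
      n ^ (2 * T₁ + 8) < p ^ (T₀ + 1 - T₁))
    (hB : ∀ q ∈ B, q.Prime ∧ ¬ q ^ Fintype.card (N ≃ₐ[ℚ] N) ∣ nrm (dd P x) ^ 4 ∧ q ≤ q₁ ∧
      n ^ 10 < q ^ T₁ ∧ κ ^ k * p₁ ^ (k - 1) < q ^ k)
    (hht : ∀ a : ℕ, a ^ (2 * (k - 1)) ≤ (2 * D) ^ k →
      2 * s * H * (κ * a * p₁ * q₁ : ℕ) ≤ n ∧ 4 * s * (κ * a) < n)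
    (hQ : 4 * n ^ 5 < 2 ^ #B) (hPc : 2 * s ^ 2 * κ ^ 2 * q₁ < #A) : False := by
  classical
  let Ω := AlgebraicClosure N
  let ι : N →+* Ω := algebraMap N Ω
  let y : Fin 2 → N := fun l => (x l : N)
  let Z : ℕ → Finset (Fin 2 → Ω) := fun m => (orb y m).image fun z l => ι (z l)
  have hinj : Function.Injective fun (z : Fin 2 → N) l => ι (z l) := fun z z' h =>
    funext fun l => ι.injective (congrFun h l)
  have hZc : ∀ m, #(Z m) = #(orb y m) := fun m => card_image_of_injective _ hinj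
  have hZm : ∀ m z, z ∈ Z m ↔ ∃ g : N ≃ₐ[ℚ] N, (fun l => ι (g (x l) ^ m)) = z := fun m z => by
    simp only [Z, mem_image, mem_orb]
    constructor
    · rintro ⟨_, ⟨g, rfl⟩, rfl⟩; exact ⟨g, rfl⟩
    · rintro ⟨g, rfl⟩; exact ⟨_, ⟨g, rfl⟩, rfl⟩
  obtain ⟨J, hJ⟩ : ∃ J : Ω →+* ℂ, ∀ a, J (ι a) = j a := by
    let _ : Algebra N ℂ := j.toAlgebra
    exact ⟨(IsAlgClosed.lift : Ω →ₐ[N] ℂ).toRingHom, fun a =>
      (IsAlgClosed.lift : Ω →ₐ[N] ℂ).commutes a⟩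
  have hlift : ∀ g : N ≃ₐ[ℚ] N, ∃ σ : Ω ≃+* Ω, ∀ a, σ (ι a) = ι (g a) := exists_lift
  obtain ⟨m, hm1, hmin⟩ : ∃ m, 1 ≤ m ∧ ∀ m', 1 ≤ m' →
      m ^ (k - 1) * obs (Z m) ^ k ≤ m' ^ (k - 1) * obs (Z m') ^ k := by
    obtain ⟨m, hm, hm'⟩ := Nat.sInf_mem (s := (fun m => m ^ (k - 1) * obs (Z m) ^ k) '' {m | 1 ≤ m})
      ⟨_, 1, le_refl 1, rfl⟩
    exact ⟨m, hm, fun m' h => hm'.trans_le (Nat.sInf_le ⟨m', h, rfl⟩)⟩
  set ω := obs (Z m) with hω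
  have hω1 : 1 ≤ ω := obs_pos (card_pos.1 (by rw [hZc]; exact card_orb_pos _ _))
  have hsq : ∀ m', obs (Z m') ^ 2 ≤ 2 * #(orb y 1) := fun m' =>
    (obs_sq_le _).trans (by rw [hZc]; exact Nat.mul_le_mul_left _ (card_orb_le _ _))
  obtain ⟨hh1, hh2⟩ := hht (m * ω) (by
    have e1 := hmin 1 le_rfl
    rw [one_pow, one_mul] at e1
    have e2 : (m * ω) ^ (k - 1) ≤ m ^ (k - 1) * ω ^ k := by
      rw [mul_pow]
      exact Nat.mul_le_mul_left _ (Nat.pow_le_pow_right hω1 (by omega))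
    calc (m * ω) ^ (2 * (k - 1)) = ((m * ω) ^ (k - 1)) ^ 2 := by rw [← pow_mul, mul_comm (k - 1)]
      _ ≤ (obs (Z 1) ^ k) ^ 2 := Nat.pow_le_pow_left (e2.trans e1) 2
      _ = (obs (Z 1) ^ 2) ^ k := by rw [← pow_mul, ← pow_mul, mul_comm]
      _ ≤ (2 * D) ^ k := Nat.pow_le_pow_left ((hsq 1).trans (Nat.mul_le_mul_left _ hD)) k)
  set L := κ * ω with hL
  have hLm : L ≤ κ * (m * ω) := Nat.mul_le_mul_left _ (Nat.le_mul_of_pos_left _ hm1)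
  have hLn' : 4 * s * L < n := lt_of_le_of_lt (Nat.mul_le_mul_left _ hLm) hh2
  have hLn : L ≤ n := by nlinarith
  obtain ⟨p₀, hp₀⟩ : A.Nonempty := card_pos.1 (by omega)
  obtain ⟨q₀, hq₀⟩ : B.Nonempty := by
    rw [nonempty_iff_ne_empty]
    rintro rfl
    have : 0 < n ^ 5 := by positivity
    simp only [card_empty, pow_zero] at hQ
    omega
  have hp₁ : 1 ≤ p₁ := (hA p₀ hp₀).1.pos.trans_le (hA p₀ hp₀).2.2.1
  have hq₁ : 1 ≤ q₁ := (hB q₀ hq₀).1.pos.trans_le (hB q₀ hq₀).2.2.1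
  have hE : ∀ a b, a ≤ p₁ → b ≤ q₁ →
      ∏ g, Mx j y g ^ (m * a * b * L) ≤ Real.exp 1 ^ Fintype.card (N ≃ₐ[ℚ] N) := by
    intro a b ha hb
    refine prod_Mx_le j hH0 (by omega) hbad hH (le_trans ?_ hh1)
    have : m * a * b * L ≤ κ * (m * ω) * p₁ * q₁ := by
      calc m * a * b * L ≤ m * p₁ * q₁ * L := by gcongr
        _ = _ := by rw [hL]; ring
    have : ((m * a * b * L : ℕ) : ℝ) ≤ (κ * (m * ω) * p₁ * q₁ : ℕ) := by exact_mod_cast this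
    gcongr
  obtain ⟨W₀, hW₀, hW₀d, hW₀z⟩ := obs_spec (Z m)
  obtain ⟨F, hF0, hFd, hFB, hFs⟩ := siegel (fun (g : N ≃ₐ[ℚ] N) l => j (g (x l)) ^ m)
    (fun g => Mx j y g ^ m) (fun g => one_le_pow₀ (one_le_Mx j y g))
    (fun g l => by
      rw [norm_pow]; exact pow_le_pow_left₀ (norm_nonneg _) (le_Mx j y g l) _)
    (F₀ := map J W₀) (fun h => hW₀ (map_injective J J.injective (by rw [h, map_zero])))
    (fun g => by
      have := congrArg J (hW₀z _ ((hZm m _).2 ⟨g, rfl⟩))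
      rw [map_zero, ← coeff_zero_Sh, ← coeff_map, map_Sh, coeff_zero_Sh] at this
      rw [← this]
      congr 2
      funext l
      rw [hJ, map_pow])
    (ω := ω) ((deg_map_le _ _).trans hW₀d) hω1 hT₀ (L := L) (by rw [hL, hκ]) hLn hn
  have V0 := van_of_small j x hFs (by simpa using hE 1 1 hp₁ hq₁)
  have V1 : ∀ p ∈ A, ∀ g : N ≃ₐ[ℚ] N,
      Van (fun l => g • x l ^ (m * p)) T₁ (map (Int.castRingHom (𝓞 N)) F) := fun p hp =>
    extrap j hP hx hδ hFd hLn hn hFB (hA p hp).1 (hA p hp).2.1 (hA p hp).2.2.2 V0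
      (by simpa using hE p 1 (hA p hp).2.2.1 hq₁)
  have V2 : ∀ p ∈ A, ∀ q ∈ B, ∀ g : N ≃ₐ[ℚ] N,
      Van (fun l => g • x l ^ (m * p * q)) 1 (map (Int.castRingHom (𝓞 N)) F) := fun p hp q hq =>
    extrap j hP hx hδ hFd hLn hn hFB (hB q hq).1 (hB q hq).2.1 (hB q hq).2.2.2.1 (V1 p hp)
      (hE p q (hA p hp).2.2.1 (hB q hq).2.2.1)
  have hmem : ∀ z ∈ A.biUnion fun p => Z (m * p), ∃ p ∈ A, ∃ g : N ≃ₐ[ℚ] N,
      (fun l => ι (g (x l) ^ (m * p))) = z := fun z hz => by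
    obtain ⟨p, hp, hz⟩ := mem_biUnion.1 hz
    exact ⟨p, hp, (hZm _ _).1 hz⟩
  have hG0 : map (Int.castRingHom Ω) F ≠ 0 := fun h =>
    hF0 (map_injective _ (Int.castRingHom Ω).injective_int (by rw [h, map_zero]))
  rcases zero_lemma hG0 (fun σ => by
      rw [cj, MvPolynomial.map_map, RingHom.ext_int (RingHom.comp _ _) (Int.castRingHom Ω)])
    ((deg_map_le _ _).trans hFd) B (fun q hq => (hB q hq).1) (fun q hq => (hB q hq).2.2.1)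
    (lt_of_le_of_lt (by gcongr) hQ) (A.biUnion fun p => Z (m * p))
    (fun z hz l => by
      obtain ⟨p, -, g, rfl⟩ := hmem z hz
      exact (map_ne_zero ι).2 (pow_ne_zero _ ((map_ne_zero g).2 (hx0 l))))
    (fun z hz => by
      obtain ⟨p, hp, g, rfl⟩ := hmem z hz
      exact eval_of_van ι hT₁ (V1 p hp g))
    (fun z hz q hq => by
      obtain ⟨p, hp, g, rfl⟩ := hmem z hz
      have := eval_of_van ι le_rfl (V2 p hp q hq g)
      simpa only [pow_mul, map_pow] using this) with h | ⟨z, hz, h | h⟩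
  · rw [card_biUnion (fun p _ p' _ hpp => (disjoint_image hinj).2 (orb_disjoint j h2
      (fun h => hpp (Nat.eq_of_mul_eq_mul_left hm1 h))))] at h
    have e1 : #A * #(orb y 1) ≤ s ^ 2 * ∑ p ∈ A, #(Z (m * p)) := by
      rw [mul_sum, ← smul_eq_mul]
      refine card_nsmul_le_sum _ _ _ fun p hp => ?_
      rw [hZc]
      refine card_orb_ge j hoff (fun l => ?_) (Nat.mul_pos hm1 (hA p hp).1.pos).ne'
      fin_cases l
      · exact ⟨h0.choose, h0.choose_spec.1⟩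
      · exact h1
    have e2 := hsq m
    have e3 := card_orb_pos y 1
    have e4 : #A * #(orb y 1) ≤ (2 * s ^ 2 * κ ^ 2 * q₁) * #(orb y 1) :=
      calc _ ≤ s ^ 2 * (q₁ * L ^ 2) := e1.trans (Nat.mul_le_mul_left _ h)
        _ = s ^ 2 * q₁ * κ ^ 2 * ω ^ 2 := by rw [hL]; ring
        _ ≤ s ^ 2 * q₁ * κ ^ 2 * (2 * #(orb y 1)) := Nat.mul_le_mul_left _ e2
        _ = _ := by ring
    exact absurd (Nat.le_of_mul_le_mul_right e4 e3) (not_le.2 hPc)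
  · obtain ⟨p, hp, g, rfl⟩ := hmem z hz
    obtain ⟨q, hq, W, hW0, hWd, hW⟩ := h
    have e1 : obs (Z (m * p)) ≤ W.totalDegree := obs_le hW0 fun z hz => by
      obtain ⟨g', rfl⟩ := (hZm _ _).1 hz
      obtain ⟨σ, hσ⟩ := hlift (g' * g⁻¹)
      rw [← hW σ]
      congr 2
      funext l
      rw [hσ]
      simp
    have e2 := hmin (m * p) (Nat.mul_pos hm1 (hA p hp).1.pos)
    rw [mul_pow, mul_assoc] at e2
    have e3 := Nat.le_of_mul_le_mul_left e2 (by positivity)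
    have e4 : q ^ k * ω ^ k ≤ (κ ^ k * p₁ ^ (k - 1)) * ω ^ k :=
      calc _ ≤ q ^ k * (p₁ ^ (k - 1) * W.totalDegree ^ k) := by
            refine Nat.mul_le_mul_left _ (e3.trans ?_)
            have := (hA p hp).2.2.1
            gcongr
        _ = p₁ ^ (k - 1) * (q * W.totalDegree) ^ k := by rw [mul_pow]; ring
        _ ≤ p₁ ^ (k - 1) * L ^ k := by gcongr
        _ = _ := by rw [hL, mul_pow]; ring
    exact absurd (Nat.le_of_mul_le_mul_right e4 (by positivity)) (not_le.2 (hB q hq).2.2.2.2)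
  · obtain ⟨p, hp, g, rfl⟩ := hmem z hz
    obtain ⟨a, b, hab, S, hSc, hS⟩ := h
    have hmp : ((m * p : ℕ) : ℤ) ≠ 0 := by exact_mod_cast (Nat.mul_pos hm1 (hA p hp).1.pos).ne'
    have e1 := le_of_values j (x := y) hbad h0 h1 (a := (m * p : ℕ) * a) (b := (m * p : ℕ) * b)
      (hab.imp (mul_ne_zero hmp) (mul_ne_zero hmp)) (S.preimage ι ι.injective.injOn) (fun g' => by
        obtain ⟨σ, hσ⟩ := hlift (g' * g⁻¹)
        rw [mem_preimage]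
        have := hS σ
        rw [← map_zpow₀, ← map_zpow₀, ← map_mul, hσ] at this
        simpa [zpow_mul, y, pow_mul] using this)
    have e2 : #(S.preimage ι ι.injective.injOn) ≤ #S :=
      card_le_card_of_injOn ι (fun a ha => mem_preimage.1 ha) ι.injective.injOn
    have : n ≤ 2 * s * (2 * L) := e1.trans (Nat.mul_le_mul_left _ (e2.trans hSc))
    nlinarith

end Pool.Agent.Lib.MP_162bbe_gt
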