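import Mathlib

set_option autoImplicit false

/-! Roots of conjugate polynomials over a number field. -/

namespace Pool.Agent.Lib.MP_162bbe_gt

open Finset NumberField Polynomial IntermediateField Module

lemma isIntegral_of_root {k L : Type*} [Field k] [Field L] (ι : k →+* L) {χ : k[X]}
    (hχ : χ.Monic) (hint : ∀ i, IsIntegral ℤ (χ.coeff i)) {θ : L} (hθ : eval₂ ι θ χ = 0) :
    IsIntegral ℤ θ := by
  obtain ⟨q, hq, -, hm⟩ := lifts_and_natDegree_eq_and_monic (f := algebraMap (𝓞 L) L)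
    (p := χ.map ι) ((lifts_iff_coeff_lifts _).2 fun i =>
      ⟨⟨ι (χ.coeff i), (hint i).map ι.toIntAlgHom⟩, (coeff_map _ _).symm⟩) (hχ.map _)
  refine isIntegral_trans (A := 𝓞 L) θ ⟨q, hm, ?_⟩
  rw [eval₂_eq_eval_map, hq, ← eval₂_eq_eval_map, hθ]

variable {k : Type} [Field k] [NumberField k]

/-- the minimal polynomial over `ℤ` of a root of a conjugate of `χ` -/
lemma exists_minpoly {χ : k[X]} (hχ : χ.Monic) (hint : ∀ i, IsIntegral ℤ (χ.coeff i))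
    (σ₀ : k →+* ℂ) {z : ℂ} (hz : eval₂ σ₀ z χ = 0) :
    ∃ P : ℤ[X], P.Monic ∧ Irreducible P ∧ aeval z P = 0 ∧
      (∀ w : ℂ, aeval w P = 0 → ∃ σ : k →+* ℂ, eval₂ σ w χ = 0) ∧
      (∀ σ : k →+* ℂ, ∃ μ : ℂ, aeval μ P = 0 ∧ eval₂ σ μ χ = 0) ∧
      (∀ T : Finset (k →+* ℂ), (∀ σ, eval₂ σ z χ = 0 → σ ∈ T) →
        finrank ℚ k ≤ #T * P.natDegree) ∧
      ((∀ w : ℂ, aeval w P = 0 → ‖w‖ = 1) → ∃ n, 0 < n ∧ z ^ n = 1) := by
  classical
  obtain ⟨f, hirr, hd, hfz⟩ : ∃ f : k[X], Irreducible f ∧ f ∣ χ ∧ eval₂ σ₀ z f = 0 := by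
    let _ : Algebra k ℂ := σ₀.toAlgebra
    exact ⟨minpoly k z, minpoly.irreducible ⟨χ, hχ, hz⟩, minpoly.dvd k z hz, minpoly.aeval k z⟩
  have : Fact (Irreducible f) := ⟨hirr⟩
  let L := AdjoinRoot f
  have : FiniteDimensional k L := (AdjoinRoot.powerBasis hirr.ne_zero).finite
  have : NumberField L := NumberField.of_module_finite k L
  let θ : L := AdjoinRoot.root f
  have hθχ : eval₂ (AdjoinRoot.of f) θ χ = 0 :=
    eval₂_eq_zero_of_dvd_of_eval₂_eq_zero _ _ hd (AdjoinRoot.eval₂_root f)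
  have hθ : IsIntegral ℤ θ := isIntegral_of_root _ hχ hint hθχ
  have hmin := minpoly.isIntegrallyClosed_eq_field_fractions' ℚ hθ
  have hφ : ∀ φ : L →+* ℂ, aeval (φ θ) (minpoly ℤ θ) = 0 := fun φ => by
    have := aeval_algHom_apply φ.toIntAlgHom θ (minpoly ℤ θ)
    rw [minpoly.aeval, map_zero] at this
    exact this
  have hφ' : ∀ φ : L →+* ℂ, eval₂ (φ.comp (AdjoinRoot.of f)) (φ θ) χ = 0 := fun φ => by
    rw [← hom_eval₂, hθχ, map_zero]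
  let φ₀ : L →+* ℂ := AdjoinRoot.lift σ₀ z hfz
  have h₀ : φ₀ θ = z := AdjoinRoot.lift_root hfz
  refine ⟨minpoly ℤ θ, minpoly.monic hθ, minpoly.irreducible hθ, h₀ ▸ hφ φ₀, fun w hw => ?_,
    fun σ => ?_, fun T hT => ?_, fun h => ?_⟩
  · obtain ⟨φ, rfl⟩ := (Embeddings.range_eval_eq_rootSet_minpoly L ℂ θ).symm.subset
      (mem_rootSet.2 ⟨minpoly.ne_zero hθ.tower_top, by
        rw [hmin, aeval_map_algebraMap]; exact hw⟩)
    exact ⟨_, hφ' φ⟩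
  · obtain ⟨μ, hμ⟩ := IsAlgClosed.exists_eval₂_eq_zero σ f (degree_pos_of_irreducible hirr).ne'
    refine ⟨μ, ?_, eval₂_eq_zero_of_dvd_of_eval₂_eq_zero _ _ hd hμ⟩
    have := hφ (AdjoinRoot.lift σ μ hμ)
    rwa [AdjoinRoot.lift_root hμ] at this
  · let _ : Algebra ℚ⟮θ⟯ ℂ := (φ₀.comp (algebraMap ℚ⟮θ⟯ L)).toAlgebra
    have e1 := AlgHom.card ℚ⟮θ⟯ L ℂ
    have e2 : Fintype.card (L →ₐ[ℚ⟮θ⟯] ℂ) ≤ #T := by
      have hψ : ∀ ψ : L →ₐ[ℚ⟮θ⟯] ℂ, ψ θ = z := fun ψ =>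
        (ψ.commutes (AdjoinSimple.gen ℚ θ)).trans h₀
      refine card_le_card_of_injOn (fun ψ => (ψ : L →+* ℂ).comp (AdjoinRoot.of f))
        (fun ψ _ => hT _ ?_) fun ψ _ ψ' _ h => ?_
      · rw [← hψ ψ]; exact hφ' ψ
      · exact AlgHom.coe_ringHom_injective
          (AdjoinRoot.ringHom_ext h ((hψ ψ).trans (hψ ψ').symm))
    have e3 := finrank_mul_finrank ℚ ℚ⟮θ⟯ L
    have e4 := finrank_mul_finrank ℚ k L
    rw [adjoin.finrank hθ.tower_top, hmin, (minpoly.monic hθ).natDegree_map] at e3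
    have e5 : 0 < finrank k L := finrank_pos
    calc finrank ℚ k ≤ finrank ℚ k * finrank k L := Nat.le_mul_of_pos_right _ e5
      _ = (minpoly ℤ θ).natDegree * finrank ℚ⟮θ⟯ L := e4.trans e3.symm
      _ ≤ _ := by rw [mul_comm, ← e1]; exact Nat.mul_le_mul_right _ e2
  · obtain ⟨n, hn, h⟩ := Embeddings.pow_eq_one_of_norm_eq_one L ℂ hθ fun φ => h _ (hφ φ)
    exact ⟨n, hn, by rw [← h₀, ← map_pow, h, map_one]⟩

omit [NumberField k] in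
lemma finrank_adjoin_le {F : IntermediateField ℚ ℂ} {χ : k[X]} (hχ : χ.Monic) (σ : k →+* ℂ)
    (hσ : ∀ a, σ a ∈ F) {z : ℂ} (hz : eval₂ σ z χ = 0) :
    FiniteDimensional F F⟮z⟯ ∧ finrank F F⟮z⟯ ≤ χ.natDegree := by
  let σ' : k →+* F := σ.codRestrict F hσ
  have h1 : aeval z (χ.map σ') = 0 := by rw [aeval_def, eval₂_map]; exact hz
  have h2 : IsIntegral F z := ⟨_, hχ.map σ', h1⟩
  refine ⟨adjoin.finiteDimensional h2, ?_⟩
  rw [adjoin.finrank h2]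
  exact (natDegree_le_natDegree (minpoly.min F z (hχ.map σ') h1)).trans natDegree_map_le

lemma finite_fieldRange (σ : k →+* ℂ) : FiniteDimensional ℚ σ.toRatAlgHom.fieldRange :=
  (AlgEquiv.ofInjectiveField σ.toRatAlgHom).toLinearEquiv.finiteDimensional

lemma exists_field {χ : k[X]} (hχ : χ.Monic) (σ τ : k →+* ℂ) {z w : ℂ} (hz : eval₂ σ z χ = 0)
    (hw : eval₂ τ w χ = 0) : ∃ (E : IntermediateField ℚ ℂ) (_ : FiniteDimensional ℚ E),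
      z ∈ E ∧ w ∈ E ∧ finrank ℚ E ≤
        χ.natDegree ^ 2 * finrank ℚ ↥(σ.toRatAlgHom.fieldRange ⊔ τ.toRatAlgHom.fieldRange) := by
  have := finite_fieldRange σ
  have := finite_fieldRange τ
  set F := σ.toRatAlgHom.fieldRange ⊔ τ.toRatAlgHom.fieldRange with hF
  obtain ⟨h1, h2⟩ := finrank_adjoin_le (F := F) hχ σ
    (fun a => (le_sup_left : _ ≤ F) ⟨a, rfl⟩) hz
  obtain ⟨h3, h4⟩ := finrank_adjoin_le (F := F) hχ τ
    (fun a => (le_sup_right : _ ≤ F) ⟨a, rfl⟩) hw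
  have h5 : FiniteDimensional ℚ ↥(F⟮z⟯ ⊔ F⟮w⟯) := Module.Finite.trans F _
  refine ⟨(F⟮z⟯ ⊔ F⟮w⟯).restrictScalars ℚ, h5,
    (le_sup_left : _ ≤ F⟮z⟯ ⊔ F⟮w⟯) (mem_adjoin_simple_self F z),
    (le_sup_right : _ ≤ F⟮z⟯ ⊔ F⟮w⟯) (mem_adjoin_simple_self F w), ?_⟩
  change finrank ℚ ↥(F⟮z⟯ ⊔ F⟮w⟯) ≤ _
  rw [← finrank_mul_finrank ℚ F ↥(F⟮z⟯ ⊔ F⟮w⟯), mul_comm, sq]
  exact Nat.mul_le_mul_right _ ((finrank_sup_le _ _).trans (Nat.mul_le_mul h2 h4))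

lemma finrank_fieldRange (σ : k →+* ℂ) : finrank ℚ σ.toRatAlgHom.fieldRange = finrank ℚ k :=
  (AlgEquiv.ofInjectiveField σ.toRatAlgHom).toLinearEquiv.finrank_eq.symm

omit [NumberField k] in
lemma exists_not_mem {r : ℕ} (S : Fin r → k →+* ℂ) {α : Type*} [Finite α] (f : α → k →+* ℂ)
    (hf : Function.Injective f) (h : r < Nat.card α) : ∃ a, f a ∉ Set.range S := by
  by_contra hc
  push Not at hc
  choose g hg using hc
  have := Nat.card_le_card_of_injective g fun a b hab => hf (by rw [← hg a, ← hg b, hab])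
  rw [Nat.card_eq_fintype_card (α := Fin r), Fintype.card_fin] at this
  omega

lemma aut_cond {r : ℕ} (S : Fin r → k →+* ℂ) (h : r < Nat.card (k ≃ₐ[ℚ] k)) (σ : k →+* ℂ) :
    ∃ τ ∉ Set.range S,
      finrank ℚ ↥(σ.toRatAlgHom.fieldRange ⊔ τ.toRatAlgHom.fieldRange) = finrank ℚ k := by
  obtain ⟨a, ha⟩ := exists_not_mem S (fun a : k ≃ₐ[ℚ] k => σ.comp (a : k →+* k))
    (fun a b hab => AlgEquiv.ext fun x => σ.injective (RingHom.congr_fun hab x)) h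
  refine ⟨_, ha, ?_⟩
  rw [sup_eq_left.2, finrank_fieldRange]
  rintro _ ⟨x, rfl⟩
  exact ⟨a x, rfl⟩

lemma subfield_cond {r : ℕ} (S : Fin r → k →+* ℂ) (k₀ : IntermediateField ℚ k)
    (h : r < finrank k₀ k) (σ : k →+* ℂ) : ∃ τ ∉ Set.range S,
      finrank ℚ ↥(σ.toRatAlgHom.fieldRange ⊔ τ.toRatAlgHom.fieldRange) ≤
        finrank k₀ k * finrank ℚ k := by
  let _ : Algebra k₀ ℂ := (σ.comp (algebraMap k₀ k)).toAlgebra
  obtain ⟨ψ, hψ⟩ := exists_not_mem S (fun a : k →ₐ[k₀] ℂ => (a : k →+* ℂ))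
    AlgHom.coe_ringHom_injective (by rwa [Nat.card_eq_fintype_card, AlgHom.card])
  refine ⟨_, hψ, ?_⟩
  let pb := Field.powerBasisOfFiniteOfSeparable k₀ k
  have := finite_fieldRange σ
  set F := σ.toRatAlgHom.fieldRange with hF
  obtain ⟨h1, h2⟩ := finrank_adjoin_le (F := F) (z := ψ pb.gen)
    ((minpoly.monic pb.isIntegral_gen).map (algebraMap k₀ k)) σ (fun a => ⟨a, rfl⟩) (by
      rw [eval₂_map]
      exact (aeval_algHom_apply ψ pb.gen _).trans (by rw [minpoly.aeval, map_zero]))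
  rw [(minpoly.monic pb.isIntegral_gen).natDegree_map, pb.natDegree_minpoly, ← pb.finrank] at h2
  have h5 : FiniteDimensional ℚ ↥(F⟮ψ pb.gen⟯) := Module.Finite.trans F _
  have h6 : FiniteDimensional ℚ ↥(F⟮ψ pb.gen⟯.restrictScalars ℚ) := h5
  have hFE : ∀ a ∈ F, a ∈ F⟮ψ pb.gen⟯ := fun a ha => F⟮ψ pb.gen⟯.algebraMap_mem ⟨a, ha⟩
  refine (IntermediateField.finrank_le_of_le_right (E := F⟮ψ pb.gen⟯.restrictScalars ℚ)
    (sup_le hFE ?_)).trans ?_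
  · rintro _ ⟨x, rfl⟩
    obtain ⟨f, rfl⟩ := pb.exists_eq_aeval' x
    change ψ (aeval pb.gen f) ∈ F⟮ψ pb.gen⟯
    rw [← aeval_algHom_apply, aeval_def, eval₂_eq_sum_range]
    exact sum_mem fun i _ => mul_mem (hFE _ ⟨_, rfl⟩) (pow_mem (mem_adjoin_simple_self F _) _)
  · change finrank ℚ ↥(F⟮ψ pb.gen⟯) ≤ _
    rw [← finrank_mul_finrank ℚ F ↥(F⟮ψ pb.gen⟯), mul_comm, finrank_fieldRange]
    exact Nat.mul_le_mul_right _ h2

end Pool.Agent.Lib.MP_162bbe_gt
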