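import Pool.Agent.Lib.MP_162bbe_gt.Step

set_option autoImplicit false

/-! Conjugates of a root of an irreducible polynomial; the discriminant bound. -/

namespace Pool.Agent.Lib.MP_162bbe_gt

open Finset NumberField Polynomial

lemma vander_bound {n : ℕ} (v : Fin n → ℂ) :
    ∏ i, ∏ k ∈ univ.erase i, ‖v i - v k‖ ≤ ((n : ℝ) ^ n * (∏ i, max 1 ‖v i‖) ^ n) ^ 2 := by
  have h1 : ∏ i, ∏ k ∈ univ.erase i, ‖v i - v k‖ = ‖(Matrix.vandermonde v).det‖ ^ 2 := by
    rw [Matrix.det_vandermonde, norm_prod, ← prod_pow]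
    simp only [norm_prod, ← prod_pow]
    have := prod_prod_Ioi_mul_eq_prod_prod_off_diag (fun k i : Fin n => ‖v i - v k‖)
    simp only [compl_eq_univ_sdiff, sdiff_singleton_eq_erase] at this
    rw [← this]
    refine prod_congr rfl fun i _ => prod_congr rfl fun k _ => ?_
    rw [norm_sub_rev (v i), sq]
  rw [h1]
  refine pow_le_pow_left₀ (norm_nonneg _) ?_ 2
  rw [Matrix.det_apply]
  refine (norm_sum_le _ _).trans ((sum_le_card_nsmul _ _ ((∏ i, max 1 ‖v i‖) ^ n)
    fun σ _ => ?_).trans ?_)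
  · have : ‖Equiv.Perm.sign σ • ∏ i, Matrix.vandermonde v (σ i) i‖ =
        ∏ i, ‖v (σ i)‖ ^ (i : ℕ) := by
      rcases Int.units_eq_one_or (Equiv.Perm.sign σ) with h | h <;> simp [h]
    rw [this, ← prod_pow, ← Equiv.prod_comp σ (fun i => max 1 ‖v i‖ ^ n)]
    exact prod_le_prod (fun _ _ => by positivity) fun i _ =>
      (pow_le_pow_left₀ (norm_nonneg _) (le_max_right _ _) _).trans
        (pow_le_pow_right₀ (le_max_left _ _) i.2.le)
  · rw [card_univ, Fintype.card_perm, Fintype.card_fin, nsmul_eq_mul]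
    have : (n.factorial : ℝ) ≤ (n : ℝ) ^ n := by exact_mod_cast Nat.factorial_le_pow n
    gcongr

variable {N : Type*} [Field N] [NumberField N] [IsGalois ℚ N]

open Classical in
/-- the conjugates of `y` -/
noncomputable def cnj (y : N) : Finset N := univ.image fun g : N ≃ₐ[ℚ] N => g y

section

variable {P : ℤ[X]} (hP : P.Monic) (hirr : Irreducible P) {y : N} (hy : aeval y P = 0)

include hP hirr hy

omit [IsGalois ℚ N] in
lemma minpoly_eq : minpoly ℚ y = P.map (algebraMap ℤ ℚ) :=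
  (minpoly.eq_of_irreducible_of_monic
    ((hP.irreducible_iff_irreducible_map_fraction_map (K := ℚ)).1 hirr)
    (by rw [aeval_map_algebraMap]; exact hy) (hP.map _)).symm

omit [IsGalois ℚ N] in
lemma map_minpoly : (minpoly ℚ y).map (algebraMap ℚ N) = P.map (algebraMap ℤ N) := by
  rw [minpoly_eq hP hirr hy, Polynomial.map_map]
  congr 1
  exact RingHom.ext_int _ _

lemma exists_aut {z : N} (hz : aeval z P = 0) : ∃ g : N ≃ₐ[ℚ] N, g y = z :=
  minpoly.exists_algEquiv_of_root' (Algebra.IsAlgebraic.isAlgebraic y) (by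
    rw [minpoly_eq hP hirr hy, aeval_map_algebraMap]; exact hz)

omit [IsGalois ℚ N] in
lemma sep_map : (P.map (algebraMap ℤ N)).Separable := by
  rw [← map_minpoly hP hirr hy]
  exact Polynomial.Separable.map (Algebra.IsSeparable.isSeparable ℚ y)

lemma cnj_val : (cnj y).val = (P.map (algebraMap ℤ N)).roots := by
  classical
  rw [Multiset.Nodup.ext (cnj y).nodup (nodup_roots (sep_map hP hirr hy))]
  intro z
  rw [mem_roots (hP.map _).ne_zero, IsRoot, eval_map_algebraMap, mem_val]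
  simp only [cnj, mem_image, mem_univ, true_and]
  constructor
  · rintro ⟨g, rfl⟩
    have := aeval_algHom_apply (g : N →+* N).toIntAlgHom y P
    rw [hy, map_zero] at this
    exact this
  · exact exists_aut hP hirr hy

lemma splits_map : (P.map (algebraMap ℤ N)).Splits := by
  rw [← map_minpoly hP hirr hy]
  exact Normal.splits inferInstance y

lemma card_cnj : #(cnj y) = P.natDegree := by
  rw [card_def, cnj_val hP hirr hy, ← (splits_map hP hirr hy).natDegree_eq_card_roots,
    hP.natDegree_map]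

lemma card_bad (j : N →+* ℂ) :
    P.natDegree * #(bad j y) = #(offc j y) * Fintype.card (N ≃ₐ[ℚ] N) := by
  classical
  have e1 := card_eq_fibre (fun g : N ≃ₐ[ℚ] N => g y) (fun h g g' hg => congrArg h hg) 1
  have e2 := card_filter_fibre (fun g : N ≃ₐ[ℚ] N => g y) (fun h g g' hg => congrArg h hg)
    (fun b => ‖j b‖ ≠ 1) 1
  have e3 := card_cnj hP hirr hy
  rw [cnj] at e3
  rw [e1, bad, e2, offc, e3]
  ring

lemma deriv_eq {z : N} (hz : z ∈ cnj y) [DecidableEq N] :
    aeval z (derivative P) = ∏ r ∈ (cnj y).erase z, (z - r) := by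
  have := (splits_map hP hirr hy).eval_root_derivative (hP.map _) (x := z)
    (by rw [← cnj_val hP hirr hy]; exact hz)
  rw [derivative_map, eval_map_algebraMap, ← cnj_val hP hirr hy] at this
  rw [this]
  rfl

lemma disc_bound (j : N →+* ℂ) {s : ℕ} (hs : #(offc j y) ≤ s) {H : ℝ} (hH0 : 0 ≤ H)
    (hH : ∀ g : N ≃ₐ[ℚ] N, ‖j (g y)‖ ≤ Real.exp H) :
    ∏ g : N ≃ₐ[ℚ] N, ‖j (g (aeval y (derivative P)))‖ ≤
      (P.natDegree * Real.exp (s * H)) ^ (2 * Fintype.card (N ≃ₐ[ℚ] N)) := by
  classical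
  have hc := card_cnj hP hirr hy
  set n := P.natDegree with hn
  have e0 : ∀ g : N ≃ₐ[ℚ] N, g (aeval y (derivative P)) = aeval (g y) (derivative P) := fun g =>
    (aeval_algHom_apply (g : N →+* N).toIntAlgHom y _).symm
  simp only [e0]
  have e1 := card_eq_fibre (fun g : N ≃ₐ[ℚ] N => g y) (fun h g g' hg => congrArg h hg) 1
  rw [prod_fibre (fun g : N ≃ₐ[ℚ] N => g y) (fun h g g' hg => congrArg h hg)
    (fun b => ‖j (aeval b (derivative P))‖) 1, e1, ← mul_assoc, pow_mul]
  refine pow_le_pow_left₀ (prod_nonneg fun _ _ => norm_nonneg _) ?_ _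
  change ∏ b ∈ cnj y, _ ≤ _ ^ (2 * #(cnj y))
  let e := (equivFinOfCardEq hc).symm
  have e2 : ∏ b ∈ cnj y, ‖j (aeval b (derivative P))‖ =
      ∏ i, ∏ k ∈ univ.erase i, ‖j (e i) - j (e k)‖ := by
    rw [← prod_coe_sort, ← Equiv.prod_comp e]
    refine prod_congr rfl fun i _ => ?_
    rw [deriv_eq hP hirr hy (e i).2, map_prod, norm_prod]
    symm
    refine prod_bij (fun k _ => (e k : N)) (fun k hk => mem_erase.2 ⟨fun h => (mem_erase.1 hk).1
      (e.injective (Subtype.ext h)), (e k).2⟩) (fun k _ k' _ h => e.injective (Subtype.ext h))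
      (fun r hr => ⟨e.symm ⟨r, mem_of_mem_erase hr⟩, mem_erase.2 ⟨fun h => (mem_erase.1 hr).1
        (by rw [← h]; simp), mem_univ _⟩, by simp⟩) fun k _ => by rw [map_sub]
  have e3 : ∏ i, max 1 ‖j (e i)‖ ≤ Real.exp (s * H) := by
    rw [Equiv.prod_comp e (fun b => max 1 ‖j b‖), prod_coe_sort (cnj y) (fun b => max 1 ‖j b‖),
      ← prod_subset (s₁ := offc j y) (s₂ := cnj y) (filter_subset _ _) (fun b hb hb' => ?_)]
    · refine (prod_le_prod (g := fun _ => Real.exp H) (fun _ _ => by positivity)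
        fun b hb => ?_).trans ?_
      · obtain ⟨g, -, rfl⟩ := mem_image.1 (mem_filter.1 hb).1
        exact max_le (Real.one_le_exp hH0) (hH g)
      · rw [Real.exp_nat_mul, prod_const]
        exact pow_le_pow_right₀ (Real.one_le_exp hH0) hs
    · have : ‖j b‖ = 1 := by
        by_contra h
        exact hb' (mem_filter.2 ⟨hb, h⟩)
      rw [this, max_self]
  rw [e2, hc]
  refine (vander_bound fun i => j (e i)).trans ?_
  rw [← mul_pow, ← pow_mul, mul_comm n 2]
  refine pow_le_pow_left₀ (by positivity) ?_ _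
  gcongr

end

end Pool.Agent.Lib.MP_162bbe_gt
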