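import Mathlib

set_option autoImplicit false

/-! Primary components of an endomorphism that is linear over a division algebra. -/

namespace Pool.Agent.Lib.MP_162bbe_gt

open Module Polynomial

variable {k V : Type*} [Field k] [AddCommGroup V] [Module k V] [FiniteDimensional k V]

lemma dv_charpoly_mul (φ : Module.End k V) {p q : Submodule k V} (h : IsCompl p q)
    (hp : ∀ x ∈ p, φ x ∈ p) (hq : ∀ x ∈ q, φ x ∈ q) :
    φ.charpoly = (φ.restrict hp).charpoly * (φ.restrict hq).charpoly := by
  let e := Submodule.prodEquivOfIsCompl p q h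
  have hψ : (φ.restrict hp).prodMap (φ.restrict hq) = e.symm.conj φ := by
    refine LinearMap.ext fun x => ?_
    rw [LinearEquiv.conj_apply_apply, LinearEquiv.symm_symm, LinearEquiv.eq_symm_apply]
    simp [e]
  rw [← e.symm.charpoly_conj φ, ← hψ, LinearMap.charpoly_prodMap]

lemma dv_root {L : Type*} [Field L] (e : k →+* L) (φ : Module.End k V) {p : k[X]}
    (hp : aeval φ p = 0) {z : L} (hz : eval₂ e z φ.charpoly = 0) : eval₂ e z p = 0 := by
  classical
  let _ : Algebra k L := e.toAlgebra
  let b := Module.finBasis k V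
  let A := LinearMap.toMatrixAlgEquiv b φ
  let ψ : Matrix (Fin (finrank k V)) (Fin (finrank k V)) k →ₐ[k]
    Matrix (Fin (finrank k V)) (Fin (finrank k V)) L := (Algebra.ofId k L).mapMatrix
  have h1 : z ∈ spectrum L (ψ A) := by
    rw [Matrix.mem_spectrum_iff_isRoot_charpoly, IsRoot]
    have : (ψ A).charpoly = φ.charpoly.map e := by
      rw [← LinearMap.charpoly_toMatrix φ b]
      exact Matrix.charpoly_map _ e
    rw [this, ← eval₂_eq_eval_map, hz]
  have h2 : aeval (ψ A) (p.map (algebraMap k L)) = 0 := by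
    rw [aeval_map_algebraMap, aeval_algHom_apply, aeval_algEquiv, AlgHom.comp_apply, hp, map_zero,
      map_zero]
  have h3 := spectrum.subset_polynomial_aeval (ψ A) (p.map (algebraMap k L)) ⟨z, h1, rfl⟩
  rw [h2] at h3
  by_contra h
  refine h3 ?_
  have h4 : eval z (p.map (algebraMap k L)) ≠ 0 := by rwa [← eval₂_eq_eval_map]
  rw [spectrum.mem_resolventSet_iff, sub_zero]
  exact (IsUnit.mk0 _ h4).map (algebraMap L (Matrix (Fin (finrank k V)) (Fin (finrank k V)) L))

omit [FiniteDimensional k V] in
lemma dv_restrict (φ : Module.End k V) (p : k[X])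
    (h : ∀ x ∈ LinearMap.ker (aeval φ p), φ x ∈ LinearMap.ker (aeval φ p)) :
    aeval (φ.restrict h) p = 0 := by
  have key : ∀ (q : k[X]) (x : LinearMap.ker (aeval φ p)),
      ((aeval (φ.restrict h) q x : LinearMap.ker (aeval φ p)) : V) = aeval φ q x := by
    intro q x
    induction q using Polynomial.induction_on' with
    | add a b ha hb => simp [ha, hb]
    | monomial n a =>
      have : (((φ.restrict h ^ n) x : LinearMap.ker (aeval φ p)) : V) = (φ ^ n) x := by
        induction n with
        | zero => rfl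
        | succ n ih => rw [pow_succ', pow_succ', Module.End.mul_apply, Module.End.mul_apply, ← ih]; rfl
      simp [aeval_monomial, this]
  ext x
  rw [key]
  exact x.2

omit [FiniteDimensional k V] in
lemma dv_ker_inv (φ : Module.End k V) (p : k[X]) :
    ∀ x ∈ LinearMap.ker (aeval φ p), φ x ∈ LinearMap.ker (aeval φ p) := by
  intro x hx
  rw [LinearMap.mem_ker] at hx ⊢
  have : aeval φ p * φ = φ * aeval φ p := by
    have h := congrArg (aeval φ) (mul_comm p X)
    rwa [map_mul, map_mul, aeval_X] at h
  rw [← Module.End.mul_apply, this, Module.End.mul_apply, hx, map_zero]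

/-- the factor of the characteristic polynomial attached to one irreducible polynomial has degree
divisible by the dimension of the division algebra -/
theorem dv_factor {D : Type*} [DivisionRing D] [Algebra k D] [Module D V] [IsScalarTower k D V]
    (δ : V →ₗ[D] V) {f : k[X]} (hf : Irreducible f) {L : Type*} [Field L] (e : k →+* L) {z : L}
    (hz : eval₂ e z f = 0) (hz' : eval₂ e z (δ.restrictScalars k).charpoly = 0) :
    ∃ χ₁ : k[X], χ₁.Monic ∧ χ₁ ∣ (δ.restrictScalars k).charpoly ∧ finrank k D ∣ χ₁.natDegree ∧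
      eval₂ e z χ₁ = 0 ∧ ∀ w, eval₂ e w χ₁ = 0 → eval₂ e w f = 0 := by
  obtain ⟨φ, hφ⟩ : ∃ φ : Module.End k V, φ = δ.restrictScalars k := ⟨_, rfl⟩
  rw [← hφ] at hz' ⊢
  obtain ⟨a, g, hg, hχ⟩ := WfDvdMonoid.max_power_factor φ.charpoly_monic.ne_zero hf
  have hco : IsCoprime (f ^ a) g := (hf.coprime_iff_not_dvd.2 hg).pow_left
  have hc : IsCompl (LinearMap.ker (aeval φ (f ^ a))) (LinearMap.ker (aeval φ g)) :=
    ⟨disjoint_ker_aeval_of_isCoprime φ hco, codisjoint_iff.2 (by
      rw [sup_ker_aeval_eq_ker_aeval_mul_of_coprime φ hco, ← hχ, φ.aeval_self_charpoly,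
        LinearMap.ker_zero])⟩
  have hmul := dv_charpoly_mul φ hc (dv_ker_inv φ _) (dv_ker_inv φ _)
  refine ⟨_, LinearMap.charpoly_monic _, ⟨_, hmul⟩, ?_, ?_, fun w hw => ?_⟩
  · have hsm : ∀ (q : k[X]) (d : D) (x : V), aeval φ q (d • x) = d • aeval φ q x := by
      intro q d x
      induction q using Polynomial.induction_on with
      | C a =>
        rw [aeval_C, Module.algebraMap_end_apply, Module.algebraMap_end_apply,
          ← algebraMap_smul D a, ← algebraMap_smul D a x, ← mul_smul, ← mul_smul, Algebra.commutes]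
      | add a b ha hb => simp only [map_add, LinearMap.add_apply, ha, hb, smul_add]
      | monomial n a h =>
        rw [pow_succ, ← mul_assoc, mul_comm, map_mul, aeval_X, Module.End.mul_apply,
          Module.End.mul_apply, h, hφ]
        exact δ.map_smul _ _
    let W : Submodule D V :=
      { carrier := LinearMap.ker (aeval φ (f ^ a))
        add_mem' := add_mem
        zero_mem' := zero_mem _
        smul_mem' := fun d x hx => by
          rw [SetLike.mem_coe, LinearMap.mem_ker] at hx ⊢
          rw [hsm, hx, smul_zero] }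
    rw [LinearMap.charpoly_natDegree]
    exact ⟨finrank D W, (finrank_mul_finrank k D W).symm⟩
  · rw [hmul, eval₂_mul, mul_eq_zero] at hz'
    refine hz'.resolve_right fun h => ?_
    have h1 := dv_root e _ (dv_restrict φ g _) h
    obtain ⟨u, v, huv⟩ := hf.coprime_iff_not_dvd.2 hg
    have h2 := congrArg (eval₂ e z) huv
    rw [eval₂_add, eval₂_mul, eval₂_mul, hz, h1, eval₂_one] at h2
    simp at h2
  · have h1 := dv_root e _ (dv_restrict φ (f ^ a) _) hw
    rw [eval₂_pow] at h1
    exact eq_zero_of_pow_eq_zero h1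

end Pool.Agent.Lib.MP_162bbe_gt
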