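import Pool.Agent.Lib.MP_162bbe_gt.TLat
import Pool.Agent.Lib.MP_162bbe_gt.DvLin

set_option autoImplicit false

/-! Short elements have many eigenvalues outside the unit disc. -/

namespace Pool.Agent.Lib.MP_162bbe_gt

open Finset MulAction Module Polynomial Pool.Agent.Lib.MP_f61260_nt

variable {k : Type} [Field k] [NumberField k]

lemma dv_min (e : k →+* Qb) (z : Qb) : ∃ f : k[X], Irreducible f ∧ eval₂ e z f = 0 ∧
    (∀ p : k[X], eval₂ e z p = 0 → f ∣ p) ∧
    ∀ w w', eval₂ e w f = 0 → eval₂ e w' f = 0 → ∃ g ∈ stabilizer GA e, g w = w' := by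
  let _ : Algebra k Qb := e.toAlgebra
  have _ : IsScalarTower ℚ k Qb := IsScalarTower.of_algebraMap_eq' (Subsingleton.elim _ _)
  have _ : Normal k Qb := Normal.tower_top_of_normal ℚ k Qb
  have hi : ∀ x : Qb, IsIntegral k x := fun x => (Algebra.IsAlgebraic.isAlgebraic x).isIntegral
  refine ⟨minpoly k z, minpoly.irreducible (hi z), minpoly.aeval k z, fun p hp => minpoly.dvd k z hp,
    fun w w' hw hw' => ?_⟩
  obtain ⟨g, hg⟩ := minpoly.exists_algEquiv_of_root (hi z).isAlgebraic (x := w) hw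
  obtain ⟨g', hg'⟩ := minpoly.exists_algEquiv_of_root' (hi z).isAlgebraic (x := w') hw'
  exact ⟨(g' * g).restrictScalars ℚ, mem_stab.2 fun x => (g' * g).commutes x, by
    change g' (g w) = w'
    rw [hg, hg']⟩

lemma dv_kron {z : Qb} (h0 : z ≠ 0) (hi : IsIntegral ℤ z) (h : ∀ g : GA, ‖(g z : ℂ)‖ ≤ 1) :
    ∃ n, 0 < n ∧ z ^ n = 1 := by
  have _ : FiniteDimensional ℚ (IntermediateField.adjoin ℚ {z}) :=
    IntermediateField.adjoin.finiteDimensional hi.tower_top
  have _ : NumberField (IntermediateField.adjoin ℚ {z}) := {}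
  obtain ⟨n, hn, h1⟩ := NumberField.Embeddings.pow_eq_one_of_norm_le_one
    (IntermediateField.adjoin ℚ {z}) ℂ (x := IntermediateField.AdjoinSimple.gen ℚ z)
    (fun h => h0 (congrArg Subtype.val h))
    ((isIntegral_algHom_iff (algebraMap (IntermediateField.adjoin ℚ {z}) Qb).toIntAlgHom
      Subtype.val_injective).1 hi) fun φ => by
      obtain ⟨g, hg⟩ := emb_trans (algebraMap (IntermediateField.adjoin ℚ {z}) Qb) (up φ)
      have : (g z : ℂ) = φ (IntermediateField.AdjoinSimple.gen ℚ z) :=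
        congrArg Subtype.val (RingHom.congr_fun hg (IntermediateField.AdjoinSimple.gen ℚ z))
      exact this ▸ h g
  exact ⟨n, hn, congrArg Subtype.val h1⟩

omit [NumberField k] in
lemma dv_count {e : k →+* Qb} {f χ : k[X]} (hχ : χ.Monic) (hsub : ∀ w, eval₂ e w χ = 0 → eval₂ e w f = 0)
    (htr : ∀ w w', eval₂ e w f = 0 → eval₂ e w' f = 0 → ∃ g ∈ stabilizer GA e, g w = w')
    (h0 : ∀ w, eval₂ e w f = 0 → w ≠ 0) {z : Qb} (hz : eval₂ e z f = 0) (hz1 : 1 < ‖(z : ℂ)‖)
    (hdep : ∀ g ∈ stabilizer GA e, ∃ a b : ℤ, (a ≠ 0 ∨ b ≠ 0) ∧ z ^ a * g z ^ b = 1) :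
    ((χ.map e).roots.filter fun w : Qb => 1 < ‖(w : ℂ)‖).card = χ.natDegree ∨
      2 * ((χ.map e).roots.filter fun w : Qb => 1 < ‖(w : ℂ)‖).card = χ.natDegree := by
  classical
  let l : Qb → ℝ := fun w => Real.log ‖(w : ℂ)‖
  have hl : ∀ w, w ≠ 0 → (0 < l w ↔ 1 < ‖(w : ℂ)‖) := fun w _ => Real.log_pos_iff (norm_nonneg _)
  have hz0 := h0 z hz
  have hlz : 0 < l z := (hl z hz0).2 hz1
  have key : ∀ w, eval₂ e w f = 0 → ∀ h : GA, l (h w) * l z = l w * l (h z) := by
    intro w hw h
    obtain ⟨g, hg, rfl⟩ := htr z w hz hw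
    obtain ⟨a, b, hab, h1⟩ := hdep g hg
    have h2 : ∀ u : GA, a * l (u z) + b * l (u (g z)) = 0 := by
      intro u
      have h3 := congrArg (fun y => Real.log ‖algebraMap Qb ℂ (u y)‖) h1
      have n1 : ‖algebraMap Qb ℂ (u z)‖ ≠ 0 := by simpa using hz0
      have n2 : ‖algebraMap Qb ℂ (u (g z))‖ ≠ 0 := by simpa using hz0
      simp only [map_mul, map_zpow₀, norm_mul, norm_zpow, map_one, norm_one, Real.log_one] at h3
      rwa [Real.log_mul (zpow_ne_zero _ n1) (zpow_ne_zero _ n2), Real.log_zpow, Real.log_zpow] at h3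
    have e1 : a * l z + b * l (g z) = 0 := h2 1
    have e2 := h2 h
    rcases hab with h3 | h3
    · refine mul_left_cancel₀ (Int.cast_ne_zero (α := ℝ).2 h3) ?_
      linear_combination l (h (g z)) * e1 - l (g z) * e2
    · refine mul_left_cancel₀ (Int.cast_ne_zero (α := ℝ).2 h3) ?_
      linear_combination l z * e2 - l (h z) * e1
  have hroot : ∀ w ∈ (χ.map e).roots, eval₂ e w f = 0 := fun w hw =>
    hsub w ((mem_roots_map hχ.ne_zero).1 hw)
  have hcard : (χ.map e).roots.card = χ.natDegree := by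
    rw [IsAlgClosed.card_roots_eq_natDegree, natDegree_map]
  by_cases hall : ∀ w, eval₂ e w f = 0 → 1 < ‖(w : ℂ)‖
  · left
    rw [Multiset.filter_eq_self.2 fun w hw => hall w (hroot w hw), hcard]
  · right
    push Not at hall
    obtain ⟨v, hv, hv1⟩ := hall
    have hne : ∀ w, eval₂ e w f = 0 → l w ≠ 0 := by
      intro w hw hc
      obtain ⟨g, -, hg⟩ := htr w z hw hz
      have := key w hw g
      rw [hg, hc, zero_mul] at this
      exact (mul_pos hlz hlz).ne' this
    have hlv : l v < 0 := lt_of_le_of_ne (not_lt.1 fun h => absurd ((hl v (h0 v hv)).1 h)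
      (not_lt.2 hv1)) (hne v hv)
    obtain ⟨g, hg, hgv⟩ := htr z v hz hv
    have hinv : (χ.map e).roots.map g = (χ.map e).roots := by
      have := (IsAlgClosed.splits (χ.map e)).roots_map (g : Qb →+* Qb)
      rw [Polynomial.map_map, show (g : Qb →+* Qb).comp e = e from hg] at this
      exact this.symm
    have h1 : ((χ.map e).roots.filter fun w : Qb => 1 < ‖(w : ℂ)‖).card =
        ((χ.map e).roots.filter fun w : Qb => ¬ 1 < ‖(w : ℂ)‖).card := by
      conv_lhs => rw [← hinv, Multiset.filter_map, Multiset.card_map]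
      refine congrArg _ (Multiset.filter_congr fun w hw => ?_)
      have a1 := hroot w hw
      have a2 := key w a1 g
      rw [hgv] at a2
      rw [Function.comp_apply, ← hl _ ((_root_.map_ne_zero g).2 (h0 w a1)), ← hl w (h0 w a1)]
      constructor
      · intro a3 a4
        nlinarith [mul_pos a3 hlz, mul_neg_of_pos_of_neg a4 hlv]
      · intro a3
        have a4 : l w < 0 := lt_of_le_of_ne (not_lt.1 a3) (hne w a1)
        by_contra a5
        nlinarith [mul_pos_of_neg_of_neg a4 hlv, mul_nonpos_of_nonpos_of_nonneg (not_lt.1 a5) hlz.le]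
    have h2 := congrArg Multiset.card
      (Multiset.filter_add_not (fun w : Qb => 1 < ‖(w : ℂ)‖) (χ.map e).roots)
    rw [Multiset.card_add] at h2
    omega

theorem dv_main (M r : ℕ) : ∃ c : ℝ, 0 < c ∧
    ∀ (k : Type) [Field k] [NumberField k] (D : Type) [DivisionRing D] [Algebra k D]
      (V : Type) [AddCommGroup V] [Module D V] [Module k V] [IsScalarTower k D V]
      [FiniteDimensional k V] (S : Fin r → k →+* ℂ) (δ : V →ₗ[D] V) (χ : k[X]) (t : ℝ),
      χ = (δ.restrictScalars k).charpoly → χ.natDegree = M → (∀ n, IsIntegral ℤ (χ.coeff n)) →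
      (∀ σ : k →+* ℂ, σ ∉ Set.range S → ∀ z ∈ (χ.map σ).roots, ‖z‖ = 1) →
      (∀ i, ∀ z ∈ (χ.map (S i)).roots, z ≠ 0 ∧ ‖z‖ ≤ Real.exp (c * t)) →
      (∀ i, 2 * ((χ.map (S i)).roots.filter fun z => 1 < ‖z‖).card < finrank k D ∨
        Odd (finrank k D) ∧ ((χ.map (S i)).roots.filter fun z => 1 < ‖z‖).card < finrank k D) →
      0 ≤ t → t ^ 3 ≤ finrank ℚ k →
      ∀ i, ∀ z ∈ (χ.map (S i)).roots, ∃ n, 0 < n ∧ z ^ n = 1 := by
  classical
  obtain ⟨c₀, hc₀, κ, hAD⟩ := exists_AD 3
  obtain ⟨C₁, hC₁, hsm⟩ := small_t κ 2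
  obtain ⟨c, hc, hcc⟩ := small_c hc₀ κ r M 2 C₁
  refine ⟨c, hc, fun k _ _ D _ _ V _ _ _ _ _ S δ χ t hχ hM hint hcirc hS hcnt ht htd => ?_⟩
  have hm : χ.Monic := hχ ▸ LinearMap.charpoly_monic _
  have hd : (1 : ℝ) ≤ finrank ℚ k := by exact_mod_cast finrank_pos
  have hT : ∀ e : k →+* Qb, e ∈ univ.image (fun i => up (S i)) ↔ dn e ∈ Set.range S := fun e => by
    rw [mem_image]
    exact ⟨fun ⟨i, _, h⟩ => ⟨i, congrArg dn h⟩, fun ⟨i, h⟩ => ⟨i, mem_univ _, dn_inj h⟩⟩
  have hrt : ∀ (e : k →+* Qb) (w : Qb), eval₂ e w χ = 0 → (w : ℂ) ∈ (χ.map (dn e)).roots := by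
    intro e w hw
    rw [mem_roots_map hm.ne_zero, eval_dn, hw]; rfl
  have hg : ∀ (e : k →+* Qb) (w : Qb) (g : GA), eval₂ e w χ = 0 → eval₂ (g • e) (g w) χ = 0 := by
    intro e w g hw
    rw [eval_smul, hw, map_zero]
  have hne : ∀ (e : k →+* Qb) (w : Qb), eval₂ e w χ = 0 → w ≠ 0 := by
    intro e w hw h0
    by_cases h : dn e ∈ Set.range S
    · obtain ⟨i, hi⟩ := h
      exact (hS i _ (hi ▸ hrt e w hw)).1 (congrArg Subtype.val h0)
    · have := hcirc _ h _ (hrt e w hw)
      rw [h0] at this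
      simp at this
  have hle : ∀ (e : k →+* Qb) (w : Qb), eval₂ e w χ = 0 → ‖(w : ℂ)‖ ≤ 1 := by
    intro e z hz
    by_contra hz1
    rw [not_le] at hz1
    have he : dn e ∈ Set.range S := by_contra fun h => hz1.ne' (hcirc _ h _ (hrt e z hz))
    obtain ⟨f, hf, hfz, hfd, htr⟩ := dv_min e z
    obtain ⟨χ₁, m1, m2, ⟨w, m3⟩, m4, m5⟩ := dv_factor δ hf e hfz (hχ ▸ hz)
    rw [← hχ] at m2
    have hcount := dv_count m1 m5 htr
      (fun w hw => hne e w (eval₂_eq_zero_of_dvd_of_eval₂_eq_zero _ _ (hfd χ hz) hw)) hfz hz1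
      fun g hgs => by
        by_contra hcon
        push Not at hcon
        have h2 := core_bound (hAD 2 (by omega)) hm (T := univ.image fun i => up (S i))
          (r := r) (card_image_le.trans (by simp)) hz (hne e z hz) (isIntegral_of_root e hm hint hz)
          (s := c * t) (by positivity)
          (fun u hu => hcirc _ (fun h => hu ((hT _).2 h)) _ (hrt _ _ (hg e z u hz)))
          (fun u hu => by
            obtain ⟨i, hi⟩ := (hT _).1 hu
            exact (hS i _ (hi ▸ hrt _ _ (hg e z u hz))).2) ![1, g]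
          (fun n hn => by
            rw [Fin.prod_univ_two] at hn
            by_contra hn0
            refine hcon (n 0) (n 1) ?_ hn
            by_contra h3
            push Not at h3
            exact hn0 (funext fun a => by fin_cases a; exacts [h3.1, h3.2]))
          (V := stabilizer GA e) (orb_top e).idx fun σ hσ a => by
            have : ((![1, g] a)⁻¹ * σ * ![1, g] a) ∈ stabilizer GA e := by
              have : ![1, g] a ∈ stabilizer GA e := by fin_cases a; exacts [one_mem _, hgs]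
              exact mul_mem (mul_mem (inv_mem this) hσ) this
            rw [mem_stabilizer_iff.1 this]
            exact (hT e).2 he
        rw [hM] at h2
        refine absurd h2 (not_le.2 (hcc _ t _ 2 hd ht (by positivity)
          (hM ▸ idx_pos (idx_root hm hz)) (by omega) le_rfl ?_))
        exact (mul_le_mul_of_nonneg_left (hsm _ t hd ht htd 2 le_rfl) (by positivity)).trans
          (le_of_eq (by ring))
    obtain ⟨i, hi⟩ := he
    have h1 : ((χ₁.map e).roots.filter fun w : Qb => 1 < ‖(w : ℂ)‖).card ≤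
        ((χ.map (S i)).roots.filter fun z => 1 < ‖z‖).card := by
      have a1 := (IsAlgClosed.splits (χ.map e)).roots_map (algebraMap Qb ℂ)
      rw [Polynomial.map_map, show (algebraMap Qb ℂ).comp e = S i from hi.symm] at a1
      rw [a1, Multiset.filter_map, Multiset.card_map]
      exact Multiset.card_le_card (Multiset.filter_le_filter _
        (roots.le_of_dvd (hm.map e).ne_zero (Polynomial.map_dvd e m2)))
    have hw : w ≠ 0 := by
      rintro rfl
      rw [mul_zero, m1.natDegree_eq_zero] at m3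
      rw [m3, eval₂_one] at m4
      exact one_ne_zero m4
    have h2 : finrank k D ≤ χ₁.natDegree := m3 ▸ Nat.le_mul_of_pos_right _ (by omega)
    rcases hcnt i with h3 | ⟨h3, h4⟩
    · omega
    · rcases hcount with h5 | h5
      · omega
      · have h6 : Even w := by
          have : Even (finrank k D * w) := ⟨_, by rw [← m3, ← h5, two_mul]⟩
          exact (Nat.even_mul.1 this).resolve_left (Nat.not_even_iff_odd.2 h3)
        have h7 : finrank k D * 2 ≤ χ₁.natDegree :=
          m3 ▸ Nat.mul_le_mul_left _ (by obtain ⟨u, hu⟩ := h6; omega)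
        omega
  intro i w hw
  rw [mem_roots_map hm.ne_zero] at hw
  have hwi := isIntegral_of_root _ hm hint hw
  let z : Qb := ⟨w, mem_algebraicClosure_iff'.2 hwi.tower_top⟩
  have hz : eval₂ (up (S i)) z χ = 0 := Subtype.ext ((eval_dn (up (S i)) _ z).symm.trans hw)
  obtain ⟨n, hn, h⟩ := dv_kron (hne _ z hz) (isIntegral_of_root _ hm hint hz)
    fun g => hle _ _ (hg _ z g hz)
  exact ⟨n, hn, congrArg Subtype.val h⟩

end Pool.Agent.Lib.MP_162bbe_gt
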