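import Pool.Agent.Lib.MP_162bbe_gt.Poly

set_option autoImplicit false

/-! Counting conjugates. -/

namespace Pool.Agent.Lib.MP_162bbe_gt

open Finset

section Fibre

variable {G X : Type*} [Group G] [Fintype G] [DecidableEq X] (ψ : G → X)
  (hψ : ∀ h g g', ψ g = ψ g' → ψ (h * g) = ψ (h * g'))

include hψ

lemma fibre_card (g₀ g₁ : G) : #{g | ψ g = ψ g₀} = #{g | ψ g = ψ g₁} := by
  refine card_bij (fun g _ => g₁ * g₀⁻¹ * g) (fun g hg => ?_) (fun g _ g' _ h => by simpa using h)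
    (fun g hg => ⟨g₀ * g₁⁻¹ * g, ?_, by group⟩)
  · have := hψ (g₁ * g₀⁻¹) _ _ (mem_filter.1 hg).2
    simpa using this
  · have := hψ (g₀ * g₁⁻¹) _ _ (mem_filter.1 hg).2
    simpa using this

lemma prod_fibre {M : Type*} [CommMonoid M] (f : X → M) (g₀ : G) :
    ∏ g, f (ψ g) = (∏ b ∈ univ.image ψ, f b) ^ #{g | ψ g = ψ g₀} := by
  rw [prod_comp, ← prod_pow]
  refine prod_congr rfl fun b hb => ?_
  obtain ⟨g, -, rfl⟩ := mem_image.1 hb
  rw [fibre_card ψ hψ g g₀]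

lemma card_filter_fibre (S : X → Prop) [DecidablePred S] (g₀ : G) :
    #{g | S (ψ g)} = #{b ∈ univ.image ψ | S b} * #{g | ψ g = ψ g₀} := by
  rw [card_eq_sum_card_fiberwise (f := ψ) (t := {b ∈ univ.image ψ | S b})
    (fun g hg => by simpa using hg), ← smul_eq_mul, ← sum_const]
  refine sum_congr rfl fun b hb => ?_
  obtain ⟨h1, h2⟩ := mem_filter.1 hb
  obtain ⟨g, -, rfl⟩ := mem_image.1 h1
  rw [← fibre_card ψ hψ g g₀]
  congr 1
  ext g'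
  simp only [mem_filter, mem_univ, true_and, and_iff_right_iff_imp]
  intro h; rwa [h]

lemma card_eq_fibre (g₀ : G) : Fintype.card G = #(univ.image ψ) * #{g | ψ g = ψ g₀} := by
  classical
  simpa using card_filter_fibre ψ hψ (fun _ => True) g₀

end Fibre

variable {N : Type*} [Field N] [NumberField N]

open Classical in
/-- the conjugates of `(x 0 ^ m, x 1 ^ m)` -/
noncomputable def orb (x : Fin 2 → N) (m : ℕ) : Finset (Fin 2 → N) :=
  univ.image fun (g : N ≃ₐ[ℚ] N) l => g (x l) ^ m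

open Classical in
/-- conjugates off the unit circle -/
noncomputable def offc (j : N →+* ℂ) (y : N) : Finset N :=
  {b ∈ univ.image fun g : N ≃ₐ[ℚ] N => g y | ‖j b‖ ≠ 1}

open Classical in
/-- automorphisms moving `y` off the unit circle -/
noncomputable def bad (j : N →+* ℂ) (y : N) : Finset (N ≃ₐ[ℚ] N) := {g | ‖j (g y)‖ ≠ 1}

lemma mem_orb {x : Fin 2 → N} {m : ℕ} {z : Fin 2 → N} :
    z ∈ orb x m ↔ ∃ g : N ≃ₐ[ℚ] N, (fun l => g (x l) ^ m) = z := by simp [orb]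

lemma mem_bad {j : N →+* ℂ} {y : N} {g : N ≃ₐ[ℚ] N} : g ∈ bad j y ↔ ‖j (g y)‖ ≠ 1 := by
  simp [bad]

lemma orb_eq_image [DecidableEq (Fin 2 → N)] (x : Fin 2 → N) (m : ℕ) :
    orb x m = (orb x 1).image fun z l => z l ^ m := by
  ext z
  simp only [mem_image, mem_orb, pow_one]
  constructor
  · rintro ⟨g, rfl⟩; exact ⟨_, ⟨g, rfl⟩, rfl⟩
  · rintro ⟨_, ⟨g, rfl⟩, rfl⟩; exact ⟨g, rfl⟩

lemma card_orb_le (x : Fin 2 → N) (m : ℕ) : #(orb x m) ≤ #(orb x 1) := by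
  classical
  rw [orb_eq_image x m]; exact card_image_le

lemma card_orb_pos (x : Fin 2 → N) (m : ℕ) : 0 < #(orb x m) :=
  card_pos.2 ⟨_, mem_orb.2 ⟨1, rfl⟩⟩

lemma card_orb_ge (j : N →+* ℂ) {x : Fin 2 → N} {s : ℕ} (hs : ∀ l, #(offc j (x l)) ≤ s)
    (hex : ∀ l, ∃ g : N ≃ₐ[ℚ] N, ‖j (g (x l))‖ ≠ 1) {m : ℕ} (hm : m ≠ 0) :
    #(orb x 1) ≤ s ^ 2 * #(orb x m) := by
  classical
  rw [orb_eq_image x m]
  refine card_le_mul_card_image _ _ fun w hw => ?_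
  obtain ⟨z₀, hz₀, rfl⟩ := mem_image.1 hw
  obtain ⟨g₀, rfl⟩ := mem_orb.1 hz₀
  choose h hh using hex
  refine le_trans (card_le_card_of_injOn (t := Fintype.piFinset fun l => offc j (x l))
    (fun z l => (h l * g₀⁻¹) (z l)) ?_ ?_) ?_
  · intro z hz
    obtain ⟨h1, h2⟩ := mem_filter.1 hz
    obtain ⟨g, rfl⟩ := mem_orb.1 h1
    simp only [mem_coe, Fintype.mem_piFinset, pow_one]
    intro l
    have h3 := congrArg (h l * g₀⁻¹) (congrFun h2 l)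
    simp only [pow_one, map_pow] at h3
    refine mem_filter.2 ⟨mem_image.2 ⟨h l * g₀⁻¹ * g, mem_univ _, rfl⟩, fun h4 => hh l ?_⟩
    have h5 := congrArg (fun y => ‖j y‖) h3
    simp only [map_pow, norm_pow, h4, one_pow] at h5
    have h6 : (h l * g₀⁻¹) (g₀ (x l)) = h l (x l) := by simp
    rw [h6] at h5
    exact (pow_eq_one_iff_of_nonneg (norm_nonneg _) hm).1 h5.symm
  · intro z _ z' _ hz
    funext l
    exact (h l * g₀⁻¹).injective (congrFun hz l)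
  · rw [Fintype.card_piFinset, Fin.prod_univ_two, sq]
    exact Nat.mul_le_mul (hs 0) (hs 1)

lemma orb_disjoint (j : N →+* ℂ) {x : Fin 2 → N} (hex : ∃ g : N ≃ₐ[ℚ] N, 1 < ‖j (g (x 0))‖)
    {m m' : ℕ} (hm : m ≠ m') : Disjoint (orb x m) (orb x m') := by
  wlog hlt : m < m' generalizing m m'
  · exact (this hm.symm (by omega)).symm
  obtain ⟨h, -, hh⟩ := exists_max_image univ (fun g : N ≃ₐ[ℚ] N => ‖j (g (x 0))‖) univ_nonempty
  obtain ⟨g₁, hg₁⟩ := hex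
  have h1 : 1 < ‖j (h (x 0))‖ := hg₁.trans_le (hh g₁ (mem_univ _))
  rw [disjoint_left]
  intro z hz hz'
  obtain ⟨g, rfl⟩ := mem_orb.1 hz
  obtain ⟨g', hg'⟩ := mem_orb.1 hz'
  have h2 := congrArg (fun y => ‖j ((h * g'⁻¹) y)‖) (congrFun hg' 0)
  have h6 : (h * g'⁻¹) (g' (x 0)) = h (x 0) := by simp
  simp only [map_pow, norm_pow, h6] at h2
  have h3 := pow_le_pow_left₀ (norm_nonneg _) (hh (h * g'⁻¹ * g) (mem_univ _)) m
  have h4 := pow_lt_pow_right₀ h1 hlt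
  rw [h2] at h4
  exact absurd h3 (not_le.2 h4)

lemma le_of_values (j : N →+* ℂ) {x : Fin 2 → N} {n s : ℕ}
    (hbad : ∀ l, n * #(bad j (x l)) ≤ s * Fintype.card (N ≃ₐ[ℚ] N))
    (h0 : ∃ g : N ≃ₐ[ℚ] N, ‖j (g (x 0))‖ ≠ 1 ∧ ‖j (g (x 1))‖ = 1)
    (h1 : ∃ g : N ≃ₐ[ℚ] N, ‖j (g (x 1))‖ ≠ 1) {a b : ℤ} (hab : a ≠ 0 ∨ b ≠ 0) (S : Finset N)
    (hS : ∀ g : N ≃ₐ[ℚ] N, g (x 0 ^ a * x 1 ^ b) ∈ S) : n ≤ 2 * s * #S := by
  classical
  have hex : ∃ g : N ≃ₐ[ℚ] N, ‖j (g (x 0 ^ a * x 1 ^ b))‖ ≠ 1 := by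
    by_cases ha : a = 0
    · obtain ⟨g, hg⟩ := h1
      refine ⟨g, ?_⟩
      rw [ha, zpow_zero, one_mul, map_zpow₀, map_zpow₀, norm_zpow, Ne,
        zpow_eq_one_iff_right₀ (norm_nonneg _) hg]
      exact hab.resolve_left (not_not.2 ha)
    · obtain ⟨g, hg, hg'⟩ := h0
      refine ⟨g, ?_⟩
      rw [map_mul, map_mul, norm_mul, map_zpow₀, map_zpow₀, map_zpow₀, map_zpow₀, norm_zpow,
        norm_zpow, hg', one_zpow, mul_one, Ne, zpow_eq_one_iff_right₀ (norm_nonneg _) hg]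
      exact ha
  obtain ⟨g₀, hg₀⟩ := hex
  have e := card_eq_fibre (fun g : N ≃ₐ[ℚ] N => g (x 0 ^ a * x 1 ^ b))
    (fun h g g' hg => congrArg h hg) g₀
  have k1 : #(univ.image fun g : N ≃ₐ[ℚ] N => g (x 0 ^ a * x 1 ^ b)) ≤ #S :=
    card_le_card fun y hy => by
      obtain ⟨g, -, rfl⟩ := mem_image.1 hy
      exact hS g
  set c := #{g : N ≃ₐ[ℚ] N | g (x 0 ^ a * x 1 ^ b) = g₀ (x 0 ^ a * x 1 ^ b)} with hc
  have k2 : c ≤ #(bad j (x 0)) + #(bad j (x 1)) := by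
    refine le_trans (card_le_card fun g hg => ?_) (card_union_le _ _)
    rw [mem_union, mem_bad, mem_bad]
    by_contra h
    push Not at h
    apply hg₀
    rw [← (mem_filter.1 hg).2, map_mul, map_mul, norm_mul, map_zpow₀, map_zpow₀, map_zpow₀,
      map_zpow₀, norm_zpow, norm_zpow, h.1, h.2]
    simp
  have k3 : 0 < c := card_pos.2 ⟨g₀, by simp⟩
  have k4 := hbad 0
  have k5 := hbad 1
  apply Nat.le_of_mul_le_mul_right _ k3
  rw [e] at k4 k5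
  calc n * c ≤ n * (#(bad j (x 0)) + #(bad j (x 1))) := Nat.mul_le_mul_left _ k2
    _ ≤ 2 * s * (#(univ.image fun g : N ≃ₐ[ℚ] N => g (x 0 ^ a * x 1 ^ b)) * c) := by
        rw [mul_add]; linarith
    _ ≤ 2 * s * (#S * c) := by gcongr
    _ = _ := by ring

/-- local heights -/
noncomputable def Mx (j : N →+* ℂ) (x : Fin 2 → N) (g : N ≃ₐ[ℚ] N) : ℝ :=
  max 1 (max ‖j (g (x 0))‖ ‖j (g (x 1))‖)

lemma one_le_Mx (j : N →+* ℂ) (x : Fin 2 → N) (g : N ≃ₐ[ℚ] N) : 1 ≤ Mx j x g := le_max_left _ _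

lemma le_Mx (j : N →+* ℂ) (x : Fin 2 → N) (g : N ≃ₐ[ℚ] N) (l : Fin 2) :
    ‖j (g (x l))‖ ≤ Mx j x g := by
  fin_cases l
  · exact (le_max_left _ _).trans (le_max_right _ _)
  · exact (le_max_right _ _).trans (le_max_right _ _)

lemma prod_Mx_le (j : N →+* ℂ) {x : Fin 2 → N} {n s E : ℕ} {H : ℝ} (hH0 : 0 ≤ H) (hn : 0 < n)
    (hbad : ∀ l, n * #(bad j (x l)) ≤ s * Fintype.card (N ≃ₐ[ℚ] N))
    (hH : ∀ (g : N ≃ₐ[ℚ] N) l, ‖j (g (x l))‖ ≤ Real.exp H) (hE : 2 * s * H * E ≤ n) :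
    ∏ g, Mx j x g ^ E ≤ Real.exp 1 ^ Fintype.card (N ≃ₐ[ℚ] N) := by
  classical
  have h1 : ∏ g, Mx j x g ≤ Real.exp H ^ #(bad j (x 0) ∪ bad j (x 1)) := by
    rw [← prod_subset (subset_univ (bad j (x 0) ∪ bad j (x 1))) (fun g _ hg => ?_)]
    · rw [← prod_const]
      exact prod_le_prod (fun g _ => by linarith [one_le_Mx j x g]) fun g _ =>
        max_le (Real.one_le_exp hH0) (max_le (hH g 0) (hH g 1))
    · rw [mem_union, mem_bad, mem_bad] at hg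
      push Not at hg
      simp [Mx, hg.1, hg.2]
  have h2 : (n : ℝ) * #(bad j (x 0) ∪ bad j (x 1)) ≤ 2 * s * Fintype.card (N ≃ₐ[ℚ] N) := by
    have := Nat.mul_le_mul_left n (card_union_le (bad j (x 0)) (bad j (x 1)))
    have k4 := hbad 0
    have k5 := hbad 1
    have : n * #(bad j (x 0) ∪ bad j (x 1)) ≤ 2 * s * Fintype.card (N ≃ₐ[ℚ] N) := by
      rw [mul_add] at this; linarith
    exact_mod_cast this
  rw [prod_pow]
  refine (pow_le_pow_left₀ (prod_nonneg fun g _ => by linarith [one_le_Mx j x g]) h1 E).trans ?_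
  rw [← Real.exp_nat_mul, ← Real.exp_nat_mul, ← Real.exp_nat_mul, Real.exp_le_exp, mul_one]
  have hn' : (0 : ℝ) < n := by exact_mod_cast hn
  apply le_of_mul_le_mul_left _ hn'
  calc (n : ℝ) * (E * (#(bad j (x 0) ∪ bad j (x 1)) * H))
      = E * H * (n * #(bad j (x 0) ∪ bad j (x 1))) := by ring
    _ ≤ E * H * (2 * s * Fintype.card (N ≃ₐ[ℚ] N)) := by gcongr
    _ = (2 * s * H * E) * Fintype.card (N ≃ₐ[ℚ] N) := by ring
    _ ≤ _ := by gcongr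

end Pool.Agent.Lib.MP_162bbe_gt
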