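import Pool.Agent.Lib.MP_162bbe_gt.Salem
import Pool.Agent.Lib.MP_162bbe_gt.Field
import Pool.Agent.Lib.MP_162bbe_gt.Mat

set_option autoImplicit false

/-! From algebraic numbers to arithmetic groups. -/

namespace Pool.Agent.Lib.MP_162bbe_gt

open Finset Polynomial Module

theorem lattice (M r t C : ℕ) (ht : 1 ≤ t) : ∃ c κ : ℝ, 0 < c ∧ 0 < κ ∧
    ∀ (Γ : Type*) [Group Γ] (k : Type) [Field k] [NumberField k]
      (ρ : Γ →* Matrix (Fin M) (Fin M) k) (S : Fin r → k →+* ℂ),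
      (∀ γ n, IsIntegral ℤ ((ρ γ).charpoly.coeff n)) →
      (∀ σ : k →+* ℂ, σ ∉ Set.range S → ∃ B : ℝ, ∀ γ a b, ‖σ (ρ γ a b)‖ ≤ B) →
      (∀ i, ∃ σ ∉ Set.range S,
        finrank ℚ ↥((S i).toRatAlgHom.fieldRange ⊔ σ.toRatAlgHom.fieldRange) ^ t ≤
          C * finrank ℚ k ^ (2 * t - 1)) →
      ∀ γ, (∀ i z, eval₂ (S i) z (ρ γ).charpoly = 0 →
        ‖z‖ < Real.exp (c * (finrank ℚ k : ℝ) ^ κ)) → ∃ n, 0 < n ∧ ρ (γ ^ n) = 1 := by
  classical
  obtain ⟨c, κ, hc, hκ, hsalem⟩ := salem t (M ^ (2 * t) * C * r ^ (2 * t - 1)) (r * M) ht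
  have hr : (0 : ℝ) < ((r + 1 : ℕ) : ℝ) ^ κ := by positivity
  refine ⟨c / ((r + 1 : ℕ) : ℝ) ^ κ, κ, by positivity, hκ, ?_⟩
  intro Γ _ k _ _ ρ S hint hbdd hsmall γ hγ
  let τ : (k →+* ℂ) → Γ →* Matrix (Fin M) (Fin M) ℂ := fun σ =>
    (σ.mapMatrix : Matrix (Fin M) (Fin M) k →+* _).toMonoidHom.comp ρ
  have hτ : ∀ σ z, eval z (τ σ γ).charpoly = eval₂ σ z (ρ γ).charpoly := fun σ z => by
    rw [eval₂_eq_eval_map, ← Matrix.charpoly_map]; rfl
  have hcirc : ∀ σ z, eval₂ σ z (ρ γ).charpoly = 0 → ‖z‖ ≠ 1 → ∃ i, S i = σ := by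
    intro σ z hz hz1
    by_contra h
    obtain ⟨B, hB⟩ := hbdd σ h
    exact hz1 (norm_eq_one_of_bdd (τ σ) hB ((hτ σ z).trans hz))
  have hm := (ρ γ).charpoly_monic
  by_cases hall : ∀ (σ : k →+* ℂ) z, eval₂ σ z (ρ γ).charpoly = 0 → ‖z‖ = 1
  · obtain ⟨σ, hσ⟩ : ∃ σ : k →+* ℂ, σ ∉ Set.range S := by
      obtain ⟨σ⟩ : Nonempty (k →+* ℂ) := inferInstance
      by_cases h : σ ∈ Set.range S
      · obtain ⟨i, -⟩ := h
        exact ⟨_, (hsmall i).choose_spec.1⟩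
      · exact ⟨σ, h⟩
    obtain ⟨B, hB⟩ := hbdd σ hσ
    obtain ⟨n, hn, h⟩ := exists_pow_eq_one (τ σ) hB (γ := γ) fun z hz => by
      obtain ⟨P, -, -, -, h1, -, -, h2⟩ := exists_minpoly hm (hint γ) σ ((hτ σ z).symm.trans hz)
      exact h2 fun w hw => (h1 w hw).elim fun σ' h => hall σ' w h
    refine ⟨n, hn, ?_⟩
    ext a b
    apply σ.injective
    have := congrFun (congrFun h a) b
    refine this.trans ?_
    by_cases hab : a = b
    · subst hab; simp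
    · simp [Matrix.one_apply_ne hab]
  exfalso
  push Not at hall
  obtain ⟨σ₀, z, hz, hz1⟩ := hall
  obtain ⟨i, rfl⟩ := hcirc σ₀ z hz hz1
  obtain ⟨σ, hσ, hfin⟩ := hsmall i
  obtain ⟨P, hP, hirr, hPz, h1, h2, h3, -⟩ := exists_minpoly hm (hint γ) (S i) hz
  obtain ⟨μ, hPμ, hμ⟩ := h2 σ
  have hμ1 : ‖μ‖ = 1 := by
    by_contra h
    exact hσ (hcirc σ μ hμ h)
  have hdeg : (ρ γ).charpoly.natDegree = M := by
    rw [Matrix.charpoly_natDegree_eq_dim, Fintype.card_fin]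
  have hd : finrank ℚ k ≤ r * P.natDegree :=
    (h3 (univ.image S) fun σ' h => by
      obtain ⟨i', hi'⟩ := hcirc σ' z h hz1
      exact mem_image.2 ⟨i', mem_univ _, hi'⟩).trans
      (Nat.mul_le_mul_right _ (card_image_le.trans (by simp)))
  obtain ⟨E, _, hzE, hμE, hE⟩ := exists_field hm (S i) σ hz hμ
  obtain ⟨w, hw, hw'⟩ := hsalem P ![z, μ]
    (univ.biUnion fun i => ((ρ γ).charpoly.map (S i)).roots.toFinset) E hP hirr
    (fun l => by fin_cases l <;> simpa) hz1 hμ1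
    (card_biUnion_le.trans ((sum_le_card_nsmul _ _ M fun i _ => (Multiset.toFinset_card_le _).trans
      ((card_roots' _).trans (natDegree_map_le.trans hdeg.le))).trans (by simp)))
    (fun w hw hw1 => by
      obtain ⟨σ', hσ'⟩ := h1 w hw
      obtain ⟨i', rfl⟩ := hcirc σ' w hσ' hw1
      refine mem_biUnion.2 ⟨i', mem_univ _, ?_⟩
      rw [Multiset.mem_toFinset, mem_roots (hm.map _).ne_zero, IsRoot, ← eval₂_eq_eval_map]
      exact hσ')
    (fun l => by fin_cases l <;> simpa)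
    (by
      rw [hdeg] at hE
      refine (Nat.pow_le_pow_left hE t).trans ?_
      rw [mul_pow, ← pow_mul, mul_assoc, mul_assoc, ← mul_pow]
      exact Nat.mul_le_mul_left _ (hfin.trans (Nat.mul_le_mul_left _ (Nat.pow_le_pow_left hd _))))
  have hn : 0 < P.natDegree := natDegree_pos_of_aeval_root hP.ne_zero hPz
    fun x hx => by simpa using hx
  have hw1 : ‖w‖ ≠ 1 := by
    have : 1 < Real.exp (c * (P.natDegree : ℝ) ^ κ) := Real.one_lt_exp_iff.2 (by positivity)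
    exact (this.trans_le hw').ne'
  obtain ⟨σ', hσ'⟩ := h1 w hw
  obtain ⟨i', rfl⟩ := hcirc σ' w hσ' hw1
  refine absurd (hγ i' w hσ') (not_lt.2 (le_trans (Real.exp_le_exp.2 ?_) hw'))
  rw [div_mul_eq_mul_div, div_le_iff₀ hr, mul_assoc, ← Real.mul_rpow (by positivity) (by positivity)]
  refine mul_le_mul_of_nonneg_left (Real.rpow_le_rpow (by positivity) ?_ hκ.le) hc.le
  exact_mod_cast hd.trans (by nlinarith)

lemma pow_bound {C δ : ℝ} (hδ : 0 < δ) : ∃ t C' : ℕ, 1 ≤ t ∧ ∀ a d : ℕ, 1 ≤ d →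
    ((a : ℝ) ≤ C * (d : ℝ) ^ (2 - δ) ∨ a = d) → a ^ t ≤ C' * d ^ (2 * t - 1) := by
  obtain ⟨t, ht⟩ := exists_nat_gt (1 / δ)
  have ht0 : (0 : ℝ) < t := lt_trans (by positivity) ht
  have ht1 : 1 ≤ t := by exact_mod_cast ht0
  refine ⟨t, ⌈|C| ^ t⌉₊ + 1, ht1, fun a d hd h => ?_⟩
  rcases h with h | rfl
  · have hd' : (1 : ℝ) ≤ d := by exact_mod_cast hd
    have h1 : (a : ℝ) ^ t ≤ (|C| * (d : ℝ) ^ (2 - δ)) ^ t :=
      pow_le_pow_left₀ (by positivity) (h.trans (by gcongr; exact le_abs_self C)) t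
    have h2 : ((d : ℝ) ^ (2 - δ)) ^ t ≤ (d : ℝ) ^ (2 * t - 1) := by
      rw [← Real.rpow_natCast, ← Real.rpow_mul (by positivity), ← Real.rpow_natCast]
      refine Real.rpow_le_rpow_of_exponent_le hd' ?_
      rw [Nat.cast_sub (by omega)]
      push_cast
      rw [div_lt_iff₀ hδ] at ht
      nlinarith
    have h3 : |C| ^ t ≤ ((⌈|C| ^ t⌉₊ + 1 : ℕ) : ℝ) := by
      push_cast; linarith [Nat.le_ceil (|C| ^ t)]
    have h4 : (a : ℝ) ^ t ≤ ((⌈|C| ^ t⌉₊ + 1 : ℕ) : ℝ) * (d : ℝ) ^ (2 * t - 1) := by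
      rw [mul_pow] at h1
      exact h1.trans (mul_le_mul h3 h2 (by positivity) (by positivity))
    exact_mod_cast h4
  · exact (Nat.pow_le_pow_right hd (by omega)).trans (Nat.le_mul_of_pos_left _ (by omega))

end Pool.Agent.Lib.MP_162bbe_gt
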