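import Pool.Agent.Lib.MP_162bbe_gt.Shift

set_option autoImplicit false

/-! Frobenius congruences and the `p`-adic extrapolation step. -/

namespace Pool.Agent.Lib.MP_162bbe_gt

open Polynomial NumberField

lemma exists_of_map_eq {p : ℕ} {f g : ℤ[X]}
    (h : f.map (Int.castRingHom (ZMod p)) = g.map (Int.castRingHom (ZMod p))) :
    ∃ k : ℤ[X], f = g + C (p : ℤ) * k := by
  have : C (p : ℤ) ∣ f - g := by
    rw [C_dvd_iff_dvd_coeff]
    intro i
    have := congrArg (coeff · i) h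
    simp only [coeff_map, eq_intCast] at this
    rw [coeff_sub, ← ZMod.intCast_zmod_eq_zero_iff_dvd, Int.cast_sub, this, sub_self]
  obtain ⟨k, hk⟩ := this
  exact ⟨k, by rw [← hk]; ring⟩

section Local

variable {O : Type*} [CommRing O]

lemma dvd_aeval_pow {p : ℕ} (hp : p.Prime) (P : ℤ[X]) {x : O} (hx : aeval x P = 0) :
    (p : O) ∣ aeval (x ^ p) P := by
  have : Fact p.Prime := ⟨hp⟩
  obtain ⟨k, hk⟩ := exists_of_map_eq (p := p) (f := expand ℤ p P) (g := P ^ p) (by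
    rw [map_expand, ZMod.expand_card, Polynomial.map_pow])
  have := congrArg (aeval x) hk
  rw [expand_aeval, map_add, map_pow, hx, zero_pow hp.ne_zero, zero_add, map_mul, aeval_C] at this
  exact ⟨aeval x k, by simpa using this⟩

lemma frob_unram {p : ℕ} (hp : p.Prime) (P : ℤ[X]) {x : O} (hx : aeval x P = 0) {Q : Ideal O}
    [hQ : Q.IsPrime] (σ : O →+* O) (hσ : ∀ y, σ y - y ^ p ∈ Q)
    (hd : aeval x (derivative P) ∉ Q) : ∃ t ∉ Q, (p : O) ^ 1 ∣ t * (x ^ p - σ x) := by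
  obtain ⟨k, hk⟩ := (P.map (algebraMap ℤ O)).binomExpansion (σ x) (x ^ p - σ x)
  have hc : ∀ f : ℤ[X], aeval (σ x) f = σ (aeval x f) := fun f =>
    aeval_algHom_apply σ.toIntAlgHom x f
  rw [derivative_map, eval_map_algebraMap, eval_map_algebraMap, eval_map_algebraMap,
    add_sub_cancel, hc, hc, hx, map_zero, zero_add] at hk
  have hh : x ^ p - σ x ∈ Q := by
    have := Q.neg_mem (hσ x)
    rwa [neg_sub] at this
  refine ⟨σ (aeval x (derivative P)) + k * (x ^ p - σ x), fun h => hd ?_, ?_⟩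
  · have h1 := (Q.add_mem_iff_left (Q.mul_mem_left k hh)).1 h
    have h2 := Q.sub_mem h1 (hσ (aeval x (derivative P)))
    rw [sub_sub_cancel] at h2
    exact hQ.mem_of_pow_mem _ h2
  · rw [pow_one]
    have := dvd_aeval_pow hp P hx
    rw [hk] at this
    rwa [show (σ (aeval x (derivative P)) + k * (x ^ p - σ x)) * (x ^ p - σ x) =
      σ (aeval x (derivative P)) * (x ^ p - σ x) + k * (x ^ p - σ x) ^ 2 by ring]

lemma frob_ram {p : ℕ} (hp : p.Prime) {P : ℤ[X]} (hP : P.Monic) {x : O} (hx : aeval x P = 0)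
    {Q : Ideal O} [hQ : Q.IsMaximal] (hpQ : (p : O) ∈ Q) (hd : aeval x (derivative P) ∈ Q) :
    ∃ t ∉ Q, (p : O) ∣ t * aeval x (derivative P) ^ 2 := by
  have : Fact p.Prime := ⟨hp⟩
  let := Ideal.Quotient.field Q
  have : CharP (O ⧸ Q) p := (CharP.charP_iff_prime_eq_zero hp).2 (by
    rw [← map_natCast (Ideal.Quotient.mk Q), Ideal.Quotient.eq_zero_iff_mem]; exact hpQ)
  let : Algebra (ZMod p) (O ⧸ Q) := ZMod.algebra _ p
  set φ := Int.castRingHom (ZMod p) with hφ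
  have key : ∀ f : ℤ[X], aeval (Ideal.Quotient.mk Q x) (f.map φ) =
      Ideal.Quotient.mk Q (aeval x f) := fun f => by
    rw [aeval_def, eval₂_map, aeval_def, hom_eval₂]
    congr 1
    exact RingHom.ext_int _ _
  have hroot : aeval (Ideal.Quotient.mk Q x) (P.map φ) = 0 := by rw [key, hx, map_zero]
  have hint : IsIntegral (ZMod p) (Ideal.Quotient.mk Q x) := ⟨_, hP.map φ, hroot⟩
  have hirr := minpoly.irreducible hint
  obtain ⟨c, g', hg', hfac⟩ := WfDvdMonoid.max_power_factor (hP.map φ).ne_zero hirr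
  have hsurj := map_surjective φ (ZMod.ringHom_surjective φ)
  obtain ⟨f, hf⟩ := hsurj (minpoly (ZMod p) (Ideal.Quotient.mk Q x))
  obtain ⟨g, rfl⟩ := hsurj g'
  have hg0 : aeval (Ideal.Quotient.mk Q x) (g.map φ) ≠ 0 := fun h => hg' (minpoly.dvd _ _ h)
  have hd' : aeval (Ideal.Quotient.mk Q x) (derivative (P.map φ)) = 0 := by
    rw [derivative_map, key, Ideal.Quotient.eq_zero_iff_mem]; exact hd
  obtain ⟨c, rfl⟩ : ∃ c', c = c' + 2 := by
    rcases c with _ | _ | c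
    · exfalso
      rw [hfac, pow_zero, one_mul] at hroot
      exact hg0 hroot
    · exfalso
      rw [hfac, zero_add, pow_one, derivative_mul, map_add, map_mul, map_mul, minpoly.aeval,
        zero_mul, add_zero, mul_eq_zero] at hd'
      exact hd'.elim ((PerfectField.separable_of_irreducible hirr).aeval_derivative_ne_zero
        (minpoly.aeval _ _)) hg0
    · exact ⟨c, rfl⟩
  obtain ⟨h, hh⟩ := exists_of_map_eq (p := p) (f := P) (g := f ^ (c + 2) * g) (by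
    rw [← hφ, hfac, Polynomial.map_mul, Polynomial.map_pow, hf])
  refine ⟨aeval x g, fun hm => hg0 (by rw [key, Ideal.Quotient.eq_zero_iff_mem]; exact hm), ?_⟩
  have e1 := congrArg (aeval x) hh
  have e2 := congrArg (fun r => aeval x (derivative r)) hh
  simp only [hx, map_add, map_mul, map_pow, derivative_mul, derivative_pow,
    zero_mul, zero_add, map_natCast, derivative_natCast,
    show c + 2 - 1 = c + 1 from rfl] at e1 e2
  rw [e2]
  generalize aeval x f = F at *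
  generalize aeval x g = G at *
  generalize aeval x h = H at *
  generalize aeval x (derivative f) = F' at *
  generalize aeval x (derivative g) = G' at *
  generalize aeval x (derivative h) = H' at *
  refine ⟨-H * F ^ c * (((c + 2 : ℕ) : O) * F' * G + F * G') ^ 2 +
    G * (2 * F ^ (c + 1) * (((c + 2 : ℕ) : O) * F' * G + F * G') * H' + p * H' ^ 2), ?_⟩
  linear_combination (-F ^ c * (((c + 2 : ℕ) : O) * F' * G + F * G') ^ 2) * e1

/-- elements locally divisible by `a ^ k` -/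
def locDvd (Q : Ideal O) [hQ : Q.IsPrime] (a : O) (k : ℕ) : Ideal O where
  carrier := {y | ∃ t ∉ Q, a ^ k ∣ t * y}
  add_mem' := by
    rintro y z ⟨s, hs, hy⟩ ⟨t, ht, hz⟩
    refine ⟨s * t, fun h => (hQ.mem_or_mem h).elim hs ht, ?_⟩
    rw [show s * t * (y + z) = t * (s * y) + s * (t * z) by ring]
    exact dvd_add (hy.mul_left _) (hz.mul_left _)
  zero_mem' := ⟨1, fun h => hQ.ne_top ((Ideal.eq_top_iff_one _).2 h), by simp⟩
  smul_mem' := by
    rintro c y ⟨s, hs, hy⟩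
    refine ⟨s, hs, ?_⟩
    rw [smul_eq_mul, mul_left_comm]
    exact hy.mul_left _

lemma locDvd_pow (Q : Ideal O) [hQ : Q.IsPrime] (a : O) (k : ℕ) :
    locDvd Q a 1 ^ k ≤ locDvd Q a k := by
  induction k with
  | zero => exact fun y _ => ⟨1, fun h => hQ.ne_top ((Ideal.eq_top_iff_one _).2 h), by simp⟩
  | succ k ih =>
    rw [pow_succ, Ideal.mul_le]
    intro y hy z hz
    obtain ⟨s, hs, hy⟩ := ih hy
    obtain ⟨t, ht, hz⟩ := hz
    refine ⟨s * t, fun h => (hQ.mem_or_mem h).elim hs ht, ?_⟩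
    rw [show s * t * (y * z) = (s * y) * (t * z) by ring, pow_add]
    exact mul_dvd_mul hy hz

lemma dvd_of_local {a b : O} (h : ∀ Q : Ideal O, Q.IsMaximal → ∃ t ∉ Q, a ∣ t * b) : a ∣ b := by
  let I : Ideal O :=
    { carrier := {s | a ∣ s * b}
      add_mem' := fun h1 h2 => by
        simp only [Set.mem_ofPred_eq, add_mul] at *; exact dvd_add h1 h2
      zero_mem' := by simp
      smul_mem' := fun c s hs => by
        simp only [Set.mem_ofPred_eq, smul_eq_mul, mul_assoc] at *; exact hs.mul_left _ }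
  by_cases hI : I = ⊤
  · have : a ∣ 1 * b := (Ideal.eq_top_iff_one I).1 hI
    rwa [one_mul] at this
  · obtain ⟨Q, hQ, hIQ⟩ := Ideal.exists_le_maximal I hI
    obtain ⟨t, ht, hd⟩ := h Q hQ
    exact absurd (hIQ hd) ht

end Local

variable {N : Type*} [Field N] [NumberField N] [IsGalois ℚ N]

lemma exists_frob {p : ℕ} (hp : p.Prime) (Q : Ideal (𝓞 N)) [hQ : Q.IsMaximal]
    (hpQ : (p : 𝓞 N) ∈ Q) : ∃ σ : N ≃ₐ[ℚ] N, ∀ y : 𝓞 N, σ • y - y ^ p ∈ Q := by
  have : Fact p.Prime := ⟨hp⟩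
  obtain ⟨σ, hσ⟩ := IsArithFrobAt.exists_of_isInvariant ℤ (N ≃ₐ[ℚ] N) Q
  have h : Q.under ℤ = Ideal.span {(p : ℤ)} := by
    refine ((Int.ideal_span_isMaximal_of_prime p).eq_of_le (Ideal.IsPrime.ne_top inferInstance)
      ?_).symm
    rw [Ideal.span_le, Set.singleton_subset_iff]
    simpa [Ideal.mem_comap] using hpQ
  refine ⟨σ, fun y => ?_⟩
  have := hσ y
  rwa [h, Int.card_ideal_quot] at this

/-- the `p`-adic extrapolation -/
theorem padic_dvd {p : ℕ} (hp : p.Prime) {P : ℤ[X]} (hP : P.Monic) {x : Fin 2 → 𝓞 N}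
    (hx : ∀ l, aeval (x l) P = 0) (m : ℕ) {T : ℕ} {F : MvPolynomial (Fin 2) (𝓞 N)}
    (hF : ∀ g : N ≃ₐ[ℚ] N, Van (fun l => g • x l ^ m) T F) (i : Fin 2 →₀ ℕ) :
    (p : 𝓞 N) ^ (T - (i 0 + i 1)) ∣ MvPolynomial.coeff i (Sh (fun l => x l ^ (m * p)) F) *
      (aeval (x 0) (derivative P) * aeval (x 1) (derivative P)) ^ (2 * (T - (i 0 + i 1))) := by
  set t := T - (i 0 + i 1) with ht
  refine dvd_of_local fun Q hQ => ?_
  have hQp := hQ.isPrime
  by_cases hpQ : (p : 𝓞 N) ∈ Q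
  swap
  · exact ⟨(p : 𝓞 N) ^ t, fun h => hpQ (hQp.mem_of_pow_mem _ h), dvd_mul_right _ _⟩
  by_cases h0 : aeval (x 0) (derivative P) ∈ Q
  · obtain ⟨s, hs, hd⟩ := frob_ram hp hP (hx 0) hpQ h0
    refine ⟨s ^ t, fun h => hs (hQp.mem_of_pow_mem _ h), (pow_dvd_pow_of_dvd hd t).trans ?_⟩
    refine ⟨MvPolynomial.coeff i (Sh (fun l => x l ^ (m * p)) F) *
      aeval (x 1) (derivative P) ^ (2 * t), ?_⟩
    ring
  by_cases h1 : aeval (x 1) (derivative P) ∈ Q
  · obtain ⟨s, hs, hd⟩ := frob_ram hp hP (hx 1) hpQ h1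
    refine ⟨s ^ t, fun h => hs (hQp.mem_of_pow_mem _ h), (pow_dvd_pow_of_dvd hd t).trans ?_⟩
    refine ⟨MvPolynomial.coeff i (Sh (fun l => x l ^ (m * p)) F) *
      aeval (x 0) (derivative P) ^ (2 * t), ?_⟩
    ring
  obtain ⟨σ, hσ⟩ := exists_frob hp Q hpQ
  have hJ : ∀ l, x l ^ p - σ • x l ∈ locDvd Q (p : 𝓞 N) 1 := fun l =>
    frob_unram hp P (hx l) (MulSemiringAction.toRingHom _ _ σ) hσ (by
      fin_cases l
      · exact h0
      · exact h1)
  have hJ' : ∀ l, (x l ^ (m * p) - σ • x l ^ m) ∈ locDvd Q (p : 𝓞 N) 1 := fun l => by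
    rw [smul_pow', mul_comm, pow_mul]
    exact Ideal.mem_of_dvd _ (sub_dvd_pow_sub_pow _ _ m) (hJ l)
  have := (hF σ).mem_pow (h := fun l => x l ^ (m * p) - σ • x l ^ m) hJ' i
  have e : ((fun l => σ • x l ^ m) + fun l => x l ^ (m * p) - σ • x l ^ m) =
      fun l => x l ^ (m * p) := funext fun l => by simp
  rw [e] at this
  obtain ⟨s, hs, hd⟩ := locDvd_pow Q _ _ this
  exact ⟨s, hs, by rw [← mul_assoc]; exact hd.mul_right _⟩

/-- absolute norm -/
noncomputable def nrm (c : 𝓞 N) : ℕ := (Algebra.norm ℤ c).natAbs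

omit [IsGalois ℚ N] in
lemma nrm_ne_zero {c : 𝓞 N} (hc : c ≠ 0) : nrm c ≠ 0 :=
  Int.natAbs_ne_zero.2 (Algebra.norm_ne_zero_iff.2 hc)

lemma nrm_eq_prod (j : N →+* ℂ) (c : 𝓞 N) :
    (nrm c : ℝ) = ∏ g : N ≃ₐ[ℚ] N, ‖j (g (c : N))‖ := by
  rw [← norm_prod, ← map_prod, ← Algebra.norm_eq_prod_automorphisms, ← Algebra.coe_norm_int]
  simp [nrm]

lemma pow_le_nrm_sq {p t : ℕ} (hp : p.Prime) {c δ : 𝓞 N} (hc : c ≠ 0) (hδ : δ ≠ 0)
    (hd : (p : 𝓞 N) ^ t ∣ c * δ ^ (2 * t))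
    (hgood : ¬ p ^ Fintype.card (N ≃ₐ[ℚ] N) ∣ nrm δ ^ 4) :
    p ^ (t * Fintype.card (N ≃ₐ[ℚ] N)) ≤ nrm c ^ 2 := by
  set D := Fintype.card (N ≃ₐ[ℚ] N) with hD
  have h1 := Int.natAbs_dvd_natAbs.2 (map_dvd (Algebra.norm ℤ) hd)
  have hfr : Module.finrank ℤ (𝓞 N) = D := by
    rw [RingOfIntegers.rank, hD, ← Nat.card_eq_fintype_card, IsGalois.card_aut_eq_finrank]
  rw [map_pow, map_mul, map_pow, ← map_natCast (algebraMap ℤ (𝓞 N)), Algebra.norm_algebraMap,
    hfr, Int.natAbs_mul, Int.natAbs_pow, Int.natAbs_pow, Int.natAbs_pow, Int.natAbs_natCast,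
    ← pow_mul] at h1
  change _ ∣ nrm c * nrm δ ^ (2 * t) at h1
  have a0 := nrm_ne_zero hc
  have b0 := nrm_ne_zero hδ
  rw [hp.pow_dvd_iff_le_factorization (by positivity), Nat.factorization_pow] at hgood
  rw [hp.pow_dvd_iff_le_factorization (by positivity), Nat.factorization_mul a0 (by positivity),
    Nat.factorization_pow] at h1
  refine Nat.le_of_dvd (by positivity) ?_
  rw [hp.pow_dvd_iff_le_factorization (by positivity), Nat.factorization_pow]
  simp only [Finsupp.smul_apply, smul_eq_mul, Finsupp.add_apply, not_le] at *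
  nlinarith

lemma card_bad_le {u b D : ℕ} (hb : b ≠ 0) (B : Finset ℕ)
    (hB : ∀ p ∈ B, p.Prime ∧ u ≤ p ∧ p ^ D ∣ b) : u ^ (B.card * D) ≤ b := by
  have h1 : ∏ p ∈ B, p ^ D ∣ b := Finset.prod_dvd_of_isRelPrime (fun p hp q hq hpq =>
    Nat.coprime_iff_isRelPrime.1 (Nat.Coprime.pow _ _
      ((Nat.coprime_primes (hB p hp).1 (hB q hq).1).2 hpq))) fun p hp => (hB p hp).2.2
  refine le_trans ?_ (Nat.le_of_dvd (Nat.pos_of_ne_zero hb) h1)
  rw [mul_comm, pow_mul]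
  exact Finset.pow_card_le_prod _ _ _ fun p hp => Nat.pow_le_pow_left (hB p hp).2.1 _

end Pool.Agent.Lib.MP_162bbe_gt
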