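import Pool.Agent.Lib.MP_162bbe_gt.TBlock
import Pool.Agent.Lib.MP_162bbe_gt.Field
import Pool.Agent.Lib.MP_f61260_nt.Glob1

set_option autoImplicit false

/-! The absolute Galois group acting on the embeddings of a number field. -/

namespace Pool.Agent.Lib.MP_162bbe_gt

open Finset MulAction Module Polynomial Pool.Agent.Lib.MP_f61260_nt

noncomputable instance embAct (F : Type) [Field F] : MulAction GA (F →+* Qb) where
  smul g e := (g : Qb →+* Qb).comp e
  one_smul _ := rfl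
  mul_smul _ _ _ := rfl

variable {F k : Type} [Field F] [Field k]

lemma smul_emb (g : GA) (e : F →+* Qb) (x : F) : (g • e) x = g (e x) := rfl

lemma mem_stab {g : GA} {e : F →+* Qb} : g ∈ stabilizer GA e ↔ ∀ x, g (e x) = e x :=
  mem_stabilizer_iff.trans RingHom.ext_iff

/-- an embedding into the algebraic numbers, seen in the complex numbers -/
noncomputable def dn (e : F →+* Qb) : F →+* ℂ := (algebraMap Qb ℂ).comp e

lemma dn_inj : Function.Injective (dn : (F →+* Qb) → F →+* ℂ) := fun _ _ h =>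
  RingHom.ext fun x => Subtype.ext (RingHom.congr_fun h x)

lemma eval_dn (e : F →+* Qb) (χ : F[X]) (w : Qb) :
    eval₂ (dn e) (w : ℂ) χ = ((eval₂ e w χ : Qb) : ℂ) := (hom_eval₂ χ e (algebraMap Qb ℂ) w).symm

lemma eval_smul (g : GA) (e : F →+* Qb) (χ : F[X]) (w : Qb) :
    eval₂ (g • e) (g w) χ = g (eval₂ e w χ) := (hom_eval₂ χ e (g : Qb →+* Qb) w).symm

lemma orb_root {χ : F[X]} (hχ : χ.Monic) (T : Finset (F →+* Qb)) {e : F →+* Qb} {z : Qb}
    (hz : eval₂ e z χ = 0) :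
    ∃ R : Finset Qb, #R ≤ #T * χ.natDegree ∧ ∀ g : GA, g • e ∈ T → g z ∈ R := by
  classical
  refine ⟨T.biUnion fun e' => (χ.map e').roots.toFinset, card_biUnion_le.trans
    (sum_le_card_nsmul _ _ _ fun e' _ => (Multiset.toFinset_card_le _).trans
      ((card_roots' _).trans natDegree_map_le)), fun g hg => mem_biUnion.2 ⟨_, hg, ?_⟩⟩
  rw [Multiset.mem_toFinset, mem_roots (hχ.map _).ne_zero, IsRoot, ← eval₂_eq_eval_map, eval_smul,
    hz, map_zero]

lemma idx_root {χ : F[X]} (hχ : χ.Monic) {e : F →+* Qb} {z : Qb} (hz : eval₂ e z χ = 0) :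
    IdxLe (stabilizer GA e) (St ℚ z) χ.natDegree := by
  obtain ⟨R, hR, h⟩ := orb_root hχ {e} hz
  exact (idx_of_finset R fun σ hσ => h σ (mem_singleton.2 hσ)).mono (by simpa using hR)

variable [NumberField F] [NumberField k]

/-- a complex embedding, seen in the algebraic numbers -/
noncomputable def up (σ : F →+* ℂ) : F →+* Qb :=
  σ.codRestrict (algebraicClosure ℚ ℂ) fun x => mem_algebraicClosure_iff.2
    ((Algebra.IsAlgebraic.isAlgebraic (R := ℚ) x).algHom σ.toRatAlgHom)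

lemma dn_up (σ : F →+* ℂ) : dn (up σ) = σ := rfl

lemma emb_trans (e e' : F →+* Qb) : ∃ g : GA, g • e = e' := by
  let pb := Field.powerBasisOfFiniteOfSeparable ℚ F
  obtain ⟨g, hg⟩ := minpoly.exists_algEquiv_of_root (K := ℚ) (x := e pb.gen) (y := e' pb.gen)
    (Algebra.IsAlgebraic.isAlgebraic _) (by
      have h1 := minpoly.algHom_eq e'.toRatAlgHom e'.injective pb.gen
      have h2 := aeval_algHom_apply e.toRatAlgHom pb.gen (minpoly ℚ pb.gen)
      rw [minpoly.aeval, map_zero, ← h1] at h2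
      exact h2)
  exact ⟨g, RingHom.ext fun x => AlgHom.congr_fun
    (pb.algHom_ext (f := (g • e).toRatAlgHom) (g := e'.toRatAlgHom) hg) x⟩

lemma orb_top (e : F →+* Qb) : Orb (⊤ : Subgroup GA) e (finrank ℚ F) :=
  ⟨univ, (NumberField.Embeddings.card F Qb).le, fun _ _ => mem_univ _⟩

lemma idx_field (E : IntermediateField ℚ ℂ) [FiniteDimensional ℚ E] :
    ∃ N : Subgroup GA, IdxLe ⊤ N (finrank ℚ E) ∧
      ∀ (F : Type) [Field F] (e : F →+* Qb), (∀ x, dn e x ∈ E) → N ≤ stabilizer GA e := by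
  have : NumberField E := {}
  refine ⟨_, (orb_top (up (algebraMap E ℂ))).idx, fun F _ e h σ hσ => mem_stab.2 fun x => ?_⟩
  exact mem_stab.1 hσ ⟨_, h x⟩

lemma exists_sub (e : k →+* Qb) (H : Subgroup GA) (hH : stabilizer GA e ≤ H) :
    ∃ k₁ : IntermediateField ℚ k, stabilizer GA (e.comp (algebraMap k₁ k)) = H := by
  have hfd : FiniteDimensional ℚ e.toRatAlgHom.fieldRange :=
    (AlgEquiv.ofInjectiveField e.toRatAlgHom).toLinearEquiv.finiteDimensional
  have h1 : e.toRatAlgHom.fieldRange.fixingSubgroup ≤ H := fun σ hσ =>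
    hH (mem_stab.2 fun x => hσ ⟨_, x, rfl⟩)
  have h2 : IsClosed (H : Set GA) := H.isClosed_of_isOpen
    (Subgroup.isOpen_mono h1 (IntermediateField.fixingSubgroup_isOpen _))
  have h3 := InfiniteGalois.fixingSubgroup_fixedField (k := ℚ) ⟨H, h2⟩
  have h4 : IntermediateField.fixedField H ≤ e.toRatAlgHom.fieldRange := by
    rw [← InfiniteGalois.fixedField_fixingSubgroup e.toRatAlgHom.fieldRange]
    exact IntermediateField.fixedField_antitone h1
  refine ⟨(IntermediateField.fixedField H).comap e.toRatAlgHom, le_antisymm (fun g hg => ?_)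
    fun h hh => mem_stab.2 fun x => x.2 ⟨h, hh⟩⟩
  refine h3.le fun y => ?_
  obtain ⟨x, hx⟩ := h4 y.2
  have h5 := mem_stab.1 hg ⟨x, by
    change e.toRatAlgHom x ∈ IntermediateField.fixedField H
    rw [show e.toRatAlgHom x = y.1 from hx]; exact y.2⟩
  exact (congrArg g hx.symm).trans (h5.trans hx)

open IntermediateField in
lemma solv_fix [Group.IsSolvable (normalClosure ℚ k ℂ ≃ₐ[ℚ] normalClosure ℚ k ℂ)] :
    ∃ n, ∀ ν ∈ derivedSeries GA n, ∀ e : k →+* Qb, ν • e = e := by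
  obtain ⟨n, hn⟩ := Group.IsSolvable.solvable (G := normalClosure ℚ k ℂ ≃ₐ[ℚ] normalClosure ℚ k ℂ)
  have : Normal ℚ (normalClosure ℚ k ℂ) :=
    (Algebra.IsAlgebraic.isNormalClosure_normalClosure (F := ℚ) (K := k) (L := ℂ)
      fun _ => IsAlgClosed.splits _).normal
  have : NumberField (normalClosure ℚ k ℂ) := {}
  let _ : Algebra (normalClosure ℚ k ℂ) Qb := (up (algebraMap (normalClosure ℚ k ℂ) ℂ)).toAlgebra
  refine ⟨n, fun ν hν e => RingHom.ext fun x => ?_⟩
  have h1 := map_derivedSeries_le_derivedSeries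
    (AlgEquiv.restrictNormalHom (F := ℚ) (K₁ := Qb) (normalClosure ℚ k ℂ)) n ⟨ν, hν, rfl⟩
  rw [hn, Subgroup.mem_bot] at h1
  have h2 := ν.restrictNormal_commutes (normalClosure ℚ k ℂ)
    ⟨dn e x, (dn e).toRatAlgHom.fieldRange_le_normalClosure ⟨x, rfl⟩⟩
  rw [show ν.restrictNormal (normalClosure ℚ k ℂ) = 1 from h1] at h2
  exact h2.symm

lemma tup_field (x : F →+* Qb) {j : ℕ} (σ : Fin j → F →+* ℂ) (hσ : Function.Injective σ) :
    Tup GA x j (finrank ℚ ↥(⨆ l, (σ l).toRatAlgHom.fieldRange)) := by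
  have := fun l => finite_fieldRange (σ l)
  obtain ⟨N, hN, h⟩ := idx_field (⨆ l, (σ l).toRatAlgHom.fieldRange)
  choose g hg using fun l => emb_trans x (up (σ l))
  refine ⟨g, ?_, idx_le hN (le_iInf fun l => h F _ fun y => ?_)⟩
  · rw [funext hg]
    exact fun a b hab => hσ (congrArg dn hab)
  · rw [hg]
    exact le_iSup (fun l => (σ l).toRatAlgHom.fieldRange) l ⟨y, rfl⟩

lemma lam_int {y : Qb} (hy : IsIntegral ℤ y) : lam y = Real.posLog ‖(y : ℂ)‖ := by
  rw [lam, finsum_eq_single _ none, av_none]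
  rintro (_ | ⟨l, hl⟩) h
  · exact absurd rfl h
  · have : Fact l.Prime := ⟨hl⟩
    rw [av_some, Real.posLog_eq_zero_iff, abs_norm]
    exact norm_int_le (hy.map (io l).toRingHom.toIntAlgHom)

lemma ht_le {e : k →+* Qb} {z : Qb} {M : ℕ} (hM : IdxLe (stabilizer GA e) (St ℚ z) M)
    (hz : IsIntegral ℤ z) (T : Finset (k →+* Qb)) {s : ℝ} (hs : 0 ≤ s)
    (h1 : ∀ g : GA, g • e ∉ T → ‖(g z : ℂ)‖ = 1)
    (h2 : ∀ g : GA, g • e ∈ T → ‖(g z : ℂ)‖ ≤ Real.exp s) : ht z ≤ #T * s / finrank ℚ k := by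
  classical
  choose g hg using emb_trans e
  let T₁ : Trans ⊤ (stabilizer GA e) :=
    { ι := k →+* Qb
      fin := inferInstance
      r := g
      mem := fun _ => trivial
      ex := fun σ _ => ⟨σ • e, by rw [mem_stabilizer_iff, mul_smul, inv_smul_eq_iff, hg]⟩
      uniq := fun i j h => by
        rw [mem_stabilizer_iff, mul_smul, inv_smul_eq_iff, hg, hg] at h
        exact h.symm }
  obtain ⟨T₂, -⟩ := hM.restrict (A' := stabilizer GA e ⊓ St ℚ z) le_rfl le_rfl
  have h3 := ht_eq (T₁.comp T₂ le_top inf_le_left) (Fx.of_le inf_le_right : Fx _ z)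
  have h4 : T₁.card = finrank ℚ k := NumberField.Embeddings.card k Qb
  have h5 : ∀ e' : k →+* Qb, T₂.sum (fun τ => lam ((g e' * τ) z)) ≤
      T₂.card * if e' ∈ T then s else 0 := fun e' => by
    rw [Trans.sum, Trans.card, ← card_univ, ← nsmul_eq_mul]
    refine sum_le_card_nsmul _ _ _ fun i _ => ?_
    have h6 : (g e' * T₂.r i) • e = e' := by rw [mul_smul, mem_stabilizer_iff.1 (T₂.mem i), hg]
    rw [lam_int (y := (g e' * T₂.r i) z) (hz.map (g e' * T₂.r i).toRingEquiv.toRingHom.toIntAlgHom)]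
    split_ifs with h
    · have h7 := Real.posLog_le_posLog (norm_nonneg _) (h2 _ (h6.symm ▸ h))
      rwa [Real.posLog_eq_log (x := Real.exp s) (by rw [Real.abs_exp]; exact Real.one_le_exp hs),
        Real.log_exp] at h7
    · have h7 := h1 _ (h6.symm ▸ h)
      exact (congrArg Real.posLog h7).trans_le Real.posLog_one.le
  have h8 : ∑ e' : k →+* Qb, (T₂.card * if e' ∈ T then s else 0 : ℝ) = T₂.card * (#T * s) := by
    rw [← mul_sum, sum_ite_mem, univ_inter, sum_const, nsmul_eq_mul]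
  rw [Trans.comp_sum, Trans.comp_card, h4] at h3
  have h9 := h3.symm.trans_le ((sum_le_sum fun e' _ => h5 e').trans h8.le)
  rw [le_div_iff₀ (by exact_mod_cast finrank_pos)]
  refine le_of_mul_le_mul_left (le_of_eq_of_le ?_ h9) (card_posR T₂)
  push_cast
  ring

end Pool.Agent.Lib.MP_162bbe_gt
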