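import Pool.Agent.Lib.MP_162bbe_gt.TEmb
import Pool.Agent.Lib.MP_f61260_nt.AdAbs

set_option autoImplicit false

/-! Lower bound for the house of numbers with few conjugates off the unit circle. -/

namespace Pool.Agent.Lib.MP_162bbe_gt

open Finset MulAction Module Polynomial Pool.Agent.Lib.MP_f61260_nt

/-- the height bound in `n` variables with constants `c`, `κ` -/
def ADn (n : ℕ) (c : ℝ) (κ : ℕ) : Prop := ∀ a : Fin n → Qb, (∀ i, a i ≠ 0) →
  (∀ e : Fin n → ℤ, ∏ i, a i ^ e i = 1 → e = 0) → ∀ D : ℕ, IdxLe ⊤ (⨅ i, St ℚ (a i)) D →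
  ∀ H : ℝ, 0 ≤ H → (∀ i, ht (a i) ≤ H) → c ≤ H ^ n * D * Real.log (3 * D) ^ κ

lemma one_le_log {x : ℝ} (h : 1 ≤ x) : 1 ≤ Real.log (3 * x) := by
  rw [Real.le_log_iff_exp_le (by positivity)]
  linarith [Real.exp_one_lt_three]

lemma exists_AD (J : ℕ) : ∃ c : ℝ, 0 < c ∧ ∃ κ : ℕ, ∀ n < J, ADn n c κ := by
  induction J with
  | zero => exact ⟨1, one_pos, 0, fun n hn => absurd hn (by omega)⟩
  | succ J ih =>
    obtain ⟨c, hc, κ, h⟩ := ih
    obtain ⟨c', hc', κ', h'⟩ := AD J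
    refine ⟨min c c', lt_min hc hc', κ + κ', fun n hn a h1 h2 D h3 H h4 h5 => ?_⟩
    have h6 := one_le_log (show (1 : ℝ) ≤ D by exact_mod_cast idx_pos h3)
    rcases Nat.lt_succ_iff_lt_or_eq.1 hn with h7 | rfl
    · exact (min_le_left _ _).trans ((h n h7 a h1 h2 D h3 H h4 h5).trans
        (mul_le_mul_of_nonneg_left (pow_le_pow_right₀ h6 (by omega)) (by positivity)))
    · exact (min_le_right _ _).trans ((h' a h1 h2 D h3 H h5).trans
        (mul_le_mul_of_nonneg_left (pow_le_pow_right₀ h6 (by omega)) (by positivity)))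

lemma small_t (κ J : ℕ) : ∃ C : ℝ, 1 ≤ C ∧ ∀ d t : ℝ, 1 ≤ d → 0 ≤ t → t ^ (J + 1) ≤ d →
    ∀ j ≤ J, (t * Real.log (3 * d) ^ κ) ^ j ≤ C * d := by
  have h0 : (1 : ℝ) ≤ (κ * J * (J + 1)).factorial := by exact_mod_cast Nat.factorial_pos _
  refine ⟨3 * (κ * J * (J + 1)).factorial, by linarith, fun d t hd ht htd j hj => ?_⟩
  have h1 := one_le_log hd
  by_cases h : t * Real.log (3 * d) ^ κ ≤ 1
  · exact (pow_le_one₀ (by positivity) h).trans (by nlinarith)
  refine (pow_le_pow_right₀ (not_le.1 h).le hj).trans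
    (le_of_pow_le_pow_left₀ (Nat.succ_ne_zero J) (by positivity) ?_)
  have h2 := Real.pow_div_factorial_le_exp _ (zero_le_one.trans h1) (κ * J * (J + 1))
  rw [Real.exp_log (by positivity), div_le_iff₀ (by positivity)] at h2
  calc ((t * Real.log (3 * d) ^ κ) ^ J) ^ (J + 1)
      = (t ^ (J + 1)) ^ J * Real.log (3 * d) ^ (κ * J * (J + 1)) := by ring
    _ ≤ d ^ J * (3 * d * (κ * J * (J + 1)).factorial) := by gcongr
    _ = (1 * d) ^ J * (3 * (κ * J * (J + 1)).factorial * d) := by ring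
    _ ≤ (3 * (κ * J * (J + 1)).factorial * d) ^ J * (3 * (κ * J * (J + 1)).factorial * d) := by
        gcongr; linarith
    _ = _ := (pow_succ _ _).symm

lemma small_c {c₀ : ℝ} (hc₀ : 0 < c₀) (κ r M J : ℕ) (C : ℝ) : ∃ c : ℝ, 0 < c ∧
    ∀ (d t D : ℝ) (j : ℕ), 1 ≤ d → 0 ≤ t → 0 ≤ D → 1 ≤ M → 1 ≤ j → j ≤ J →
      D * (t * Real.log (3 * d) ^ κ) ^ j ≤ C * d ^ j →
      (r * (c * t) / d) ^ j * (D * (r * M) ^ j) * Real.log (3 * (d * M) ^ j) ^ κ < c₀ := by
  set K : ℝ := (r * (r * M) + 1) ^ J * (J * (1 + M)) ^ κ * (|C| + 1) + 1 with hK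
  have hK0 : 0 < K := by positivity
  refine ⟨min 1 (c₀ / K), lt_min one_pos (by positivity), fun d t D j hd ht hD hM hj hJ h => ?_⟩
  set c := min 1 (c₀ / K) with hc
  have hc0 : 0 < c := lt_min one_pos (by positivity)
  have hM' : (1 : ℝ) ≤ M := by exact_mod_cast hM
  have h1 := one_le_log hd
  have h2 : Real.log (3 * (d * M) ^ j) ≤ J * (1 + M) * Real.log (3 * d) := by
    have h3 : 3 * (d * M) ^ j ≤ (3 * d * M) ^ j := by
      rw [mul_assoc, mul_pow 3]
      exact mul_le_mul_of_nonneg_right (le_self_pow₀ (by norm_num) (by omega)) (by positivity)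
    refine (Real.log_le_log (by positivity) h3).trans ?_
    rw [Real.log_pow, Real.log_mul (by positivity) (by positivity), mul_assoc]
    have h4 := Real.log_le_sub_one_of_pos (show (0 : ℝ) < M by positivity)
    refine mul_le_mul (by exact_mod_cast hJ) (by nlinarith) (add_nonneg (by positivity)
      (Real.log_nonneg hM')) (by positivity)
  have h3 : 0 ≤ Real.log (3 * (d * M) ^ j) :=
    zero_le_one.trans (one_le_log (one_le_pow₀ (by nlinarith)))
  have h4 : c ^ j ≤ c₀ / K :=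
    (pow_le_of_le_one hc0.le (min_le_left _ _) (by omega)).trans (min_le_right _ _)
  have h5 : D * (t ^ j * Real.log (3 * d) ^ κ) / d ^ j ≤ |C| + 1 := by
    rw [div_le_iff₀ (by positivity)]
    refine le_trans ?_ (h.trans (mul_le_mul_of_nonneg_right (by linarith [le_abs_self C])
      (by positivity)))
    rw [mul_pow]
    gcongr
    exact le_self_pow₀ (one_le_pow₀ h1) (by omega)
  have h6 : ((r : ℝ) * (r * M)) ^ j ≤ (r * (r * M) + 1) ^ J :=
    (pow_le_pow_left₀ (by positivity) (by linarith) j).trans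
      (pow_le_pow_right₀ (by linarith [show (0 : ℝ) ≤ r * (r * M) by positivity]) hJ)
  calc _ ≤ (r * (c * t) / d) ^ j * (D * (r * M) ^ j) * (J * (1 + M) * Real.log (3 * d)) ^ κ := by
        gcongr
    _ = c ^ j * ((r * (r * M)) ^ j * (J * (1 + M)) ^ κ *
          (D * (t ^ j * Real.log (3 * d) ^ κ) / d ^ j)) := by
        simp only [mul_pow, div_pow]; ring
    _ ≤ c₀ / K * ((r * (r * M) + 1) ^ J * (J * (1 + M)) ^ κ * (|C| + 1)) := by gcongr
    _ < c₀ / K * K := by gcongr; linarith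
    _ = c₀ := by field_simp

variable {k : Type} [Field k] [NumberField k]

theorem core_bound {j κ r D : ℕ} {c s : ℝ} (hAD : ADn j c κ) {χ : k[X]} (hχ : χ.Monic)
    {T : Finset (k →+* Qb)} (hT : #T ≤ r) {e : k →+* Qb} {z : Qb} (hz : eval₂ e z χ = 0)
    (hz0 : z ≠ 0) (hint : IsIntegral ℤ z) (hs : 0 ≤ s)
    (h1 : ∀ g : GA, g • e ∉ T → ‖(g z : ℂ)‖ = 1)
    (h2 : ∀ g : GA, g • e ∈ T → ‖(g z : ℂ)‖ ≤ Real.exp s) (g : Fin j → GA)
    (hind : ∀ n : Fin j → ℤ, ∏ a, g a z ^ n a = 1 → n = 0) {V : Subgroup GA} (hV : IdxLe ⊤ V D)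
    (hg : ∀ σ ∈ V, ∀ a, ((g a)⁻¹ * σ * g a) • e ∈ T) :
    c ≤ (r * s / finrank ℚ k) ^ j * (D * (r * χ.natDegree) ^ j) *
      Real.log (3 * (finrank ℚ k * χ.natDegree) ^ j) ^ κ := by
  classical
  obtain ⟨R, hR, hR'⟩ := orb_root hχ T hz
  have hM := idx_root hχ hz
  have i1 : IdxLe ⊤ (⨅ a, St ℚ (g a z)) (D * (r * χ.natDegree) ^ j) := by
    have := IdxLe.iInf fun a => (idx_of_finset (B := V) (y := g a z) (R.image (g a)) fun σ hσ =>
      mem_image.2 ⟨_, hR' _ (hg σ hσ a), by simp⟩).mono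
        (card_image_le.trans (hR.trans (Nat.mul_le_mul_right _ hT)))
    rw [prod_const, card_univ, Fintype.card_fin] at this
    exact idx_tri hV this
  have i2 : IdxLe ⊤ (⨅ a, St ℚ (g a z)) ((finrank ℚ k * χ.natDegree) ^ j) := by
    have := IdxLe.iInf fun a => ((orb_of_idx (idx_tri (orb_top e).idx hM)).top_smul (g a)).idx
    rw [prod_const, card_univ, Fintype.card_fin] at this
    exact this
  have i3 := idx_min i1 i2
  have i4 : (1 : ℝ) ≤ (min (D * (r * χ.natDegree) ^ j) ((finrank ℚ k * χ.natDegree) ^ j) : ℕ) := by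
    exact_mod_cast idx_pos i3
  refine (hAD _ (fun a => (_root_.map_ne_zero _).2 hz0) hind _ i3 (r * s / finrank ℚ k) (by positivity)
    fun a => ?_).trans ?_
  · rw [ht_conj]
    refine (ht_le hM hint T hs h1 h2).trans ?_
    gcongr
  · have := one_le_log i4
    gcongr
    · exact_mod_cast min_le_left _ _
    · exact_mod_cast min_le_right _ _

omit [NumberField k] in
lemma indep_of {j : ℕ} {T : Finset (k →+* Qb)} {e : k →+* Qb} {z : Qb} (hz1 : ‖(z : ℂ)‖ ≠ 1)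
    (h1 : ∀ g : GA, g • e ∉ T → ‖(g z : ℂ)‖ = 1) (g : Fin j → GA) {n : Fin j → ℤ}
    (hn : ∏ a, g a z ^ n a = 1) (a : Fin j) (w : GA) (hw : w (g a z) = z)
    (h : ∀ b, b ≠ a → (w * g b) • e ∉ T ∨ n b = 0) : n a = 0 := by
  have h2 := congrArg (fun y => ‖algebraMap Qb ℂ (w y)‖) hn
  simp only [map_prod, map_zpow₀, norm_prod, norm_zpow, map_one, norm_one] at h2
  rw [prod_eq_single a (fun b _ hb => ?_) (by simp), hw] at h2
  · exact (zpow_eq_one_iff_right₀ (norm_nonneg _) hz1).1 h2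
  · rcases h b hb with h3 | h3
    · rw [show ‖algebraMap Qb ℂ (w (g b z))‖ = 1 from h1 _ h3, one_zpow]
    · rw [h3, zpow_zero]

theorem salem_n (M r m : ℕ) : ∃ κ : ℕ, ∀ C : ℝ, ∃ c : ℝ, 0 < c ∧
    ∀ (k : Type) [Field k] [NumberField k] (χ : k[X]) (T : Finset (k →+* Qb)) (e : k →+* Qb)
      (z : Qb) (t : ℝ), χ.Monic → χ.natDegree = M → #T ≤ r → 0 ≤ t →
      t ^ (m + 5) ≤ finrank ℚ k → eval₂ e z χ = 0 → IsIntegral ℤ z → z ≠ 0 → ‖(z : ℂ)‖ ≠ 1 →
      (∀ g : GA, g • e ∉ T → ‖(g z : ℂ)‖ = 1) →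
      (∀ k₁ : IntermediateField ℚ k,
        (∀ g ∈ stabilizer GA (e.comp (algebraMap k₁ k)), g • e ∈ T) →
        ∃ j D : ℕ, 1 ≤ j ∧ j ≤ m + 4 ∧ Tup GA (e.comp (algebraMap k₁ k)) j D ∧
          ((D : ℝ) * (t * Real.log (3 * finrank ℚ k) ^ κ) ^ j ≤ C * finrank ℚ k ^ j ∨
            D ≤ (m + 1) * finrank ℚ k ^ (j - 1))) →
      ∃ g : GA, g • e ∈ T ∧ Real.exp (c * t) < ‖(g z : ℂ)‖ := by
  classical
  obtain ⟨c₀, hc₀, κ, hAD⟩ := exists_AD (m + 5)
  obtain ⟨C₁, hC₁, hsm⟩ := small_t κ (m + 4)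
  refine ⟨κ, fun C => ?_⟩
  set B := M * ((m + 4) * r) + 1 with hB
  set B' := B ^ 2 ^ r + (m + 1) with hB'
  obtain ⟨c, hc, hcc⟩ := small_c hc₀ κ r M (m + 4) (max C (B' * C₁))
  refine ⟨c, hc, fun k _ _ χ T e z t hχ hM hT ht htd hz hint hz0 hz1 h1 hyp => ?_⟩
  by_contra hcon
  push Not at hcon
  have hd : (1 : ℝ) ≤ finrank ℚ k := by exact_mod_cast finrank_pos
  have hM1 := idx_root hχ hz
  rw [hM] at hM1
  have key : ∀ (j D : ℕ) (g : Fin j → GA) (V : Subgroup GA), 1 ≤ j → j ≤ m + 4 →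
      (∀ n : Fin j → ℤ, ∏ a, g a z ^ n a = 1 → n = 0) → IdxLe ⊤ V D →
      (∀ σ ∈ V, ∀ a, ((g a)⁻¹ * σ * g a) • e ∈ T) →
      ((D : ℝ) * (t * Real.log (3 * finrank ℚ k) ^ κ) ^ j ≤ C * finrank ℚ k ^ j ∨
        D ≤ B' * finrank ℚ k ^ (j - 1)) → False := by
    intro j D g V hj hj' hind hV hg h
    have h2 := core_bound (hAD j (by omega)) hχ hT hz hz0 hint (by positivity) h1 hcon g hind hV hg
    rw [hM] at h2
    refine absurd h2 (not_le.2 (hcc _ t D j hd ht (by positivity) (idx_pos hM1) hj hj' ?_))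
    rcases h with h | h
    · exact h.trans (mul_le_mul_of_nonneg_right (le_max_left _ _) (by positivity))
    · have h3 : (D : ℝ) ≤ B' * finrank ℚ k ^ (j - 1) := by exact_mod_cast h
      have h4 := one_le_log hd
      refine (mul_le_mul h3 (hsm _ t hd ht htd j hj') (by positivity) (by positivity)).trans ?_
      refine le_trans (le_of_eq ?_) (mul_le_mul_of_nonneg_right (le_max_right _ _) (by positivity))
      obtain ⟨i, rfl⟩ := Nat.exists_eq_add_of_le' hj
      rw [Nat.add_sub_cancel]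
      ring
  have he : e ∈ T := by_contra fun h => hz1 (h1 1 h)
  rcases block (𝒢 := GA) e T hT (show 1 ≤ B by omega) with ⟨g, hg, ho⟩ | ⟨H, hH, hHT, hHo⟩
  · refine key 2 (finrank ℚ k * B ^ 2 ^ r) ![1, g] (stabilizer GA e ⊓ stabilizer GA (g • e))
      (by omega) (by omega) (fun n hn => ?_)
      (idx_tri (orb_top e).idx (ho.idx.restrict le_rfl le_rfl)) (fun σ hσ a => ?_) (Or.inr ?_)
    · have h2 : n 0 = 0 := indep_of hz1 h1 _ hn 0 1 rfl fun b hb => by
        fin_cases b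
        · exact absurd rfl hb
        · exact Or.inl hg
      have h3 : n 1 = 0 := indep_of hz1 h1 _ hn 1 g⁻¹ (by simp) fun b hb => by
        fin_cases b
        · exact Or.inr h2
        · exact absurd rfl hb
      funext a
      fin_cases a
      exacts [h2, h3]
    · fin_cases a
      · simpa [mem_stabilizer_iff.1 hσ.1] using he
      · simpa [mul_smul, mem_stabilizer_iff.1 hσ.2] using he
    · rw [mul_comm]
      exact Nat.mul_le_mul (by omega) (by simp)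
  · obtain ⟨k₁, rfl⟩ := exists_sub e H hH
    obtain ⟨j, D, hj, hj', ⟨g, hg, hV⟩, h⟩ := hyp k₁ hHT
    refine key j D g _ hj hj' (fun n hn => funext fun a => ?_) hV (fun σ hσ a => hHT _ ?_)
      (h.imp_right fun h => h.trans (Nat.mul_le_mul_right _ (by omega)))
    · obtain ⟨u, hu, hu'⟩ := avoid e T hT _ hM1 (univ.erase a) (fun b => ((g a)⁻¹ * g b) • e)
        fun b hb h => hHo _ (fun h' => (mem_erase.1 hb).1 (hg (by
          rwa [mem_stabilizer_iff, mul_smul, inv_smul_eq_iff] at h'))) (h.mono (by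
          have : #(univ.erase a) ≤ m + 4 := (card_le_univ _).trans (by simpa using hj')
          exact (Nat.mul_le_mul_left _ (Nat.mul_le_mul_right _ this)).trans (Nat.le_succ _)))
      refine indep_of hz1 h1 g hn a (u * (g a)⁻¹) (by simpa using mem_St.1 hu) fun b hb =>
        Or.inl ?_
      rw [mul_assoc, mul_smul]
      exact hu' b (mem_erase.2 ⟨hb, mem_univ _⟩)
    · exact mem_stabilizer_iff.2 (by
        rw [mul_smul, mul_smul, inv_smul_eq_iff]; exact Subgroup.mem_iInf.1 hσ a)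

end Pool.Agent.Lib.MP_162bbe_gt
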