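import Pool.Agent.Lib.MP_162bbe_gt.Core

set_option autoImplicit false

/-! Choice of parameters. -/

namespace Pool.Agent.Lib.MP_162bbe_gt

open Finset NumberField

lemma pi_lower {u e : ℕ} (hu : 256 * (e + 1) ^ 2 ≤ u) :
    4 * u ^ e ≤ #(Nat.primesLE (u ^ (e + 1))) := by
  rw [Nat.primesLE_card_eq_primeCounting]
  have h := Chebyshev.pi_ge (u ^ (e + 1))
  have hu1 : 256 ≤ u := le_trans (Nat.le_mul_of_pos_right _ (by positivity)) hu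
  have hu' : (256 : ℝ) ≤ u := by exact_mod_cast hu1
  have hlog : ∀ t : ℝ, 0 < t → Real.log t ≤ 2 * √t := fun t ht => by
    have := Real.log_le_sub_one_of_pos (Real.sqrt_pos.2 ht)
    rw [Real.log_sqrt ht.le] at this
    linarith
  set M : ℝ := ((u ^ (e + 1) : ℕ) : ℝ) with hM
  have hMu : M = (u : ℝ) ^ e * u := by rw [hM]; push_cast; ring
  have hue : (1 : ℝ) ≤ (u : ℝ) ^ e := one_le_pow₀ (by linarith)
  have hM1 : (256 : ℝ) ≤ M := by rw [hMu]; nlinarith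
  have h1 : Real.log (M + 1) ≤ M / 6 := by
    refine (hlog _ (by linarith)).trans ?_
    have : √(M + 1) ≤ M / 12 := Real.sqrt_le_iff.2 ⟨by positivity, by nlinarith⟩
    linarith
  have h2 : Real.log M ≤ u / 8 := by
    rw [hM, Nat.cast_pow, Real.log_pow]
    have k1 := hlog u (by linarith)
    have k2 : (16 * (e + 1) : ℝ) ≤ √u := Real.le_sqrt_of_sq_le (by
      have : ((256 * (e + 1) ^ 2 : ℕ) : ℝ) ≤ u := by exact_mod_cast hu
      push_cast at this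
      nlinarith)
    have k3 : √(u : ℝ) * √u = u := Real.mul_self_sqrt (by positivity)
    have k4 : 0 ≤ √(u : ℝ) := Real.sqrt_nonneg _
    push_cast
    have k5 : ((e : ℝ) + 1) * Real.log u ≤ (e + 1) * (2 * √u) := by gcongr
    nlinarith
  have h3 : 0 < Real.log M := Real.log_pos (by linarith)
  have h4 : (4 : ℝ) * u ^ e ≤ (M * Real.log 2 - Real.log (M + 1)) / Real.log M := by
    rw [le_div_iff₀ h3]
    have := Real.log_two_gt_d9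
    have k1 : (4 : ℝ) * u ^ e * Real.log M ≤ 4 * u ^ e * (u / 8) := by gcongr
    nlinarith
  exact_mod_cast h4.trans h

lemma height_cond {r C u n a D : ℕ} (hr : 1 ≤ r) {E : ℕ} (hD : D ^ r ≤ C * n ^ (2 * r - 1))
    (hC : (2 ^ r * C) ^ (4 * r) ≤ n) (hu : u ^ (2 * E * (4 * r - 1)) ≤ n)
    (ha : a ^ (2 * (4 * r - 1)) ≤ (2 * D) ^ (4 * r)) (hn : 1 ≤ n) : u ^ E * a ≤ n := by
  by_contra h
  have h1 : n ^ (2 * (4 * r - 1) * r) < (u ^ E * a) ^ (2 * (4 * r - 1) * r) :=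
    Nat.pow_lt_pow_left (not_le.1 h) (by
      have : 0 < 4 * r - 1 := by omega
      positivity)
  have h2 : (u ^ E * a) ^ (2 * (4 * r - 1) * r) =
      (u ^ (2 * E * (4 * r - 1))) ^ r * (a ^ (2 * (4 * r - 1))) ^ r := by
    rw [mul_pow, ← pow_mul, ← pow_mul, ← pow_mul]; congr 2; ring
  have h3 : (a ^ (2 * (4 * r - 1))) ^ r ≤ n * n ^ ((2 * r - 1) * (4 * r)) :=
    calc _ ≤ ((2 * D) ^ (4 * r)) ^ r := Nat.pow_le_pow_left ha r
      _ = (2 ^ r * D ^ r) ^ (4 * r) := by rw [← mul_pow, ← pow_mul, ← pow_mul, mul_comm r]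
      _ ≤ (2 ^ r * (C * n ^ (2 * r - 1))) ^ (4 * r) := by gcongr
      _ = (2 ^ r * C) ^ (4 * r) * n ^ ((2 * r - 1) * (4 * r)) := by
          rw [← mul_assoc, mul_pow, ← pow_mul]
      _ ≤ _ := by gcongr
  have h4 : (u ^ E * a) ^ (2 * (4 * r - 1) * r) ≤ n ^ (r + 1 + (2 * r - 1) * (4 * r)) := by
    rw [h2, add_assoc, pow_add, pow_add, pow_one]
    exact Nat.mul_le_mul (Nat.pow_le_pow_left hu r) h3
  have h5 : r + 1 + (2 * r - 1) * (4 * r) ≤ 2 * (4 * r - 1) * r := by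
    obtain ⟨t, rfl⟩ := Nat.exists_eq_add_of_le hr
    rw [show 2 * (1 + t) - 1 = 2 * t + 1 by omega, show 4 * (1 + t) - 1 = 4 * t + 3 by omega]
    nlinarith
  exact absurd (h4.trans (Nat.pow_le_pow_right hn h5)) (not_le.2 h1)

lemma exists_root_bound {n k : ℕ} (hk : 1 ≤ k) (hn : 1 ≤ n) :
    ∃ u : ℕ, n ≤ u ^ k ∧ (u - 1) ^ k < n := by
  classical
  have hex : ∃ u, n ≤ u ^ k := ⟨n, Nat.le_self_pow (by omega) n⟩
  have h1 := Nat.find_spec hex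
  refine ⟨_, h1, not_le.1 (Nat.find_min hex ?_)⟩
  have : Nat.find hex ≠ 0 := fun h => by
    rw [h, zero_pow (by omega)] at h1; omega
  omega

lemma num1 {k s u : ℕ} (h1 : 32 * k ≤ u) (h2 : 32 * s ≤ u) : 16 * (k + s * u) ≤ u ^ 2 := by
  have : u ≤ u * u := Nat.le_mul_self u
  nlinarith

lemma num2 {r κ u q : ℕ} (hr : 1 ≤ r) (hκ : κ ≤ u) (hu : 1 ≤ u) (hq : u ^ (16 * r) + 1 ≤ q) :
    κ ^ (4 * r) * (u ^ (16 * r + 3)) ^ (4 * r - 1) < q ^ (4 * r) :=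
  calc _ ≤ u ^ (4 * r) * (u ^ (16 * r + 3)) ^ (4 * r - 1) := by gcongr
    _ ≤ (u ^ (16 * r)) ^ (4 * r) := by
        rw [← pow_mul, ← pow_mul, ← pow_add]
        refine Nat.pow_le_pow_right hu ?_
        obtain ⟨t, rfl⟩ := Nat.exists_eq_add_of_le hr
        rw [show 4 * (1 + t) - 1 = 4 * t + 3 by omega]
        nlinarith
    _ < _ := Nat.pow_lt_pow_left hq (by omega)

lemma num3 {u m n : ℕ} (hu : 256 ≤ u) (h : (u - 1) ^ (2 * m) < n) : u ^ m ≤ n := by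
  refine le_trans ?_ h.le
  rw [pow_mul]
  refine Nat.pow_le_pow_left ?_ _
  obtain ⟨t, rfl⟩ := Nat.exists_eq_add_of_le hu
  rw [show 256 + t - 1 = 255 + t by omega]
  nlinarith

lemma num4 {s κ u a b n : ℕ} (h : 4 * s * κ < u) (e1 : u ^ (2 * b + 6) * a ≤ n) (hn : 0 < n) :
    2 * s * u * (κ * a * u ^ (b + 3) * u ^ (b + 1)) ≤ n ∧ 4 * s * (κ * a) < n := by
  constructor
  · calc _ = (2 * s * κ) * (u ^ (2 * b + 5) * a) := by ring
      _ ≤ u * (u ^ (2 * b + 5) * a) := Nat.mul_le_mul_right _ (by nlinarith)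
      _ = u ^ (2 * b + 6) * a := by ring
      _ ≤ n := e1
  · rcases Nat.eq_zero_or_pos a with rfl | ha0
    · simpa using hn
    · calc 4 * s * (κ * a) = (4 * s * κ) * a := by ring
        _ < u * a := Nat.mul_lt_mul_of_pos_right h ha0
        _ ≤ u ^ (2 * b + 6) * a := Nat.mul_le_mul_right _ (Nat.le_self_pow (by omega) _)
        _ ≤ n := e1

lemma num5 {u k n : ℕ} (hu : 256 ≤ u) (hk : 32 * k ≤ u) (hn : n ≤ u ^ k) :
    4 * n ^ 5 < 2 ^ u ^ 2 :=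
  calc 4 * n ^ 5 ≤ u ^ 2 * (u ^ k) ^ 5 := Nat.mul_le_mul (by nlinarith) (Nat.pow_le_pow_left hn 5)
    _ = u ^ (5 * k + 2) := by ring
    _ < (2 ^ u) ^ (5 * k + 2) := Nat.pow_lt_pow_left Nat.lt_two_pow_self (by omega)
    _ ≤ _ := by
        rw [← pow_mul, sq]
        exact Nat.pow_le_pow_right (by norm_num) (Nat.mul_le_mul_left _ (by omega))

theorem core (r C s : ℕ) (hr : 1 ≤ r) (hs : 1 ≤ s) : ∃ k n₀ : ℕ, 1 ≤ k ∧
    ∀ (N : Type) [Field N] [NumberField N] [IsGalois ℚ N] (j : N →+* ℂ) (P : Polynomial ℤ)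
      (x : Fin 2 → 𝓞 N) (n : ℕ), n₀ ≤ n → P.Monic → (∀ l, Polynomial.aeval (x l) P = 0) →
      dd P x ≠ 0 → (∀ l, (x l : N) ≠ 0) →
      (∀ l, n * #(bad j (x l : N)) ≤ s * Fintype.card (N ≃ₐ[ℚ] N)) →
      (∀ l, #(offc j (x l : N)) ≤ s) →
      (∃ g : N ≃ₐ[ℚ] N, ‖j (g (x 0))‖ ≠ 1 ∧ ‖j (g (x 1))‖ = 1) →
      (∃ g : N ≃ₐ[ℚ] N, ‖j (g (x 1))‖ ≠ 1) → (∃ g : N ≃ₐ[ℚ] N, 1 < ‖j (g (x 0))‖) →
      #(orb (fun l => (x l : N)) 1) ^ r ≤ C * n ^ (2 * r - 1) →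
      (∀ H : ℝ, 0 ≤ H → (∀ (g : N ≃ₐ[ℚ] N) l, ‖j (g (x l))‖ ≤ Real.exp H) →
        (nrm (dd P x) : ℝ) ≤ (n * Real.exp (s * H)) ^ (4 * Fintype.card (N ≃ₐ[ℚ] N))) →
      ∃ (g : N ≃ₐ[ℚ] N) (l : Fin 2), Real.exp ((n : ℝ) ^ (1 / k : ℝ)) < ‖j (g (x l))‖ := by
  classical
  obtain ⟨b, hb⟩ : ∃ b, b = 16 * r := ⟨_, rfl⟩
  obtain ⟨k, hk⟩ : ∃ k, k = 2 * (2 * (2 * b + 6) * (4 * r - 1)) := ⟨_, rfl⟩
  obtain ⟨T₁, hT₁⟩ : ∃ T₁, T₁ = k * 10 + 1 := ⟨_, rfl⟩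
  obtain ⟨T₀, hT₀⟩ : ∃ T₀, T₀ = T₁ + k * (2 * T₁ + 8) := ⟨_, rfl⟩
  obtain ⟨κ, hκ⟩ : ∃ κ, κ = 10 * T₀ * (T₀ + 5) := ⟨_, rfl⟩
  have hk1 : 1 ≤ k := by
    have : 0 < 4 * r - 1 := by omega
    rw [hk]; exact Nat.succ_le_of_lt (by positivity)
  have hT₁1 : 1 ≤ T₁ := by omega
  have hT₀1 : 1 ≤ T₀ := hT₀ ▸ le_add_right hT₁1
  have hTT : T₀ + 1 - T₁ = k * (2 * T₁ + 8) + 1 := by omega
  refine ⟨k, (256 * (b + 3) ^ 2 + 32 * k + 32 * s + 4 * (s * κ) ^ 2) ^ k +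
    (2 ^ r * C) ^ (4 * r) + 3, hk1, ?_⟩
  intro N _ _ _ j P x n hn hP hx hδ hx0 hbad hoff h0 h1 h2 hD hdisc
  have hn3 : 3 ≤ n := by omega
  have hC : (2 ^ r * C) ^ (4 * r) ≤ n := by omega
  obtain ⟨u, hnu, hu1⟩ := exists_root_bound hk1 (show 1 ≤ n by omega)
  have hUu : 256 * (b + 3) ^ 2 + 32 * k + 32 * s + 4 * (s * κ) ^ 2 < u :=
    lt_of_pow_lt_pow_left₀ k (Nat.zero_le _) (by omega)
  clear hn
  have hU1 : 256 * (b + 3) ^ 2 ≤ u := by omega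
  have hU2 : 32 * k ≤ u := by omega
  have hU3 : 32 * s ≤ u := by omega
  have hU4 : 4 * (s * κ) ^ 2 < u := by omega
  have hU5 : 4 * s * κ < u := by
    have := Nat.le_self_pow two_ne_zero (s * κ)
    rw [mul_assoc]; omega
  have hU6 : κ ≤ u := by
    have := Nat.le_mul_of_pos_left κ (show 0 < 4 * s by omega)
    omega
  clear hUu
  have hu256 : 256 ≤ u := le_trans (Nat.le_mul_of_pos_right _ (by positivity)) hU1
  have hu' : (256 : ℝ) ≤ u := by exact_mod_cast hu256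
  by_contra hcon
  push Not at hcon
  have hH : ∀ (g : N ≃ₐ[ℚ] N) l, ‖j (g (x l))‖ ≤ Real.exp u := fun g l =>
    (hcon g l).trans (Real.exp_le_exp.2 (by
      rw [one_div, Real.rpow_inv_le_iff_of_pos (by positivity) (by positivity)
        (by exact_mod_cast hk1), Real.rpow_natCast]
      exact_mod_cast hnu))
  obtain ⟨G, hG⟩ : ∃ G, G = Fintype.card (N ≃ₐ[ℚ] N) := ⟨_, rfl⟩
  have hG0 : 0 < G := hG ▸ Fintype.card_pos
  have hBad : ∀ S : Finset ℕ, (∀ p ∈ S, p.Prime ∧ u ≤ p) →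
      #{p ∈ S | p ^ G ∣ nrm (dd P x) ^ 4} ≤ u ^ 2 := by
    intro S hS
    have e1 := card_bad_le (u := u) (D := G) (pow_ne_zero 4 (nrm_ne_zero hδ))
      {p ∈ S | p ^ G ∣ nrm (dd P x) ^ 4} fun p hp =>
        ⟨(hS p (mem_filter.1 hp).1).1, (hS p (mem_filter.1 hp).1).2, (mem_filter.1 hp).2⟩
    have e2 : (n * Real.exp (s * u) : ℝ) ≤ u ^ (k + s * u) := by
      rw [pow_add, ← Nat.cast_mul, ← mul_one ((s * u : ℕ) : ℝ), Real.exp_nat_mul]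
      have : (n : ℝ) ≤ u ^ k := by exact_mod_cast hnu
      have h3 : Real.exp 1 ≤ u := by linarith [Real.exp_one_lt_d9]
      gcongr
    have e3 : (nrm (dd P x) : ℝ) ≤ (u ^ (k + s * u)) ^ (4 * G) :=
      hG ▸ (hdisc u (by positivity) hH).trans (pow_le_pow_left₀ (by positivity) e2 _)
    have e4 : nrm (dd P x) ≤ (u ^ (k + s * u)) ^ (4 * G) := by exact_mod_cast e3
    have e5 := e1.trans (Nat.pow_le_pow_left e4 4)
    rw [← pow_mul, ← pow_mul, pow_le_pow_iff_right₀ (by omega)] at e5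
    exact (Nat.le_of_mul_le_mul_right (e5.trans (le_of_eq (by ring))) hG0).trans (num1 hU2 hU3)
  have hcount : ∀ e v : ℕ, e ≤ b + 2 → u ≤ v →
      4 * u ^ e ≤ #{p ∈ Nat.primesLE (u ^ (e + 1)) | v ≤ p ∧ ¬ p ^ G ∣ nrm (dd P x) ^ 4} + v +
        u ^ 2 := by
    intro e v he hv
    refine (pi_lower (le_trans (Nat.mul_le_mul_left _ (Nat.pow_le_pow_left (by omega) 2))
      hU1)).trans ?_
    have k1 := hBad {p ∈ Nat.primesLE (u ^ (e + 1)) | v ≤ p} fun p hp =>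
      ⟨Nat.prime_of_mem_primesLE (mem_filter.1 hp).1, hv.trans (mem_filter.1 hp).2⟩
    refine le_trans (card_le_card (t := ({p ∈ Nat.primesLE (u ^ (e + 1)) |
      v ≤ p ∧ ¬ p ^ G ∣ nrm (dd P x) ^ 4} ∪ range v) ∪
      {p ∈ {p ∈ Nat.primesLE (u ^ (e + 1)) | v ≤ p} | p ^ G ∣ nrm (dd P x) ^ 4}) fun p hp => ?_) ?_
    · simp only [mem_union, mem_filter, mem_range, hp, true_and]
      by_cases hv : v ≤ p
      · by_cases hd : p ^ G ∣ nrm (dd P x) ^ 4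
        · exact Or.inr ⟨hv, hd⟩
        · exact Or.inl (Or.inl ⟨hv, hd⟩)
      · exact Or.inl (Or.inr (not_le.1 hv))
    · refine (card_union_le _ _).trans (add_le_add ((card_union_le _ _).trans ?_) k1)
      rw [card_range]
  have hub : u ^ 2 ≤ u ^ b := Nat.pow_le_pow_right (by omega) (by omega)
  have hu2 : u ≤ u ^ 2 := Nat.le_self_pow two_ne_zero u
  have hpow : ∀ e p, u ≤ p → n ^ e < p ^ (k * e + 1) := fun e p hp =>
    calc n ^ e ≤ (u ^ k) ^ e := Nat.pow_le_pow_left hnu e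
      _ < u ^ (k * e + 1) := by rw [← pow_mul]; exact Nat.pow_lt_pow_right (by omega) (by omega)
      _ ≤ _ := Nat.pow_le_pow_left hp _
  subst hG
  refine core_param j hP hx hδ hx0 (k := 4 * r) (T₀ := T₀) (T₁ := T₁) (p₁ := u ^ (b + 3))
    (q₁ := u ^ (b + 1)) (H := u) (by positivity) hn3 hs (by omega) hbad hoff h0 h1 h2 hH
    le_rfl hT₁1 hT₀1 hκ
    {p ∈ Nat.primesLE (u ^ (b + 2 + 1)) | u ≤ p ∧
      ¬ p ^ Fintype.card (N ≃ₐ[ℚ] N) ∣ nrm (dd P x) ^ 4}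
    {p ∈ Nat.primesLE (u ^ (b + 1)) | u ^ b + 1 ≤ p ∧
      ¬ p ^ Fintype.card (N ≃ₐ[ℚ] N) ∣ nrm (dd P x) ^ 4}
    (fun p hp => ?_) (fun q hq => ?_) (fun a ha => ?_) ?_ ?_
  · obtain ⟨k1, k2, k3⟩ := mem_filter.1 hp
    exact ⟨Nat.prime_of_mem_primesLE k1, k3, Nat.le_of_mem_primesLE k1, hTT ▸ hpow _ _ k2⟩
  · obtain ⟨k1, k2, k3⟩ := mem_filter.1 hq
    refine ⟨Nat.prime_of_mem_primesLE k1, k3, Nat.le_of_mem_primesLE k1,
      hT₁ ▸ hpow _ _ (by omega), ?_⟩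
    rw [hb] at k2 ⊢
    exact num2 hr hU6 (by omega) k2
  · obtain ⟨e1, e2⟩ := num4 (b := b) hU5 (height_cond (u := u) hr hD hC
      (num3 hu256 (hk ▸ hu1)) ha (by omega)) (by omega)
    exact ⟨by exact_mod_cast e1, e2⟩
  · have e1 := hcount b (u ^ b + 1) (by omega) (by omega)
    exact lt_of_lt_of_le (num5 hu256 hU2 hnu) (Nat.pow_le_pow_right (by norm_num) (by omega))
  · have e1 := hcount (b + 2) u le_rfl le_rfl
    have e2 : u ^ 2 ≤ u ^ (b + 2) := Nat.pow_le_pow_right (by omega) (by omega)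
    have e3 : 2 * s ^ 2 * κ ^ 2 * u ^ (b + 1) < u ^ (b + 2) := by
      rw [pow_succ' u (b + 1)]
      refine Nat.mul_lt_mul_of_pos_right ?_ (by positivity)
      rw [mul_assoc, ← mul_pow]; omega
    omega

end Pool.Agent.Lib.MP_162bbe_gt
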