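import Mathlib

set_option autoImplicit false

/-! Polynomials in two variables: dimension counts, a Bezout bound, degree sums. -/

namespace Pool.Agent.Lib.MP_162bbe_gt

open MvPolynomial Finset Module

/-- exponents of degree at most `n` -/
noncomputable def Sx (n : ℕ) : Finset (Fin 2 →₀ ℕ) :=
  (range (n + 1)).biUnion fun k => (univ : Finset (Fin 2)).finsuppAntidiag k

lemma mem_Sx {n : ℕ} {e : Fin 2 →₀ ℕ} : e ∈ Sx n ↔ e 0 + e 1 ≤ n := by
  simp only [Sx, mem_biUnion, mem_range, mem_finsuppAntidiag, Fin.sum_univ_two, subset_univ,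
    and_true]
  constructor
  · rintro ⟨k, hk, h⟩; omega
  · intro h; exact ⟨_, by omega, rfl⟩

lemma card_Sx (n : ℕ) : 2 * (Sx n).card = (n + 1) * (n + 2) := by
  rw [Sx, card_biUnion]
  · have : ∀ k, ((univ : Finset (Fin 2)).finsuppAntidiag k).card = k + 1 := fun k => by
      rw [card_finsuppAntidiag_nat_eq_choose]
      simp only [card_univ, Fintype.card_fin]
      rw [show 2 + k - 1 = k + 1 by omega, Nat.choose_succ_self_right]
    simp only [this]
    induction n with
    | zero => simp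
    | succ n ih => rw [sum_range_succ, mul_add, ih]; ring
  · intro a _ b _ hab
    rw [Function.onFun, disjoint_left]
    intro e h1 h2
    rw [mem_finsuppAntidiag] at h1 h2
    exact hab (h1.1.symm.trans h2.1)

lemma sum_fin2 (e : Fin 2 →₀ ℕ) : (e.sum fun _ k => k) = e 0 + e 1 := by
  rw [Finsupp.sum_fintype _ _ (fun _ => rfl), Fin.sum_univ_two]

lemma degree_fin2 (e : Fin 2 →₀ ℕ) : e.degree = e 0 + e 1 := by
  rw [Finsupp.degree_eq_sum, Fin.sum_univ_two]

lemma mem_Sx_of_mem_support {R : Type*} [CommSemiring R] {P : MvPolynomial (Fin 2) R} {n : ℕ}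
    (h : P.totalDegree ≤ n) {e : Fin 2 →₀ ℕ} (he : e ∈ P.support) : e ∈ Sx n := by
  rw [mem_Sx, ← sum_fin2]
  exact (le_totalDegree he).trans h

lemma finrank_V (F : Type*) [Field F] (n : ℕ) :
    2 * finrank F (restrictTotalDegree (Fin 2) F n) = (n + 1) * (n + 2) := by
  have h : {e : Fin 2 →₀ ℕ | (e.sum fun _ k => k) ≤ n} = (Sx n : Set _) := by
    ext e; simp [mem_Sx, sum_fin2]
  have : restrictTotalDegree (Fin 2) F n = restrictSupport F (Sx n : Set _) := by
    rw [restrictTotalDegree, h]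
  rw [this]
  have h2 := finrank_eq_card_basis (basisRestrictSupport F (Sx n : Set (Fin 2 →₀ ℕ)))
  rw [← card_Sx]
  congr 1
  exact h2.trans (by simp)

section Deg

variable {F : Type*} [Field F] {σ : Type*}

lemma totalDegree_prod_eq {ι : Type*} (s : Finset ι) (f : ι → MvPolynomial σ F)
    (h : ∀ i ∈ s, f i ≠ 0) : (∏ i ∈ s, f i).totalDegree = ∑ i ∈ s, (f i).totalDegree := by
  classical
  induction s using Finset.induction_on with
  | empty => simp
  | insert a s ha ih =>
    rw [prod_insert ha, sum_insert ha, totalDegree_mul_of_isDomain (h a (mem_insert_self _ _))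
      (prod_ne_zero_iff.2 fun i hi => h i (mem_insert_of_mem hi)),
      ih fun i hi => h i (mem_insert_of_mem hi)]

lemma prod_dvd_of_irred {R : Type*} [CommRing R] [IsDomain R] [UniqueFactorizationMonoid R]
    {ι : Type*} (s : Finset ι) (f : ι → R) (hirr : ∀ i ∈ s, Irreducible (f i))
    (hne : ∀ i ∈ s, ∀ j ∈ s, f i ∣ f j → i = j) {G : R} (hd : ∀ i ∈ s, f i ∣ G) :
    ∏ i ∈ s, f i ∣ G := by
  refine Finset.prod_dvd_of_isRelPrime ?_ hd
  intro i hi j hj hij
  exact (hirr i hi).isRelPrime_iff_not_dvd.2 fun h => hij (hne i hi j hj h)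

lemma sum_deg_le {ι : Type*} (s : Finset ι) (f : ι → MvPolynomial σ F)
    (hirr : ∀ i ∈ s, Irreducible (f i)) (hne : ∀ i ∈ s, ∀ j ∈ s, f i ∣ f j → i = j)
    {G : MvPolynomial σ F} (hG : G ≠ 0) (hd : ∀ i ∈ s, f i ∣ G) :
    ∑ i ∈ s, (f i).totalDegree ≤ G.totalDegree := by
  rw [← totalDegree_prod_eq s f fun i hi => (hirr i hi).ne_zero]
  exact totalDegree_le_of_dvd_of_isDomain (prod_dvd_of_irred s f hirr hne hd) hG

lemma deg_pos_of_irred {w : MvPolynomial σ F} (hw : Irreducible w) : 0 < w.totalDegree := by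
  rcases Nat.eq_zero_or_pos w.totalDegree with h | h
  · exfalso
    apply hw.not_isUnit
    rw [isUnit_iff_totalDegree_of_isReduced]
    refine ⟨?_, h⟩
    rw [totalDegree_eq_zero_iff_eq_C] at h
    refine IsUnit.mk0 _ fun h0 => hw.ne_zero ?_
    rw [h, h0, C_0]
  · exact h

lemma exists_C_of_dvd {v w : MvPolynomial σ F} (hv : Irreducible v) (hw : Irreducible w)
    (h : v ∣ w) : ∃ c : F, c ≠ 0 ∧ w = C c * v := by
  obtain ⟨u, hu⟩ := hv.associated_of_dvd hw h
  obtain ⟨r, hr, hr'⟩ := isUnit_iff_eq_C_of_isReduced.1 u.isUnit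
  exact ⟨r, hr.ne_zero, by rw [← hu, hr', mul_comm]⟩

end Deg

section Bezout

variable {F : Type*} [Field F]

lemma exists_interp (Z : Finset (Fin 2 → F)) (z : Fin 2 → F) :
    ∃ P : MvPolynomial (Fin 2) F, P.totalDegree ≤ Z.card ∧ eval z P = 1 ∧
      ∀ y ∈ Z, y ≠ z → eval y P = 0 := by
  classical
  have h : ∀ y : Fin 2 → F, ∃ i, y ≠ z → y i ≠ z i := fun y => by
    by_cases hy : y = z
    · exact ⟨0, fun h => absurd hy h⟩
    · obtain ⟨i, hi⟩ := Function.ne_iff.1 hy
      exact ⟨i, fun _ => hi⟩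
  choose k hk using h
  refine ⟨∏ y ∈ Z.erase z, (C (z (k y) - y (k y))⁻¹ * (X (k y) - C (y (k y)))), ?_, ?_, ?_⟩
  · refine (totalDegree_finsetProd _ _).trans ?_
    refine (sum_le_card_nsmul _ _ 1 fun y _ => ?_).trans ?_
    · refine (totalDegree_mul _ _).trans ?_
      rw [totalDegree_C, zero_add]
      refine (totalDegree_sub _ _).trans ?_
      simp
    · simpa using card_erase_le
  · rw [map_prod]
    refine prod_eq_one fun y hy => ?_
    have := hk y (ne_of_mem_erase hy)
    simp only [map_mul, eval_C, map_sub, eval_X]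
    exact inv_mul_cancel₀ (sub_ne_zero.2 this.symm)
  · intro y hy hyz
    rw [map_prod]
    exact prod_eq_zero (mem_erase.2 ⟨hyz, hy⟩) (by simp)

/-- Bezout bound for an irreducible curve and a curve not containing it. -/
theorem bezout {w G : MvPolynomial (Fin 2) F} (hw : Irreducible w) (hG : ¬ w ∣ G)
    (Z : Finset (Fin 2 → F)) (hZ : ∀ z ∈ Z, eval z w = 0 ∧ eval z G = 0) :
    Z.card ≤ w.totalDegree * G.totalDegree := by
  classical
  set a := w.totalDegree with ha
  set b := G.totalDegree with hb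
  set m := Z.card with hm
  have hG0 : G ≠ 0 := fun h => hG (h ▸ dvd_zero _)
  let V := fun n => restrictTotalDegree (Fin 2) F n
  let ev : V (m + a + b) →ₗ[F] (Z → F) :=
    LinearMap.pi fun z => ((aeval (z : Fin 2 → F)).toLinearMap).comp (V _).subtype
  have hev : ∀ (P : V (m + a + b)) (z : Z), ev P z = eval z.1 P.1 := fun P z => by
    simp [ev, aeval_eq_eval]
  have hsurj : Function.Surjective ev := by
    intro f
    choose P hP using fun z : Z => exists_interp Z z.1
    refine ⟨∑ z : Z, f z • ⟨P z, (mem_restrictTotalDegree _ _ _).2 ((hP z).1.trans (by omega))⟩,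
      ?_⟩
    ext y
    rw [map_sum, Finset.sum_apply, Finset.sum_eq_single y]
    · rw [map_smul, Pi.smul_apply, hev, (hP y).2.1, smul_eq_mul, mul_one]
    · intro z _ hzy
      rw [map_smul, Pi.smul_apply, hev, (hP z).2.2 y y.2 (fun h => hzy (Subtype.ext h).symm),
        smul_zero]
    · simp
  have hmem : ∀ (p : V (m + b)) (q : V (m + a)), p.1 * w + q.1 * G ∈ V (m + a + b) := by
    intro p q
    have h1 := (mem_restrictTotalDegree _ _ _).1 p.2
    have h2 := (mem_restrictTotalDegree _ _ _).1 q.2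
    refine (mem_restrictTotalDegree _ _ _).2 ((totalDegree_add _ _).trans (max_le ?_ ?_))
    · exact (totalDegree_mul _ _).trans (by omega)
    · exact (totalDegree_mul _ _).trans (by omega)
  let φ : (V (m + b) × V (m + a)) →ₗ[F] V (m + a + b) :=
    { toFun := fun x => ⟨x.1.1 * w + x.2.1 * G, hmem _ _⟩
      map_add' := fun x y => by ext1; simp; ring
      map_smul' := fun c x => by ext1; simp [smul_add] }
  have hrange : LinearMap.range φ ≤ LinearMap.ker ev := by
    rintro _ ⟨x, rfl⟩
    rw [LinearMap.mem_ker]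
    ext z
    rw [hev]
    simp [φ, (hZ z z.2).1, (hZ z z.2).2]
  have hmem2 : ∀ h : V m, (h.1 * G ∈ V (m + b)) ∧ (-(h.1 * w) ∈ V (m + a)) := by
    intro h
    have h1 := (mem_restrictTotalDegree _ _ _).1 h.2
    refine ⟨(mem_restrictTotalDegree _ _ _).2 ((totalDegree_mul _ _).trans (by omega)),
      neg_mem ((mem_restrictTotalDegree _ _ _).2 ((totalDegree_mul _ _).trans (by omega)))⟩
  let ψ : V m →ₗ[F] (V (m + b) × V (m + a)) :=
    { toFun := fun h => (⟨h.1 * G, (hmem2 h).1⟩, ⟨-(h.1 * w), (hmem2 h).2⟩)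
      map_add' := fun x y => by ext <;> simp [add_mul, add_comm]
      map_smul' := fun c x => by ext <;> simp }
  have hker : LinearMap.ker φ ≤ LinearMap.range ψ := by
    rintro ⟨p, q⟩ hx
    have hx' : p.1 * w + q.1 * G = 0 := congrArg Subtype.val (LinearMap.mem_ker.1 hx)
    have hd : w ∣ q.1 * G := ⟨-p.1, by linear_combination hx'⟩
    obtain ⟨h, hh⟩ := (hw.prime.dvd_or_dvd hd).resolve_right hG
    have hdeg : (-h).totalDegree ≤ m := by
      rw [totalDegree_neg]
      by_cases h0 : h = 0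
      · simp [h0]
      · have h2 := (mem_restrictTotalDegree _ _ _).1 q.2
        rw [hh, totalDegree_mul_of_isDomain hw.ne_zero h0] at h2
        omega
    refine ⟨⟨-h, (mem_restrictTotalDegree _ _ _).2 hdeg⟩, ?_⟩
    refine Prod.ext (Subtype.ext ?_) (Subtype.ext ?_)
    · apply mul_right_cancel₀ hw.ne_zero
      change -h * G * w = p.1 * w
      rw [hh] at hx'
      linear_combination -hx'
    · change -(-h * w) = q.1
      rw [hh]; ring
  have e1 := LinearMap.finrank_range_add_finrank_ker ev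
  rw [LinearMap.range_eq_top.2 hsurj, finrank_top, finrank_pi] at e1
  have e2 := LinearMap.finrank_range_add_finrank_ker φ
  rw [finrank_prod] at e2
  have e3 := Submodule.finrank_mono hrange
  have e4 := (Submodule.finrank_mono hker).trans (LinearMap.finrank_range_le ψ)
  have f1 := finrank_V F (m + a + b)
  have f2 := finrank_V F (m + b)
  have f3 := finrank_V F (m + a)
  have f4 := finrank_V F m
  simp only [Fintype.card_coe] at e1
  simp only [V] at e1 e2 e3 e4
  nlinarith

end Bezout

end Pool.Agent.Lib.MP_162bbe_gt
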