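import Pool.Agent.Lib.MP_162bbe_gt.Params
import Pool.Agent.Lib.MP_162bbe_gt.Disc

set_option autoImplicit false

/-! Lower bound for the house of Salem-like algebraic integers. -/

namespace Pool.Agent.Lib.MP_162bbe_gt

open Finset NumberField Polynomial

lemma exists_setup {P : ℤ[X]} (hP : P.Monic) (hirr : Irreducible P) (v : Fin 2 → ℂ)
    (hv : ∀ l, aeval (v l) P = 0) :
    ∃ (N : Type) (_ : Field N) (_ : NumberField N) (_ : IsGalois ℚ N) (j : N →+* ℂ)
      (x : Fin 2 → 𝓞 N), (∀ l, aeval (x l) P = 0) ∧ ∀ l, j (x l) = v l := by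
  let Q := P.map (algebraMap ℤ ℚ)
  have hQ : Irreducible Q := (hP.irreducible_iff_irreducible_map_fraction_map (K := ℚ)).1 hirr
  let N := IntermediateField.adjoin ℚ (Q.rootSet ℂ)
  have : Q.IsSplittingField ℚ N :=
    IntermediateField.adjoin_rootSet_isSplittingField (IsAlgClosed.splits _)
  have : FiniteDimensional ℚ N := IsSplittingField.finiteDimensional N Q
  have : NumberField N := {}
  have hmem : ∀ l, v l ∈ N := fun l => IntermediateField.subset_adjoin _ _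
    (mem_rootSet.2 ⟨hQ.ne_zero, by rw [aeval_map_algebraMap]; exact hv l⟩)
  have hroot : ∀ l, aeval (⟨v l, hmem l⟩ : N) P = 0 := fun l => by
    apply (algebraMap N ℂ).injective
    rw [map_zero, ← hv l]
    exact (aeval_algHom_apply (algebraMap N ℂ).toIntAlgHom _ P).symm
  refine ⟨N, inferInstance, inferInstance, IsGalois.of_separable_splitting_field hQ.separable,
    algebraMap N ℂ, fun l => ⟨⟨v l, hmem l⟩, P, hP, hroot l⟩, fun l => ?_, fun l => rfl⟩
  apply RingOfIntegers.coe_injective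
  rw [map_zero]
  exact (aeval_algHom_apply (algebraMap (𝓞 N) N).toIntAlgHom _ P).symm.trans (hroot l)

section

variable {N : Type*} [Field N] [NumberField N]

omit [NumberField N] in
lemma coe_aeval (x : 𝓞 N) (P : ℤ[X]) : ((aeval x P : 𝓞 N) : N) = aeval (x : N) P :=
  (aeval_algHom_apply (algebraMap (𝓞 N) N).toIntAlgHom x P).symm

lemma card_orb_le_finrank (j : N →+* ℂ) (y : Fin 2 → N) (E : IntermediateField ℚ ℂ)
    [FiniteDimensional ℚ E] (h : ∀ l, j (y l) ∈ E) : #(orb y 1) ≤ Module.finrank ℚ E := by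
  classical
  let E' : IntermediateField ℚ N := E.comap j.toRatAlgHom
  let φ : E' →ₗ[ℚ] E :=
    { toFun := fun a => ⟨j a.1, a.2⟩
      map_add' := fun a b => Subtype.ext (map_add j a.1 b.1)
      map_smul' := fun c a => Subtype.ext (map_rat_smul j.toRatAlgHom c a.1) }
  have h1 : Module.finrank ℚ E' ≤ Module.finrank ℚ E :=
    LinearMap.finrank_le_finrank_of_injective (f := φ) fun a b hab =>
      Subtype.ext (j.injective (congrArg Subtype.val hab))
  refine le_trans ?_ ((card_algHom_le_finrank ℚ E' N).trans h1)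
  rw [Nat.card_eq_fintype_card, ← card_univ]
  refine le_trans (card_le_card (t := univ.image fun (ψ : E' →ₐ[ℚ] N) l => ψ ⟨y l, h l⟩)
    fun z hz => ?_) card_image_le
  obtain ⟨g, rfl⟩ := mem_orb.1 hz
  exact mem_image.2 ⟨(g : N →ₐ[ℚ] N).comp E'.val, mem_univ _, funext fun l => (pow_one _).symm⟩

lemma exists_one_lt [IsGalois ℚ N] (j : N →+* ℂ) {c : 𝓞 N} (hc : c ≠ 0) (h : ‖j c‖ ≠ 1) :
    ∃ g : N ≃ₐ[ℚ] N, 1 < ‖j (g c)‖ := by
  classical
  by_contra hcon
  push Not at hcon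
  have h1 : (1 : ℝ) ≤ nrm c := by exact_mod_cast Nat.pos_of_ne_zero (nrm_ne_zero hc)
  rw [nrm_eq_prod j, ← mul_prod_erase _ _ (mem_univ 1)] at h1
  have h2 : ∏ g ∈ univ.erase (1 : N ≃ₐ[ℚ] N), ‖j (g c)‖ ≤ 1 :=
    prod_le_one (fun _ _ => norm_nonneg _) fun g _ => hcon g
  have h3 : ‖j ((1 : N ≃ₐ[ℚ] N) c)‖ < 1 := lt_of_le_of_ne (hcon 1) h
  nlinarith [norm_nonneg (j ((1 : N ≃ₐ[ℚ] N) c))]

lemma aeval_conj (j : N →+* ℂ) (g : N ≃ₐ[ℚ] N) {y : N} {P : ℤ[X]} (hy : aeval y P = 0) :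
    aeval (j (g y)) P = 0 := by
  have := aeval_algHom_apply (j.comp (g : N →+* N)).toIntAlgHom y P
  rw [hy, map_zero] at this
  exact this

end

lemma small_degree (n₀ : ℕ) : ∃ ε : ℝ, 0 < ε ∧ ∀ P : ℤ[X], P.Monic → P.natDegree ≤ n₀ →
    (∃ z : ℂ, aeval z P = 0 ∧ 1 < ‖z‖) → ∃ z : ℂ, aeval z P = 0 ∧ Real.exp ε ≤ ‖z‖ := by
  classical
  let C : ℤ := 2 ^ n₀ * n₀.choose (n₀ / 2)
  have hfin := bUnion_roots_finite (algebraMap ℤ ℂ) n₀ (Set.finite_Icc (-C) C)
  obtain ⟨z₀, hz₀, hmin⟩ := exists_min_image (insert (2 : ℂ) {z ∈ hfin.toFinset | 1 < ‖z‖})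
    (fun z => ‖z‖) (insert_nonempty _ _)
  have h1 : 1 < ‖z₀‖ := by
    rcases mem_insert.1 hz₀ with rfl | h
    · simp
    · exact (mem_filter.1 h).2
  refine ⟨Real.log ‖z₀‖, Real.log_pos h1, fun P hP hd ⟨z, hz, hz1⟩ => ?_⟩
  rw [Real.exp_log (by linarith)]
  by_cases h : ∀ w ∈ (P.map (algebraMap ℤ ℂ)).roots, ‖w‖ ≤ 2
  · refine ⟨z, hz, hmin z (mem_insert_of_mem (mem_filter.2 ⟨?_, hz1⟩))⟩
    simp only [Set.Finite.mem_toFinset, Set.mem_iUnion]
    refine ⟨P, ⟨hd, fun i => ?_⟩, ?_⟩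
    · have := coeff_bdd_of_roots_le (B := 2) (algebraMap ℚ ℂ) (p := P.map (algebraMap ℤ ℚ))
        (hP.map _) (IsAlgClosed.splits _) (natDegree_map_le.trans hd) (by
          rwa [Polynomial.map_map, RingHom.ext_int (RingHom.comp _ _) (algebraMap ℤ ℂ)]) i
      rw [coeff_map, coeff_map, max_eq_left (by norm_num)] at this
      simp only [algebraMap_int_eq, eq_intCast, map_intCast, Complex.norm_intCast] at this
      rw [Set.mem_Icc, ← abs_le]
      exact_mod_cast this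
    · rw [mem_coe, Multiset.mem_toFinset, mem_roots (hP.map _).ne_zero, IsRoot,
        eval_map_algebraMap]
      exact hz
  · push Not at h
    obtain ⟨w, hw, hw2⟩ := h
    rw [mem_roots (hP.map _).ne_zero, IsRoot, eval_map_algebraMap] at hw
    refine ⟨w, hw, (hmin 2 (mem_insert_self _ _)).trans ?_⟩
    simpa using hw2.le

theorem salem (r C s : ℕ) (hr : 1 ≤ r) : ∃ c κ : ℝ, 0 < c ∧ 0 < κ ∧
    ∀ (P : ℤ[X]) (v : Fin 2 → ℂ) (S : Finset ℂ) (E : IntermediateField ℚ ℂ)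
      [FiniteDimensional ℚ E], P.Monic → Irreducible P → (∀ l, aeval (v l) P = 0) →
      ‖v 0‖ ≠ 1 → ‖v 1‖ = 1 → #S ≤ s → (∀ z, aeval z P = 0 → ‖z‖ ≠ 1 → z ∈ S) → (∀ l, v l ∈ E) →
      Module.finrank ℚ E ^ r ≤ C * P.natDegree ^ (2 * r - 1) →
      ∃ z : ℂ, aeval z P = 0 ∧ Real.exp (c * (P.natDegree : ℝ) ^ κ) ≤ ‖z‖ := by
  classical
  obtain ⟨k, n₀, hk, hcore⟩ := core r C (s + 1) hr (by omega)
  obtain ⟨ε, hε, hsmall⟩ := small_degree n₀
  have hκ : (0 : ℝ) < 1 / k := by positivity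
  have hn₀ : (0 : ℝ) < ((n₀ + 1 : ℕ) : ℝ) ^ (1 / k : ℝ) := by positivity
  refine ⟨min 1 (ε / ((n₀ + 1 : ℕ) : ℝ) ^ (1 / k : ℝ)), 1 / k, by positivity, hκ, ?_⟩
  intro P v S E _ hP hirr hv h0 h1 hS hoff hE hfin
  obtain ⟨N, _, _, _, j, x, hx, hjx⟩ := exists_setup hP hirr v hv
  have hx' : ∀ l, aeval (x l : N) P = 0 := fun l => by rw [← coe_aeval, hx l]; rfl
  obtain ⟨g₀, hg₀⟩ := exists_aut hP hirr (hx' 1) (hx' 0)
  have hx1 : (x 1 : N) ≠ 0 := fun h => by
    rw [← hjx 1, h] at h1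
    simp at h1
  have hx0 : ∀ l, (x l : N) ≠ 0 := fun l => by
    fin_cases l
    · exact hg₀ ▸ (map_ne_zero g₀).2 hx1
    · exact hx1
  have h2 := exists_one_lt j (c := x 0) (fun h => hx0 0 (by rw [h]; rfl)) (by rwa [hjx])
  by_cases hn : n₀ ≤ P.natDegree
  · have hoff' : ∀ l, #(offc j (x l : N)) ≤ s + 1 := fun l =>
      (card_le_card_of_injOn j (fun b hb => by
        obtain ⟨k1, k2⟩ := mem_filter.1 hb
        obtain ⟨g, -, rfl⟩ := mem_image.1 k1
        exact hoff _ (aeval_conj j g (hx' l)) k2) j.injective.injOn).trans (by omega)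
    obtain ⟨g, l, h⟩ := hcore N j P x _ hn hP hx (by
        have key : ∀ l, aeval (x l) (derivative P) ≠ 0 := fun l h => by
          have := (sep_map hP hirr (hx' l)).aeval_derivative_ne_zero (x := (x l : N))
            (by rw [aeval_map_algebraMap]; exact hx' l)
          rw [derivative_map, aeval_map_algebraMap, ← coe_aeval, h] at this
          exact this rfl
        exact mul_ne_zero (key 0) (key 1)) hx0
      (fun l => by rw [card_bad hP hirr (hx' l)]; exact Nat.mul_le_mul_right _ (hoff' l)) hoff'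
      ⟨1, by simpa [hjx] using h0, by simpa [hjx] using h1⟩ ⟨g₀, by rwa [hg₀, hjx]⟩ h2
      ((Nat.pow_le_pow_left (card_orb_le_finrank j _ E fun l => by
        rw [hjx]; exact hE l) r).trans hfin) (fun H hH0 hH => by
        rw [nrm_eq_prod j, dd, show 4 * Fintype.card (N ≃ₐ[ℚ] N) =
          2 * Fintype.card (N ≃ₐ[ℚ] N) + 2 * Fintype.card (N ≃ₐ[ℚ] N) by ring, pow_add]
        simp only [map_mul, norm_mul, prod_mul_distrib]
        simp only [← RingOfIntegers.coe_eq_algebraMap, coe_aeval]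
        exact mul_le_mul (disc_bound hP hirr (hx' 0) j (hoff' 0) hH0 fun g => hH g 0)
          (disc_bound hP hirr (hx' 1) j (hoff' 1) hH0 fun g => hH g 1)
          (prod_nonneg fun _ _ => norm_nonneg _) (by positivity))
    refine ⟨_, aeval_conj j g (hx' l), le_trans (Real.exp_le_exp.2 ?_) h.le⟩
    exact mul_le_of_le_one_left (by positivity) (min_le_left _ _)
  · obtain ⟨g, hg⟩ := h2
    obtain ⟨z, hz, h⟩ := hsmall P hP (by omega) ⟨_, aeval_conj j g (hx' 0), hg⟩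
    refine ⟨z, hz, le_trans (Real.exp_le_exp.2 ?_) h⟩
    calc _ ≤ ε / ((n₀ + 1 : ℕ) : ℝ) ^ (1 / k : ℝ) * ((n₀ + 1 : ℕ) : ℝ) ^ (1 / k : ℝ) := by
          refine mul_le_mul (min_le_right _ _) (Real.rpow_le_rpow (by positivity) ?_ hκ.le)
            (by positivity) (by positivity)
          exact_mod_cast (show P.natDegree ≤ n₀ + 1 by omega)
      _ = ε := div_mul_cancel₀ _ hn₀.ne'

end Pool.Agent.Lib.MP_162bbe_gt
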