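import Pool.Agent.Lib.MP_162bbe_gt.Poly

set_option autoImplicit false

/-! Taylor shifts of polynomials in two variables. -/

namespace Pool.Agent.Lib.MP_162bbe_gt

open MvPolynomial Finset

variable {R : Type*} [CommRing R]

/-- Taylor expansion at `z` -/
noncomputable def Sh (z : Fin 2 → R) : MvPolynomial (Fin 2) R →ₐ[R] MvPolynomial (Fin 2) R :=
  aeval fun i => C (z i) + X i

/-- vanishing to order `T` at `z` -/
def Van (z : Fin 2 → R) (T : ℕ) (P : MvPolynomial (Fin 2) R) : Prop :=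
  ∀ i : Fin 2 →₀ ℕ, i 0 + i 1 < T → coeff i (Sh z P) = 0

lemma add_X_pow (a : R) (j : Fin 2) (n : ℕ) : (C a + X j : MvPolynomial (Fin 2) R) ^ n =
    ∑ k ∈ range (n + 1), monomial (Finsupp.single j k) (a ^ (n - k) * n.choose k) := by
  rw [add_comm, add_pow]
  refine sum_congr rfl fun k _ => ?_
  rw [X_pow_eq_monomial, ← C_pow, ← map_natCast (C : R →+* MvPolynomial (Fin 2) R), mul_assoc,
    ← C_mul, mul_comm, C_mul_monomial, mul_one]

lemma coeff_Sh_monomial (z : Fin 2 → R) (e i : Fin 2 →₀ ℕ) (c : R) :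
    coeff i (Sh z (monomial e c)) = c * ((z 0 ^ (e 0 - i 0) * (e 0).choose (i 0)) *
      (z 1 ^ (e 1 - i 1) * (e 1).choose (i 1))) := by
  classical
  rw [Sh, aeval_monomial, Finsupp.prod_fintype _ _ (by simp), Fin.prod_univ_two, algebraMap_eq,
    coeff_C_mul, add_X_pow, add_X_pow, sum_mul_sum]
  congr 1
  simp only [monomial_mul, coeff_sum, coeff_monomial]
  have key : ∀ k l : ℕ, (Finsupp.single (0 : Fin 2) k + Finsupp.single (1 : Fin 2) l = i) ↔
      (k = i 0 ∧ l = i 1) := fun k l => by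
    constructor
    · rintro rfl; simp
    · rintro ⟨rfl, rfl⟩
      ext j; fin_cases j <;> simp
  simp only [key]
  rw [sum_eq_single (i 0), sum_eq_single (i 1)]
  · simp
  · intro l _ hl; simp [hl]
  · intro h
    rw [Nat.choose_eq_zero_of_lt (n := e 1) (by simpa using h)]
    simp
  · intro k _ hk; simp [hk]
  · intro h
    rw [Nat.choose_eq_zero_of_lt (n := e 0) (by simpa using h)]
    simp

lemma coeff_Sh (z : Fin 2 → R) (P : MvPolynomial (Fin 2) R) (i : Fin 2 →₀ ℕ) :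
    coeff i (Sh z P) = ∑ e ∈ P.support, coeff e P * ((z 0 ^ (e 0 - i 0) * (e 0).choose (i 0)) *
      (z 1 ^ (e 1 - i 1) * (e 1).choose (i 1))) := by
  conv_lhs => rw [P.as_sum, map_sum, coeff_sum]
  exact sum_congr rfl fun e _ => coeff_Sh_monomial z e i _

lemma coeff_zero_Sh (z : Fin 2 → R) (P : MvPolynomial (Fin 2) R) :
    coeff 0 (Sh z P) = eval z P := by
  rw [coeff_Sh, eval_eq']
  simp [Fin.prod_univ_two]

lemma map_Sh {S : Type*} [CommRing S] (φ : R →+* S) (z : Fin 2 → R) (P : MvPolynomial (Fin 2) R) :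
    map φ (Sh z P) = Sh (fun i => φ (z i)) (map φ P) := by
  induction P using MvPolynomial.induction_on with
  | C a => simp [Sh]
  | add p q hp hq => simp only [map_add, hp, hq]
  | mul_X p i hp =>
    rw [map_mul, map_mul, hp, map_mul, map_mul]
    simp [Sh]

lemma map_coeff_Sh {S : Type*} [CommRing S] (φ : R →+* S) (z : Fin 2 → R)
    (P : MvPolynomial (Fin 2) ℤ) (i : Fin 2 →₀ ℕ) :
    φ (coeff i (Sh z (map (Int.castRingHom R) P))) =
      coeff i (Sh (fun i => φ (z i)) (map (Int.castRingHom S) P)) := by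
  rw [← coeff_map, map_Sh, MvPolynomial.map_map,
    RingHom.ext_int (φ.comp (Int.castRingHom R)) (Int.castRingHom S)]

lemma Sh_Sh (z h : Fin 2 → R) (P : MvPolynomial (Fin 2) R) : Sh h (Sh z P) = Sh (z + h) P := by
  induction P using MvPolynomial.induction_on with
  | C a => simp [Sh]
  | add p q hp hq => simp only [map_add, hp, hq]
  | mul_X p i hp =>
    rw [map_mul, map_mul, hp, map_mul]
    simp [Sh, add_assoc]

lemma Van.mem_pow {z h : Fin 2 → R} {T : ℕ} {P : MvPolynomial (Fin 2) R} (hP : Van z T P)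
    {J : Ideal R} (hh : ∀ i, h i ∈ J) (i : Fin 2 →₀ ℕ) :
    coeff i (Sh (z + h) P) ∈ J ^ (T - (i 0 + i 1)) := by
  rw [← Sh_Sh, coeff_Sh]
  refine Ideal.sum_mem _ fun e he => ?_
  have hT : T ≤ e 0 + e 1 := by
    by_contra hlt
    exact mem_support_iff.1 he (hP e (by omega))
  refine Ideal.mul_mem_left _ _ ?_
  by_cases h0 : e 0 < i 0
  · rw [Nat.choose_eq_zero_of_lt h0]; simp
  by_cases h1 : e 1 < i 1
  · rw [Nat.choose_eq_zero_of_lt h1]; simp
  refine Ideal.pow_le_pow_right (n := (e 0 - i 0) + (e 1 - i 1)) (by omega) ?_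
  rw [pow_add]
  exact Ideal.mul_mem_mul (Ideal.mul_mem_right _ _ (Ideal.pow_mem_pow (hh 0) _))
    (Ideal.mul_mem_right _ _ (Ideal.pow_mem_pow (hh 1) _))

lemma van_pow_mul {z : Fin 2 → R} {P : MvPolynomial (Fin 2) R} (hP : eval z P = 0) (T : ℕ)
    (G : MvPolynomial (Fin 2) R) : Van z T (P ^ T * G) := by
  have h1 : Sh z P ∈ idealOfVars (Fin 2) R := by
    rw [← pow_one (idealOfVars (Fin 2) R), mem_pow_idealOfVars_iff']
    intro x hx
    have : x = 0 := by
      rw [degree_fin2] at hx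
      ext j; fin_cases j <;> simp <;> omega
    rw [this, coeff_zero_Sh, hP]
  have h2 : Sh z (P ^ T * G) ∈ idealOfVars (Fin 2) R ^ T := by
    rw [map_mul, map_pow]
    exact Ideal.mul_mem_right _ _ (Ideal.pow_mem_pow h1 _)
  intro i hi
  exact (mem_pow_idealOfVars_iff' _ _).1 h2 i (by rwa [degree_fin2])

lemma norm_coeff_Sh_le {P : MvPolynomial (Fin 2) ℂ} {L : ℕ} (hL : P.totalDegree ≤ L) {B M : ℝ}
    (hB : ∀ e, ‖coeff e P‖ ≤ B) {z : Fin 2 → ℂ} (hM : 1 ≤ M) (hz : ∀ i, ‖z i‖ ≤ M)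
    (i : Fin 2 →₀ ℕ) :
    ‖coeff i (Sh z P)‖ ≤ (Sx L).card * B * (L : ℝ) ^ (i 0 + i 1) * M ^ L := by
  have hB0 : 0 ≤ B := (norm_nonneg _).trans (hB 0)
  rw [coeff_Sh]
  refine (norm_sum_le _ _).trans ((sum_le_card_nsmul _ _ (B * (L : ℝ) ^ (i 0 + i 1) * M ^ L)
    fun e he => ?_).trans ?_)
  · have hd := mem_Sx.1 (mem_Sx_of_mem_support hL he)
    simp only [norm_mul, norm_pow, Complex.norm_natCast]
    have a0 : ((e 0).choose (i 0) : ℝ) ≤ (L : ℝ) ^ i 0 := by
      exact_mod_cast (Nat.choose_le_pow _ _).trans (Nat.pow_le_pow_left (by omega) _)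
    have a1 : ((e 1).choose (i 1) : ℝ) ≤ (L : ℝ) ^ i 1 := by
      exact_mod_cast (Nat.choose_le_pow _ _).trans (Nat.pow_le_pow_left (by omega) _)
    have b0 : ‖z 0‖ ^ (e 0 - i 0) ≤ M ^ e 0 :=
      (pow_le_pow_left₀ (norm_nonneg _) (hz 0) _).trans (pow_le_pow_right₀ hM (by omega))
    have b1 : ‖z 1‖ ^ (e 1 - i 1) ≤ M ^ e 1 :=
      (pow_le_pow_left₀ (norm_nonneg _) (hz 1) _).trans (pow_le_pow_right₀ hM (by omega))
    have c : M ^ e 0 * M ^ e 1 ≤ M ^ L := by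
      rw [← pow_add]; exact pow_le_pow_right₀ hM hd
    have hM0 : 0 ≤ M := by linarith
    calc ‖coeff e P‖ * (‖z 0‖ ^ (e 0 - i 0) * ((e 0).choose (i 0) : ℝ) *
          (‖z 1‖ ^ (e 1 - i 1) * ((e 1).choose (i 1) : ℝ)))
        ≤ B * (M ^ e 0 * (L : ℝ) ^ i 0 * (M ^ e 1 * (L : ℝ) ^ i 1)) := by
          gcongr
          exact hB e
      _ = B * (L : ℝ) ^ (i 0 + i 1) * (M ^ e 0 * M ^ e 1) := by rw [pow_add]; ring
      _ ≤ _ := by gcongr
  · rw [nsmul_eq_mul, mul_assoc, mul_assoc, mul_assoc, ← mul_assoc B]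
    have : (P.support.card : ℝ) ≤ (Sx L).card := by
      exact_mod_cast card_le_card fun e he => mem_Sx_of_mem_support hL he
    have hM0 : 0 ≤ M := by linarith
    gcongr

end Pool.Agent.Lib.MP_162bbe_gt
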