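import Pool.Agent.Lib.MP_162bbe_gt.Shift

set_option autoImplicit false

/-! The auxiliary polynomial. -/

namespace Pool.Agent.Lib.MP_162bbe_gt

open MvPolynomial Finset Module

section Packing

open Metric MeasureTheory
open scoped ENNReal

variable {E : Type*} [NormedAddCommGroup E] [NormedSpace ℝ E] [FiniteDimensional ℝ E]

lemma card_le_of_sep (s : Finset E) {ρ η : ℝ} (hρ : 0 ≤ ρ) (hη : 0 < η) (hs : ∀ c ∈ s, ‖c‖ ≤ ρ)
    (h : ∀ c ∈ s, ∀ d ∈ s, c ≠ d → η ≤ ‖c - d‖) :
    (s.card : ℝ) ≤ (2 * ρ / η + 1) ^ finrank ℝ E := by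
  borelize E
  let μ : Measure E := Measure.addHaar
  have δpos : 0 < η / 2 := by positivity
  have ρpos : 0 < ρ + η / 2 := by positivity
  set A := ⋃ c ∈ s, ball (c : E) (η / 2) with hA
  have D : Set.Pairwise (s : Set E) (Function.onFun Disjoint fun c => ball (c : E) (η / 2)) := by
    rintro c hc d hd hcd
    apply ball_disjoint_ball
    rw [dist_eq_norm, add_halves]
    exact h c hc d hd hcd
  have A_subset : A ⊆ ball (0 : E) (ρ + η / 2) := by
    refine Set.iUnion₂_subset fun x hx => ?_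
    apply ball_subset_ball'
    rw [dist_zero_right, add_comm]
    exact add_le_add (hs x hx) le_rfl
  have I : (s.card : ℝ≥0∞) * ENNReal.ofReal ((η / 2) ^ finrank ℝ E) * μ (ball 0 1) ≤
      ENNReal.ofReal ((ρ + η / 2) ^ finrank ℝ E) * μ (ball 0 1) :=
    calc
      (s.card : ℝ≥0∞) * ENNReal.ofReal ((η / 2) ^ finrank ℝ E) * μ (ball 0 1) = μ A := by
        rw [hA, measure_biUnion_finset D fun c _ => measurableSet_ball]
        simp only [μ.addHaar_ball_of_pos _ δpos]
        simp only [Finset.sum_const, nsmul_eq_mul, mul_assoc]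
      _ ≤ μ (ball (0 : E) (ρ + η / 2)) := measure_mono A_subset
      _ = ENNReal.ofReal ((ρ + η / 2) ^ finrank ℝ E) * μ (ball 0 1) := by
        simp only [μ.addHaar_ball_of_pos _ ρpos]
  have J : (s.card : ℝ≥0∞) * ENNReal.ofReal ((η / 2) ^ finrank ℝ E) ≤
      ENNReal.ofReal ((ρ + η / 2) ^ finrank ℝ E) :=
    (ENNReal.mul_le_mul_iff_left (measure_ball_pos _ _ zero_lt_one).ne' measure_ball_lt_top.ne).1 I
  have K := ENNReal.toReal_le_of_le_ofReal (pow_nonneg ρpos.le _) J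
  rw [ENNReal.toReal_mul, ENNReal.toReal_natCast,
    ENNReal.toReal_ofReal (pow_nonneg δpos.le _)] at K
  have e : 2 * ρ / η + 1 = (ρ + η / 2) / (η / 2) := by field_simp
  rw [e, div_pow, le_div_iff₀ (pow_pos δpos _)]
  exact K

lemma exists_close {α : Type*} [Fintype α] (f : α → E) {ρ η : ℝ} (hρ : 0 ≤ ρ) (hη : 0 < η)
    (hf : ∀ a, ‖f a‖ ≤ ρ) (hc : (2 * ρ / η + 1) ^ finrank ℝ E < Fintype.card α) :
    ∃ a b, a ≠ b ∧ ‖f a - f b‖ < η := by
  classical
  by_contra h
  push Not at h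
  have hinj : Function.Injective f := fun a b hab => by
    by_contra hne
    have := h a b hne
    rw [hab, sub_self, norm_zero] at this
    linarith
  have := card_le_of_sep (univ.image f) hρ hη (fun c hc => by
      obtain ⟨a, -, rfl⟩ := mem_image.1 hc; exact hf a) (fun c hc d hd hcd => by
      obtain ⟨a, -, rfl⟩ := mem_image.1 hc
      obtain ⟨b, -, rfl⟩ := mem_image.1 hd
      exact h a b fun hab => hcd (hab ▸ rfl))
  rw [card_image_of_injective _ hinj, card_univ] at this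
  linarith

end Packing

lemma deg_map_le {R S : Type*} [CommSemiring R] [CommSemiring S] (φ : R →+* S)
    (P : MvPolynomial (Fin 2) R) : (map φ P).totalDegree ≤ P.totalDegree :=
  Finset.sup_mono (support_map_subset _ _)

lemma card_Sx_le {L n : ℕ} (hL : L ≤ n) (hn : 3 ≤ n) : (Sx L).card ≤ 2 * n ^ 2 := by
  have := card_Sx L
  nlinarith

/-- Siegel's lemma with the rank bound coming from a curve through the points -/
theorem siegel {ι : Type*} [Fintype ι] (z : ι → Fin 2 → ℂ) (M : ι → ℝ) (hM : ∀ g, 1 ≤ M g)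
    (hz : ∀ g i, ‖z g i‖ ≤ M g) {F₀ : MvPolynomial (Fin 2) ℂ} (hF₀ : F₀ ≠ 0)
    (h0 : ∀ g, eval (z g) F₀ = 0) {ω T L n : ℕ} (hω : F₀.totalDegree ≤ ω) (hω1 : 1 ≤ ω)
    (hT : 1 ≤ T) (hL : L = 10 * T * (T + 5) * ω) (hLn : L ≤ n) (hn : 3 ≤ n) :
    ∃ F : MvPolynomial (Fin 2) ℤ, F ≠ 0 ∧ F.totalDegree ≤ L ∧ (∀ e, |coeff e F| ≤ n) ∧
      ∀ g (i : Fin 2 →₀ ℕ), i 0 + i 1 < T →
        ‖coeff i (Sh (z g) (map (Int.castRingHom ℂ) F))‖ ≤ 1 / 3 * M g ^ L := by
  classical
  let V := fun n => restrictTotalDegree (Fin 2) ℂ n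
  let Φ : V L →ₗ[ℂ] (ι × Sx (T - 1) → ℂ) := LinearMap.pi fun x =>
    ((M x.1 ^ L : ℝ) : ℂ)⁻¹ • (((lcoeff ℂ x.2.1).comp (Sh (z x.1)).toLinearMap).comp (V L).subtype)
  have hΦ : ∀ (P : V L) (x : ι × Sx (T - 1)),
      Φ P x = ((M x.1 ^ L : ℝ) : ℂ)⁻¹ * coeff x.2.1 (Sh (z x.1) P.1) := fun P x => rfl
  have hMpos : ∀ g, 0 < M g ^ L := fun g => pow_pos (by linarith [hM g]) _
  have hnorm : ∀ (P : V L) (x : ι × Sx (T - 1)),
      ‖Φ P x‖ = ‖coeff x.2.1 (Sh (z x.1) P.1)‖ / M x.1 ^ L := fun P x => by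
    rw [hΦ, norm_mul, norm_inv, Complex.norm_real, Real.norm_of_nonneg (hMpos _).le,
      inv_mul_eq_div]
  have haL : T * ω ≤ L := by rw [hL]; nlinarith [Nat.zero_le (T * ω)]
  have hmem : ∀ G : V (L - T * ω), F₀ ^ T * G.1 ∈ V L := fun G => by
    have h1 := (mem_restrictTotalDegree _ _ _).1 G.2
    have h2 := (totalDegree_pow F₀ T).trans (Nat.mul_le_mul_left T hω)
    exact (mem_restrictTotalDegree _ _ _).2 ((totalDegree_mul _ _).trans (by omega))
  let ψ : V (L - T * ω) →ₗ[ℂ] V L :=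
    { toFun := fun G => ⟨F₀ ^ T * G.1, hmem G⟩
      map_add' := fun x y => by ext1; simp [mul_add]
      map_smul' := fun c x => by ext1; simp }
  have hψ : Function.Injective ψ := fun x y h => Subtype.ext
    (mul_left_cancel₀ (pow_ne_zero T hF₀) (congrArg Subtype.val h))
  have hker : LinearMap.range ψ ≤ LinearMap.ker Φ := by
    rintro _ ⟨G, rfl⟩
    rw [LinearMap.mem_ker]
    ext x
    have := mem_Sx.1 x.2.2
    rw [hΦ]
    change _ * coeff _ (Sh _ (F₀ ^ T * G.1)) = 0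
    rw [van_pow_mul (h0 x.1) T G.1 _ (by omega), mul_zero]
  have e1 := LinearMap.finrank_range_add_finrank_ker Φ
  have e2 := Submodule.finrank_mono hker
  rw [LinearMap.finrank_range_of_inj hψ] at e2
  have f1 := finrank_V ℂ L
  have f2 := finrank_V ℂ (L - T * ω)
  have hL1 : 1 ≤ L := le_trans (Nat.mul_pos hT hω1) haL
  have hdim : finrank ℝ (LinearMap.range Φ) ≤ 5 * (T * ω) * L := by
    rw [finrank_real_of_complex]
    obtain ⟨c, hc⟩ := Nat.exists_eq_add_of_le haL
    have hc' : L - T * ω = c := by omega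
    simp only [V] at e1 e2
    rw [hc'] at f2 e2
    generalize T * ω = a at *
    nlinarith
  let poly : (Sx L → Fin (n + 1)) → MvPolynomial (Fin 2) ℤ := fun b =>
    ∑ e : Sx L, monomial e.1 ((b e : ℕ) : ℤ)
  have hcoeff : ∀ b (e : Sx L), coeff e.1 (poly b) = ((b e : ℕ) : ℤ) := fun b e => by
    simp only [poly, coeff_sum, coeff_monomial]
    rw [sum_eq_single e]
    · simp
    · intro e' _ h; rw [if_neg fun h' => h (Subtype.ext h')]
    · simp
  have hcoeff' : ∀ b e, e ∉ Sx L → coeff e (poly b) = 0 := fun b e he => by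
    simp only [poly, coeff_sum, coeff_monomial]
    exact sum_eq_zero fun e' _ => if_neg fun (h : e'.1 = e) => he (h ▸ e'.2)
  have hcb : ∀ b e, 0 ≤ coeff e (poly b) ∧ coeff e (poly b) ≤ n := fun b e => by
    by_cases he : e ∈ Sx L
    · have := hcoeff b ⟨e, he⟩
      have h2 := (b ⟨e, he⟩).2
      simp only at this
      omega
    · rw [hcoeff' b e he]; omega
  have hdeg : ∀ b, (poly b).totalDegree ≤ L := fun b => by
    refine Finset.sup_le fun e he => ?_
    rw [sum_fin2, ← mem_Sx]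
    by_contra h
    exact mem_support_iff.1 he (hcoeff' b e h)
  have hdeg' : ∀ b, map (Int.castRingHom ℂ) (poly b) ∈ V L := fun b =>
    (mem_restrictTotalDegree _ _ _).2 ((deg_map_le _ _).trans (hdeg b))
  let f : (Sx L → Fin (n + 1)) → LinearMap.range Φ := fun b =>
    ⟨Φ ⟨_, hdeg' b⟩, LinearMap.mem_range_self _ _⟩
  have hn' : (3 : ℝ) ≤ n := by exact_mod_cast hn
  have hf : ∀ b, ‖f b‖ ≤ 2 * (n : ℝ) ^ (T + 2) := fun b => by
    change ‖Φ ⟨_, hdeg' b⟩‖ ≤ _
    refine (pi_norm_le_iff_of_nonneg (by positivity)).2 fun x => ?_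
    rw [hnorm, div_le_iff₀ (hMpos _)]
    refine (norm_coeff_Sh_le (B := n) ((deg_map_le _ _).trans (hdeg b)) (fun e => ?_)
      (hM x.1) (hz x.1) _).trans ?_
    · rw [coeff_map, eq_intCast, Complex.norm_intCast]
      have := hcb b e
      exact_mod_cast abs_le.2 ⟨by omega, this.2⟩
    · have k1 : ((Sx L).card : ℝ) ≤ 2 * n ^ 2 := by exact_mod_cast card_Sx_le hLn hn
      have k2 : (L : ℝ) ^ (x.2.1 0 + x.2.1 1) ≤ n ^ (T - 1) :=
        (pow_le_pow_left₀ (by positivity) (by exact_mod_cast hLn) _).trans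
          (pow_le_pow_right₀ (by linarith) (mem_Sx.1 x.2.2))
      have k3 : (n : ℝ) ^ (T + 2) = n ^ 2 * n * n ^ (T - 1) := by
        rw [← pow_succ, ← pow_add]; congr 1; omega
      have := (hMpos x.1).le
      calc _ ≤ 2 * (n : ℝ) ^ 2 * n * n ^ (T - 1) * M x.1 ^ L := by gcongr
        _ = _ := by rw [k3]; ring
  obtain ⟨a, b, hab, hclose⟩ := exists_close f (by positivity) (η := 1 / 3) (by norm_num) hf (by
    rw [Fintype.card_fun, Fintype.card_fin, Fintype.card_coe]
    have k1 : 2 * (2 * (n : ℝ) ^ (T + 2)) / (1 / 3) + 1 ≤ n ^ (T + 5) := by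
      have : (1 : ℝ) ≤ n ^ (T + 2) := one_le_pow₀ (by linarith)
      have h27 : (27 : ℝ) ≤ n ^ 3 := by
        have := pow_le_pow_left₀ (by norm_num) hn' 3
        linarith
      rw [show T + 5 = 3 + (T + 2) by ring, pow_add (n : ℝ) 3]
      nlinarith
    have k2 : (T + 5) * finrank ℝ (LinearMap.range Φ) ≤ (Sx L).card := by
      have := card_Sx L
      have h2 : 2 * ((T + 5) * (5 * (T * ω) * L)) = L * L := by
        conv_rhs => rw [hL]
        rw [← hL]
        conv_rhs => enter [1]; rw [hL]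
        ring
      have h3 := Nat.mul_le_mul_left (T + 5) hdim
      nlinarith
    calc _ ≤ ((n : ℝ) ^ (T + 5)) ^ finrank ℝ (LinearMap.range Φ) :=
          pow_le_pow_left₀ (by positivity) k1 _
      _ ≤ (n : ℝ) ^ (Sx L).card := by
          rw [← pow_mul]; exact pow_le_pow_right₀ (by linarith) k2
      _ < _ := by
          push_cast
          refine pow_lt_pow_left₀ (by linarith) (by positivity) ?_
          have := card_Sx L
          intro h
          rw [h] at this
          simp at this)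
  refine ⟨poly a - poly b, fun h => hab ?_, (totalDegree_sub _ _).trans (max_le (hdeg a) (hdeg b)),
    fun e => ?_, fun g i hi => ?_⟩
  · funext e
    have := congrArg (coeff e.1) (sub_eq_zero.1 h)
    rw [hcoeff, hcoeff] at this
    exact Fin.ext (by exact_mod_cast this)
  · rw [coeff_sub]
    have := hcb a e
    have := hcb b e
    exact abs_le.2 ⟨by omega, by omega⟩
  · change ‖Φ ⟨_, hdeg' a⟩ - Φ ⟨_, hdeg' b⟩‖ < _ at hclose
    rw [← map_sub] at hclose
    have := (norm_le_pi_norm _ (g, ⟨i, mem_Sx.2 (by omega)⟩)).trans hclose.le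
    rw [hnorm, div_le_iff₀ (hMpos _)] at this
    rw [map_sub]
    exact this

end Pool.Agent.Lib.MP_162bbe_gt
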