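import Pool.Agent.Lib.MP_162bbe_gt.Lattice

set_option autoImplicit false

namespace Pool.Agent.Results.MP_162bbe_gt.SmallCompositum

open Module Pool.Agent.Lib.MP_162bbe_gt

/-- Uniform discreteness, with polynomial growth in the degree, for torsion-free arithmetic
subgroups whose field of definition has a small compositum with one of its conjugates. -/
theorem result {G : Type*} [Group G] [TopologicalSpace G] (M r : ℕ)
    (π : Fin r → G →* Matrix (Fin M) (Fin M) ℂ) (hπ : ∀ i, Continuous (π i))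
    (C δ : ℝ) (hδ : 0 < δ) :
    ∃ (c κ : ℝ) (U : ℕ → Set G), 0 < c ∧ 0 < κ ∧
      (∀ t, U t = {g | ∀ i, ∀ z ∈ spectrum ℂ (π i g), ‖z‖ < Real.exp (c * (t : ℝ) ^ κ)}) ∧
      (∀ t, 1 ≤ t → U t ∈ nhds (1 : G)) ∧
      ∀ (Γ : Subgroup G) (k : Type) [Field k] [NumberField k]
        (ρ : Γ →* Matrix (Fin M) (Fin M) k) (S : Fin r → k →+* ℂ),
        (∀ γ : Γ, IsOfFinOrder γ → γ = 1) →
        (∀ γ : Γ, ρ γ = 1 → IsOfFinOrder γ) →
        (∀ (γ : Γ) (n : ℕ), IsIntegral ℤ ((ρ γ).charpoly.coeff n)) →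
        (∀ (i : Fin r) (γ : Γ), (π i γ).charpoly = (ρ γ).charpoly.map (S i)) →
        (∀ σ : k →+* ℂ, σ ∉ Set.range S → ∃ B : ℝ, ∀ γ a b, ‖σ (ρ γ a b)‖ ≤ B) →
        ((∀ i, ∃ σ : k →+* ℂ, σ ∉ Set.range S ∧
            (finrank ℚ ↥((S i).toRatAlgHom.fieldRange ⊔ σ.toRatAlgHom.fieldRange) : ℝ) ≤
              C * (finrank ℚ k : ℝ) ^ (2 - δ)) ∨
          r < Nat.card (k ≃ₐ[ℚ] k) ∨
          ∃ k₀ : IntermediateField ℚ k, r < finrank k₀ k ∧
            (finrank k₀ k : ℝ) ≤ C * (finrank ℚ k : ℝ) ^ (1 - δ)) →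
        ∀ t ≤ finrank ℚ k, ∀ g : G, ∀ γ ∈ Γ, g * γ * g⁻¹ ∈ U t → γ = 1 := by
  obtain ⟨t₀, C', ht₀, hb⟩ := pow_bound (C := C) hδ
  obtain ⟨c, κ, hc, hκ, h⟩ := lattice M r t₀ C' ht₀
  refine ⟨c, κ, _, hc, hκ, fun _ => rfl, fun t ht => ?_, ?_⟩
  · have h1 : 1 < Real.exp (c * (t : ℝ) ^ κ) := Real.one_lt_exp_iff.2 (by positivity)
    simpa only [Matrix.mem_spectrum_iff_isRoot_charpoly, Polynomial.IsRoot] using spec_nhds π hπ h1
  intro Γ k _ _ ρ S htf hker hint hchar hbdd hsmall t ht g γ hγ hU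
  have hd : 1 ≤ finrank ℚ k := finrank_pos
  obtain ⟨n, hn, hρ⟩ := h Γ k ρ S hint hbdd (fun i => by
      rcases hsmall with h1 | h1 | ⟨k₀, h1, h2⟩
      · obtain ⟨σ, hσ, h2⟩ := h1 i
        exact ⟨σ, hσ, hb _ _ hd (Or.inl h2)⟩
      · obtain ⟨σ, hσ, h2⟩ := aut_cond S h1 (S i)
        exact ⟨σ, hσ, hb _ _ hd (Or.inr h2)⟩
      · obtain ⟨σ, hσ, h3⟩ := subfield_cond S k₀ h1 (S i)
        refine ⟨σ, hσ, hb _ _ hd (Or.inl ?_)⟩
        have h4 : (0 : ℝ) < finrank ℚ k := by exact_mod_cast hd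
        rw [show 2 - δ = (1 - δ) + 1 by ring, Real.rpow_add h4, Real.rpow_one, ← mul_assoc]
        exact le_trans (by exact_mod_cast h3) (mul_le_mul_of_nonneg_right h2 h4.le))
    ⟨γ, hγ⟩ (fun i z hz => by
      have h1 : (π i (g * γ * g⁻¹)).charpoly = (π i γ).charpoly := by
        rw [map_mul, Matrix.charpoly_mul_comm, ← map_mul, inv_mul_cancel_left]
      refine (hU i z ?_).trans_le (Real.exp_le_exp.2 ?_)
      · rw [Matrix.mem_spectrum_iff_isRoot_charpoly, h1, hchar i ⟨γ, hγ⟩, Polynomial.IsRoot,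
          ← Polynomial.eval₂_eq_eval_map]
        exact hz
      · exact mul_le_mul_of_nonneg_left
          (Real.rpow_le_rpow (by positivity) (by exact_mod_cast ht) hκ.le) hc.le)
  exact congrArg Subtype.val (htf _ ((hker _ hρ).of_pow hn.ne'))

end Pool.Agent.Results.MP_162bbe_gt.SmallCompositum
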