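import Pool.Agent.Lib.MP_162bbe_gt.TLat

set_option autoImplicit false

namespace Pool.Agent.Results.MP_162bbe_gt.SmallOrbits

open Module IntermediateField Pool.Agent.Lib.MP_162bbe_gt

/-- Uniform discreteness, with growth in the degree, for torsion-free arithmetic subgroups whose
field of definition has a solvable or a polynomially small normal closure, or is not nearly
`m`-fold transitive over the subfields cut out by the non-compact places. -/
theorem result {G : Type*} [Group G] [TopologicalSpace G] (M r m : ℕ)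
    (π : Fin r → G →* Matrix (Fin M) (Fin M) ℂ) (hπ : ∀ i, Continuous (π i)) :
    ∃ κ : ℕ, ∀ C : ℝ, ∃ (c : ℝ) (U : ℝ → Set G), 0 < c ∧
      (∀ t, U t = {g | ∀ i, ∀ z ∈ spectrum ℂ (π i g), ‖z‖ < Real.exp (c * t)}) ∧
      (∀ t, 0 < t → U t ∈ nhds (1 : G)) ∧
      ∀ (Γ : Subgroup G) (k : Type) [Field k] [NumberField k]
        (ρ : Γ →* Matrix (Fin M) (Fin M) k) (S : Fin r → k →+* ℂ),
        (∀ γ : Γ, IsOfFinOrder γ → γ = 1) →
        (∀ γ : Γ, IsNilpotent (ρ γ - 1) → IsOfFinOrder γ) →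
        (∀ (γ : Γ) (n : ℕ), IsIntegral ℤ ((ρ γ).charpoly.coeff n)) →
        (∀ (i : Fin r) (γ : Γ), (π i γ).charpoly = (ρ γ).charpoly.map (S i)) →
        (∀ σ : k →+* ℂ, σ ∉ Set.range S → ∃ B : ℝ, ∀ γ a b, ‖σ (ρ γ a b)‖ ≤ B) →
        ∀ t : ℝ, 0 < t → t ^ (m + 5) ≤ finrank ℚ k →
        (Group.IsSolvable (normalClosure ℚ k ℂ ≃ₐ[ℚ] normalClosure ℚ k ℂ) ∨
          finrank ℚ (normalClosure ℚ k ℂ) ≤ finrank ℚ k ^ m ∨
          ∀ (i : Fin r) (k₁ : IntermediateField ℚ k),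
            (∀ σ : k →+* ℂ, (∀ x ∈ k₁, σ x = S i x) → σ ∈ Set.range S) →
            ∃ (j : ℕ) (σ : Fin j → k₁ →+* ℂ), 1 ≤ j ∧ j ≤ m ∧ Function.Injective σ ∧
              (finrank ℚ ↥(⨆ l, (σ l).toRatAlgHom.fieldRange) : ℝ) *
                (t * Real.log (3 * finrank ℚ k) ^ κ) ^ j ≤ C * finrank ℚ k ^ j) →
        ∀ g : G, ∀ γ ∈ Γ, g * γ * g⁻¹ ∈ U t → γ = 1 := by
  obtain ⟨κ, hκ⟩ := lattice_n M r m
  refine ⟨κ, fun C => ?_⟩
  obtain ⟨c, hc, h⟩ := hκ C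
  refine ⟨c, _, hc, fun _ => rfl, fun t ht => ?_, ?_⟩
  · have h1 : 1 < Real.exp (c * t) := Real.one_lt_exp_iff.2 (by positivity)
    simpa only [Matrix.mem_spectrum_iff_isRoot_charpoly, Polynomial.IsRoot] using spec_nhds π hπ h1
  intro Γ k _ _ ρ S htf huni hint hchar hbdd t ht htd hyp g γ hγ hU
  obtain ⟨n, hn, hρ⟩ := h Γ k ρ S t hint hbdd ht.le htd hyp ⟨γ, hγ⟩ fun i z hz => by
    have h1 : (π i (g * γ * g⁻¹)).charpoly = (π i γ).charpoly := by
      rw [map_mul, Matrix.charpoly_mul_comm, ← map_mul, inv_mul_cancel_left]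
    refine (hU i z ?_).le
    rw [Matrix.mem_spectrum_iff_isRoot_charpoly, h1, hchar i ⟨γ, hγ⟩, Polynomial.IsRoot,
      ← Polynomial.eval₂_eq_eval_map]
    exact hz
  exact congrArg Subtype.val (htf _ ((huni _ hρ).of_pow hn.ne'))

end Pool.Agent.Results.MP_162bbe_gt.SmallOrbits
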