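import Pool.Agent.Lib.MP_162bbe_gt.SU.Star
import Pool.Agent.Lib.MP_162bbe_gt.SU.Tube
import Pool.Agent.Lib.MP_162bbe_gt.SU.Contract

set_option autoImplicit false

namespace Pool.Agent.Results.MP_162bbe_gt.SolvableField

open Pool.Agent.Lib.MP_162bbe_gt.SU

/-- Uniform discreteness of the torsion-free uniform lattices that come from unitary groups of
central simple algebras of any index over a field with a solvable or small normal closure, in every
group `G` that has a common quotient `H` with a product of real forms of `SL(n)`. -/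
theorem result (n r m : ℕ) (κ : Fin r → Kind) (hκ : ∀ i, 0 < realRank n (κ i)) :
    ∃ a : ℕ, ∀ (C : ℝ) (G H : Type) [Group G] [TopologicalSpace G] [IsTopologicalGroup G]
      [T2Space G] [Group H] [TopologicalSpace H] (p : G →* H) [Finite p.ker]
      (q : (Π i, factor n (κ i)) →* H), IsOpenQuotientMap p → IsOpenQuotientMap q →
      UnifDiscrete {Γ : Subgroup G | DiscreteTopology Γ ∧ CompactSpace (G ⧸ Γ) ∧
        (∀ γ ∈ Γ, IsOfFinOrder γ → γ = 1) ∧
        SmallType (fun i g => (g i).1.1) m a C ((Γ.map p).comap q)} := by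
  obtain ⟨a, ha⟩ := small_nil n r m κ hκ
  refine ⟨a, fun C G H _ _ _ _ _ _ p _ q hp hq => ?_⟩
  obtain ⟨U, hU, h⟩ := ha C
  refine ⟨p ⁻¹' (q '' U), hp.continuous.continuousAt.preimage_mem_nhds ?_, ?_⟩
  · rw [map_one, ← map_one q]
    exact hq.isOpenMap.image_mem_nhds hU
  rintro Γ ⟨_, _, htf, hΓ⟩ g γ hγ ⟨u, hu, hu'⟩
  obtain ⟨s, hs⟩ := hq.surjective.hasRightInverse
  let Λ := (Γ.map p).comap q
  have hc : Continuous fun x : H => (s x : _ ⧸ Λ) := by
    rw [hq.isQuotientMap.continuous_iff]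
    have h1 : (fun x : H => (s x : _ ⧸ Λ)) ∘ q = QuotientGroup.mk := funext fun a =>
      QuotientGroup.eq.2 (by
        rw [Subgroup.mem_comap, map_mul, map_inv, hs, inv_mul_cancel]
        exact one_mem _)
    rw [h1]
    exact QuotientGroup.continuous_mk
  let Φ : G ⧸ Γ → _ ⧸ Λ := Quotient.lift (fun a => (s (p a) : _ ⧸ Λ)) fun a b hab =>
    QuotientGroup.eq.2 (by
      rw [Subgroup.mem_comap, map_mul, map_inv, hs, hs, ← map_inv, ← map_mul]
      exact Subgroup.mem_map_of_mem p (QuotientGroup.leftRel_apply.1 hab))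
  have hΦ : Function.Surjective Φ := by
    rintro ⟨a⟩
    obtain ⟨b, hb⟩ := hp.surjective (q a)
    refine ⟨(b : G ⧸ Γ), QuotientGroup.eq.2 ?_⟩
    rw [Subgroup.mem_comap, map_mul, map_inv, hs, hb, inv_mul_cancel]
    exact one_mem _
  have h2 : q ((s (p g))⁻¹ * u * s (p g)) = p γ := by
    rw [map_mul, map_mul, map_inv, hs, hu', ← map_inv, ← map_mul, ← map_mul]
    simp [mul_assoc]
  obtain ⟨M, hM, h3⟩ := h Λ (hΦ.compactSpace (Continuous.quotient_lift (hc.comp hp.continuous) _))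
    hΓ (s (p g)) ((s (p g))⁻¹ * u * s (p g)) (by
      rw [Subgroup.mem_comap, h2]
      exact Subgroup.mem_map_of_mem p hγ) (by simpa [mul_assoc] using hu)
  obtain ⟨W, hW, h4⟩ := tube p Γ
  obtain ⟨c, w, hw, h5⟩ := contract hκ _ h3 (W := q ⁻¹' (p '' W))
    (hq.continuous.continuousAt.preimage_mem_nhds (by
      rw [map_one, ← map_one p]
      exact hp.isOpenMap.image_mem_nhds hW))
  obtain ⟨b, hb⟩ := hp.surjective (q c)
  have h6 : p (b⁻¹ * w * b) = p (γ ^ M) := by
    rw [map_mul, map_mul, map_inv, hb, h5, map_mul, map_mul, map_inv, map_pow, h2, map_pow]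
    simp [mul_assoc]
  have h7 := h4 b w hw (h6 ▸ Subgroup.mem_map_of_mem p (pow_mem hγ M))
  refine htf γ hγ (IsOfFinOrder.of_pow (n := M) ?_ hM.ne')
  exact p.ker.subtype.isOfFinOrder (isOfFinOrder_of_finite (⟨γ ^ M, by
    rw [MonoidHom.mem_ker, ← h6, h7, mul_one, inv_mul_cancel, map_one]⟩ : p.ker))

end Pool.Agent.Results.MP_162bbe_gt.SolvableField
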