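import Pool.Agent.Lib.MP_162bbe_gt.Siegel
import Pool.Agent.Lib.MP_162bbe_gt.Padic
import Pool.Agent.Lib.MP_162bbe_gt.Group

set_option autoImplicit false

/-! The construction and extrapolation steps. -/

namespace Pool.Agent.Lib.MP_162bbe_gt

open MvPolynomial Finset NumberField

variable {N : Type*} [Field N] [NumberField N] [IsGalois ℚ N]

omit [IsGalois ℚ N] in
lemma smul_coeff_Sh (g : N ≃ₐ[ℚ] N) (x : Fin 2 → 𝓞 N) (m : ℕ) (F : MvPolynomial (Fin 2) ℤ)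
    (i : Fin 2 →₀ ℕ) :
    coeff i (Sh (fun l => g • x l ^ m) (map (Int.castRingHom (𝓞 N)) F)) =
      g • coeff i (Sh (fun l => x l ^ m) (map (Int.castRingHom (𝓞 N)) F)) :=
  (map_coeff_Sh (MulSemiringAction.toRingHom _ _ g) _ F i).symm

omit [IsGalois ℚ N] in
lemma emb_coeff_Sh (j : N →+* ℂ) (g : N ≃ₐ[ℚ] N) (x : Fin 2 → 𝓞 N) (m : ℕ)
    (F : MvPolynomial (Fin 2) ℤ) (i : Fin 2 →₀ ℕ) :
    j (g (coeff i (Sh (fun l => x l ^ m) (map (Int.castRingHom (𝓞 N)) F)) : 𝓞 N)) =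
      coeff i (Sh (fun l => j (g (x l)) ^ m) (map (Int.castRingHom ℂ) F)) := by
  have := map_coeff_Sh ((j.comp (g : N →+* N)).comp (algebraMap (𝓞 N) N)) (fun l => x l ^ m) F i
  simpa using this

lemma van_of_small (j : N →+* ℂ) (x : Fin 2 → 𝓞 N) {m T L : ℕ} {F : MvPolynomial (Fin 2) ℤ}
    (hF : ∀ (g : N ≃ₐ[ℚ] N) (i : Fin 2 →₀ ℕ), i 0 + i 1 < T →
      ‖coeff i (Sh (fun l => j (g (x l)) ^ m) (map (Int.castRingHom ℂ) F))‖ ≤
        1 / 3 * (Mx j (fun l => (x l : N)) g ^ m) ^ L)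
    (hE : ∏ g, Mx j (fun l => (x l : N)) g ^ (m * L) ≤ Real.exp 1 ^ Fintype.card (N ≃ₐ[ℚ] N))
    (g : N ≃ₐ[ℚ] N) : Van (fun l => g • x l ^ m) T (map (Int.castRingHom (𝓞 N)) F) := by
  intro i hi
  rw [smul_coeff_Sh]
  set c := coeff i (Sh (fun l => x l ^ m) (map (Int.castRingHom (𝓞 N)) F)) with hc
  by_cases h0 : c = 0
  · rw [h0, smul_zero]
  exfalso
  have h1 : (1 : ℝ) ≤ nrm c := by exact_mod_cast Nat.pos_of_ne_zero (nrm_ne_zero h0)
  rw [nrm_eq_prod j] at h1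
  have h2 : ∏ g : N ≃ₐ[ℚ] N, ‖j (g (c : N))‖ ≤
      ∏ g : N ≃ₐ[ℚ] N, (1 / 3 * Mx j (fun l => (x l : N)) g ^ (m * L)) :=
    prod_le_prod (fun _ _ => norm_nonneg _) fun g _ => by
      rw [hc, emb_coeff_Sh, pow_mul]; exact hF g i hi
  rw [prod_mul_distrib, prod_const, card_univ] at h2
  have h3 : (1 / 3 : ℝ) ^ Fintype.card (N ≃ₐ[ℚ] N) * Real.exp 1 ^ Fintype.card (N ≃ₐ[ℚ] N) < 1 := by
    rw [← mul_pow]
    refine pow_lt_one₀ (by positivity) ?_ Fintype.card_ne_zero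
    linarith [Real.exp_one_lt_d9]
  have h4 := mul_le_mul_of_nonneg_left hE
    (by positivity : 0 ≤ (1 / 3 : ℝ) ^ Fintype.card (N ≃ₐ[ℚ] N))
  linarith

/-- the different-like element -/
noncomputable def dd (P : Polynomial ℤ) (x : Fin 2 → 𝓞 N) : 𝓞 N :=
  Polynomial.aeval (x 0) (Polynomial.derivative P) * Polynomial.aeval (x 1) (Polynomial.derivative P)

lemma extrap (j : N →+* ℂ) {P : Polynomial ℤ} (hP : P.Monic) {x : Fin 2 → 𝓞 N}
    (hx : ∀ l, Polynomial.aeval (x l) P = 0) (hδ : dd P x ≠ 0) {m T T' L n p : ℕ}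
    {F : MvPolynomial (Fin 2) ℤ} (hL : F.totalDegree ≤ L) (hLn : L ≤ n) (hn : 3 ≤ n)
    (hB : ∀ e, |coeff e F| ≤ n) (hp : p.Prime)
    (hgood : ¬ p ^ Fintype.card (N ≃ₐ[ℚ] N) ∣ nrm (dd P x) ^ 4)
    (hbig : n ^ (2 * T' + 8) < p ^ (T + 1 - T'))
    (hF : ∀ g : N ≃ₐ[ℚ] N, Van (fun l => g • x l ^ m) T (map (Int.castRingHom (𝓞 N)) F))
    (hE : ∏ g, Mx j (fun l => (x l : N)) g ^ (m * p * L) ≤
      Real.exp 1 ^ Fintype.card (N ≃ₐ[ℚ] N))
    (g : N ≃ₐ[ℚ] N) : Van (fun l => g • x l ^ (m * p)) T' (map (Int.castRingHom (𝓞 N)) F) := by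
  intro i hi
  rw [smul_coeff_Sh]
  set c := coeff i (Sh (fun l => x l ^ (m * p)) (map (Int.castRingHom (𝓞 N)) F)) with hc
  by_cases h0 : c = 0
  · rw [h0, smul_zero]
  exfalso
  set D := Fintype.card (N ≃ₐ[ℚ] N) with hD
  have hD0 : D ≠ 0 := Fintype.card_ne_zero
  have h1 := pow_le_nrm_sq hp h0 hδ (padic_dvd hp hP hx m hF i) hgood
  have hn' : (3 : ℝ) ≤ n := by exact_mod_cast hn
  have h2 : (nrm c : ℝ) ≤ ∏ g : N ≃ₐ[ℚ] N,
      (2 * (n : ℝ) ^ (T' + 2) * Mx j (fun l => (x l : N)) g ^ (m * p * L)) := by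
    rw [nrm_eq_prod j]
    refine prod_le_prod (fun _ _ => norm_nonneg _) fun g _ => ?_
    have hM := one_le_Mx j (fun l => (x l : N)) g
    rw [hc, emb_coeff_Sh]
    refine (norm_coeff_Sh_le (B := n) (M := Mx j (fun l => (x l : N)) g ^ (m * p))
      ((deg_map_le _ _).trans hL) (fun e => ?_) (one_le_pow₀ hM) (fun l => ?_) i).trans ?_
    · rw [coeff_map, eq_intCast, Complex.norm_intCast]
      exact_mod_cast hB e
    · rw [norm_pow]
      exact pow_le_pow_left₀ (norm_nonneg _) (le_Mx j (fun l => (x l : N)) g l) _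
    · have k1 : ((Sx L).card : ℝ) ≤ 2 * n ^ 2 := by exact_mod_cast card_Sx_le hLn hn
      have k2 : (L : ℝ) ^ (i 0 + i 1) ≤ n ^ (T' - 1) :=
        (pow_le_pow_left₀ (by positivity) (by exact_mod_cast hLn) _).trans
          (pow_le_pow_right₀ (by linarith) (by omega))
      have k3 : (n : ℝ) ^ (T' + 2) = n ^ 2 * n * n ^ (T' - 1) := by
        rw [← pow_succ, ← pow_add]; congr 1; omega
      rw [← pow_mul]
      calc _ ≤ 2 * (n : ℝ) ^ 2 * n * n ^ (T' - 1) * Mx j (fun l => (x l : N)) g ^ (m * p * L) := by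
            gcongr
        _ = _ := by rw [k3]; ring
  rw [prod_mul_distrib, prod_const, card_univ, ← hD] at h2
  have h3 : (nrm c : ℝ) ≤ ((n : ℝ) ^ (T' + 4)) ^ D := by
    refine h2.trans ((mul_le_mul_of_nonneg_left hE (by positivity)).trans ?_)
    rw [← mul_pow]
    refine pow_le_pow_left₀ (by positivity) ?_ _
    have : (9 : ℝ) ≤ n ^ 2 := by nlinarith
    have he := Real.exp_one_lt_d9
    have h5 : (0 : ℝ) ≤ n ^ (T' + 2) := by positivity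
    rw [show T' + 4 = (T' + 2) + 2 by ring, pow_add (n : ℝ) (T' + 2) 2]
    nlinarith
  have h4 : nrm c ≤ (n ^ (T' + 4)) ^ D := by exact_mod_cast h3
  have h5 : nrm c ^ 2 ≤ (n ^ (2 * T' + 8)) ^ D := by
    refine (Nat.pow_le_pow_left h4 2).trans (le_of_eq ?_)
    rw [← pow_mul, ← pow_mul, ← pow_mul]; congr 1; ring
  have h6 : (p ^ (T + 1 - T')) ^ D ≤ p ^ ((T - (i 0 + i 1)) * D) := by
    rw [← pow_mul]
    exact Nat.pow_le_pow_right hp.pos (Nat.mul_le_mul_right _ (by omega))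
  exact absurd (h6.trans (h1.trans h5)) (not_le.2 (Nat.pow_lt_pow_left hbig hD0))

lemma exists_vanish {F : Type*} [Field F] (Z : Finset (Fin 2 → F)) {d : ℕ}
    (h : 2 * Z.card < (d + 1) * (d + 2)) :
    ∃ W : MvPolynomial (Fin 2) F, W ≠ 0 ∧ W.totalDegree ≤ d ∧ ∀ z ∈ Z, eval z W = 0 := by
  let ev : restrictTotalDegree (Fin 2) F d →ₗ[F] (Z → F) :=
    LinearMap.pi fun z => ((aeval (z : Fin 2 → F)).toLinearMap).comp (Submodule.subtype _)
  have hev : ∀ P (z : Z), ev P z = eval z.1 P.1 := fun P z => by simp [ev, aeval_eq_eval]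
  have h1 := finrank_V F d
  obtain ⟨W, hW, hW0⟩ := (Submodule.ne_bot_iff _).1 (LinearMap.ker_ne_bot_of_finrank_lt (f := ev)
    (by rw [Module.finrank_pi, Fintype.card_coe]; omega))
  refine ⟨W.1, fun h => hW0 (Subtype.ext h), (mem_restrictTotalDegree _ _ _).1 W.2, fun z hz => ?_⟩
  rw [← hev W ⟨z, hz⟩, LinearMap.mem_ker.1 hW, Pi.zero_apply]

/-- the least degree of a curve through `Z` -/
noncomputable def obs {F : Type*} [Field F] (Z : Finset (Fin 2 → F)) : ℕ :=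
  sInf {d | ∃ W : MvPolynomial (Fin 2) F, W ≠ 0 ∧ W.totalDegree ≤ d ∧ ∀ z ∈ Z, eval z W = 0}

lemma obs_spec {F : Type*} [Field F] (Z : Finset (Fin 2 → F)) :
    ∃ W : MvPolynomial (Fin 2) F, W ≠ 0 ∧ W.totalDegree ≤ obs Z ∧ ∀ z ∈ Z, eval z W = 0 :=
  Nat.sInf_mem (s := {d | ∃ W : MvPolynomial (Fin 2) F, W ≠ 0 ∧ W.totalDegree ≤ d ∧
    ∀ z ∈ Z, eval z W = 0}) ⟨Z.card, exists_vanish Z (by nlinarith)⟩

lemma obs_le {F : Type*} [Field F] {Z : Finset (Fin 2 → F)} {W : MvPolynomial (Fin 2) F}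
    (h0 : W ≠ 0) (h : ∀ z ∈ Z, eval z W = 0) : obs Z ≤ W.totalDegree :=
  Nat.sInf_le ⟨W, h0, le_rfl, h⟩

lemma obs_pos {F : Type*} [Field F] {Z : Finset (Fin 2 → F)} (hZ : Z.Nonempty) : 1 ≤ obs Z := by
  obtain ⟨W, h0, h1, h2⟩ := obs_spec Z
  obtain ⟨z, hz⟩ := hZ
  by_contra h
  have h3 : W.totalDegree = 0 := by omega
  rw [totalDegree_eq_zero_iff_eq_C] at h3
  have h4 := h2 z hz
  rw [h3, eval_C] at h4
  exact h0 (by rw [h3, h4, C_0])

lemma obs_sq_le {F : Type*} [Field F] (Z : Finset (Fin 2 → F)) : obs Z ^ 2 ≤ 2 * Z.card := by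
  by_contra h
  obtain ⟨d, hd⟩ : ∃ d, obs Z = d + 1 := ⟨obs Z - 1, by
    rcases Nat.eq_zero_or_pos (obs Z) with h0 | h0
    · rw [h0] at h; simp at h
    · omega⟩
  rw [hd] at h
  obtain ⟨W, h0, h1, h2⟩ := exists_vanish Z (d := d) (by nlinarith)
  have := obs_le h0 h2
  omega

end Pool.Agent.Lib.MP_162bbe_gt
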