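import Pool.Agent.Lib.MP_f61260_nt.Gal

set_option autoImplicit false

/-! Small suborbits, blocks and tuples with a small orbit. -/

namespace Pool.Agent.Lib.MP_162bbe_gt

open Finset MulAction Pool.Agent.Lib.MP_f61260_nt

variable {𝒢 X : Type} [Group 𝒢] [MulAction 𝒢 X]

/-- the orbit of `y` under `B` has at most `n` points -/
def Orb (B : Subgroup 𝒢) (y : X) (n : ℕ) : Prop := ∃ R : Finset X, #R ≤ n ∧ ∀ σ ∈ B, σ • y ∈ R

lemma Orb.idx {B : Subgroup 𝒢} {y : X} {n : ℕ} (h : Orb B y n) : IdxLe B (stabilizer 𝒢 y) n := by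
  obtain ⟨R, hR, h⟩ := h
  refine IdxLe.mono (exists_trans R (fun σ => σ • y) h fun σ _ τ _ hστ => ?_) hR
  rw [mem_stabilizer_iff, mul_smul, ← hστ, inv_smul_smul]

lemma orb_of_idx {B : Subgroup 𝒢} {y : X} {n : ℕ} (h : IdxLe B (stabilizer 𝒢 y) n) :
    Orb B y n := by
  classical
  obtain ⟨T, hT⟩ := h
  refine ⟨univ.image fun i => T.r i • y, card_image_le.trans hT, fun σ hσ => ?_⟩
  obtain ⟨i, hi⟩ := T.ex σ hσ
  refine mem_image.2 ⟨i, mem_univ _, ?_⟩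
  rw [mem_stabilizer_iff, mul_smul, inv_smul_eq_iff] at hi
  exact hi.symm

lemma Orb.mono {B : Subgroup 𝒢} {y : X} {n m : ℕ} (h : Orb B y n) (hnm : n ≤ m) : Orb B y m :=
  let ⟨R, hR, h⟩ := h; ⟨R, hR.trans hnm, h⟩

lemma Orb.top_smul {y : X} {n : ℕ} (h : Orb (⊤ : Subgroup 𝒢) y n) (g : 𝒢) :
    Orb (⊤ : Subgroup 𝒢) (g • y) n :=
  let ⟨R, hR, h⟩ := h; ⟨R, hR, fun σ _ => by rw [← mul_smul]; exact h _ trivial⟩

lemma Orb.conj {x y : X} {n : ℕ} (h : Orb (stabilizer 𝒢 x) y n) (g : 𝒢) :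
    Orb (stabilizer 𝒢 (g • x)) (g • y) n := by
  classical
  obtain ⟨R, hR, h⟩ := h
  refine ⟨R.image (g • ·), card_image_le.trans hR, fun σ hσ => mem_image.2
    ⟨_, h (g⁻¹ * σ * g) ?_, by simp [mul_smul]⟩⟩
  rw [mem_stabilizer_iff] at hσ ⊢
  rw [mul_smul, mul_smul, hσ, inv_smul_smul]

lemma idx_tri {B A A' : Subgroup 𝒢} {n m : ℕ} (h : IdxLe B A n) (h' : IdxLe A A' m) :
    IdxLe B A' (n * m) := by
  have h1 : IdxLe B (B ⊓ A) n := h.restrict le_rfl le_rfl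
  have h2 : IdxLe (B ⊓ A) (B ⊓ A ⊓ A') m := h'.restrict inf_le_right le_rfl
  exact (h1.trans h2 inf_le_left inf_le_left).restrict le_rfl fun x hx => hx.2.2

lemma idx_min {B A : Subgroup 𝒢} {n m : ℕ} (h : IdxLe B A n) (h' : IdxLe B A m) :
    IdxLe B A (min n m) := by
  obtain ⟨T, hT⟩ := h
  obtain ⟨T', hT'⟩ := h'
  exact ⟨T, le_min hT (T.card_eq T' ▸ hT')⟩

lemma idx_pos {B A : Subgroup 𝒢} {n : ℕ} (h : IdxLe B A n) : 1 ≤ n :=
  let ⟨T, hT⟩ := h; T.card_pos.trans_le hT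

lemma idx_le {B A A' : Subgroup 𝒢} {n : ℕ} (h : IdxLe B A n) (hA : A ≤ A') : IdxLe B A' n :=
  h.restrict le_rfl (inf_le_right.trans hA)

theorem block (x₀ : X) (T : Finset X) {r B : ℕ} (hT : #T ≤ r) (hB : 1 ≤ B) :
    (∃ g : 𝒢, g • x₀ ∉ T ∧ Orb (stabilizer 𝒢 x₀) (g • x₀) (B ^ 2 ^ r)) ∨
    ∃ H : Subgroup 𝒢, stabilizer 𝒢 x₀ ≤ H ∧ (∀ h ∈ H, h • x₀ ∈ T) ∧
      ∀ g, g ∉ H → ¬ Orb (stabilizer 𝒢 x₀) (g • x₀) B := by
  classical
  by_cases h1 : ∃ g : 𝒢, g • x₀ ∉ T ∧ Orb (stabilizer 𝒢 x₀) (g • x₀) (B ^ 2 ^ r)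
  · exact Or.inl h1
  right
  push Not at h1
  have hmono : ∀ {i j : ℕ}, i ≤ j → B ^ 2 ^ i ≤ B ^ 2 ^ j := fun h =>
    Nat.pow_le_pow_right hB (Nat.pow_le_pow_right two_pos h)
  have hmem : ∀ i ≤ r, ∀ g : 𝒢, Orb (stabilizer 𝒢 x₀) (g • x₀) (B ^ 2 ^ i) → g • x₀ ∈ T :=
    fun i hi g hg => by_contra fun h => h1 g h (hg.mono (hmono hi))
  have hst : ∀ g ∈ stabilizer 𝒢 x₀, ∀ i, Orb (stabilizer 𝒢 x₀) (g • x₀) (B ^ 2 ^ i) :=
    fun g hg i => ⟨{x₀}, by simpa using Nat.one_le_pow _ _ hB, fun σ hσ => by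
      rw [mem_stabilizer_iff.1 hg, mem_stabilizer_iff.1 hσ]; simp⟩
  let P : ℕ → Finset X := fun i => {y ∈ T | Orb (stabilizer 𝒢 x₀) y (B ^ 2 ^ i)}
  have hP : ∀ i, P i ⊆ P (i + 1) := fun i y hy =>
    mem_filter.2 ⟨(mem_filter.1 hy).1, (mem_filter.1 hy).2.mono (hmono (by omega))⟩
  obtain ⟨i, hi, hPi⟩ : ∃ i < r, P i = P (i + 1) := by
    by_contra hc
    push Not at hc
    have key : ∀ i ≤ r, i + 1 ≤ #(P i) := fun i => by
      induction i with
      | zero =>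
        intro _
        exact card_pos.2 ⟨_, mem_filter.2 ⟨hmem 0 (by omega) 1 (hst 1 (one_mem _) 0),
          hst 1 (one_mem _) 0⟩⟩
      | succ i ih =>
        intro h
        have := card_lt_card (ssubset_of_ne_of_subset (hc i (by omega)) (hP i))
        have := ih (by omega)
        omega
    have := (key r le_rfl).trans ((card_filter_le _ _).trans hT)
    omega
  have hmul : ∀ a b : 𝒢, Orb (stabilizer 𝒢 x₀) (a • x₀) (B ^ 2 ^ i) →
      Orb (stabilizer 𝒢 x₀) (b • x₀) (B ^ 2 ^ i) →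
      Orb (stabilizer 𝒢 x₀) ((a * b) • x₀) (B ^ 2 ^ i) := fun a b ha hb => by
    have h2 := orb_of_idx (idx_tri ha.idx (hb.conj a).idx)
    rw [← pow_add, ← mul_two, ← pow_succ, ← mul_smul] at h2
    have h3 : (a * b) • x₀ ∈ P (i + 1) := mem_filter.2 ⟨hmem _ hi _ h2, h2⟩
    rw [← hPi] at h3
    exact (mem_filter.1 h3).2
  have hpow : ∀ a : 𝒢, Orb (stabilizer 𝒢 x₀) (a • x₀) (B ^ 2 ^ i) → ∀ n : ℕ,
      Orb (stabilizer 𝒢 x₀) ((a ^ n) • x₀) (B ^ 2 ^ i) := fun a ha n => by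
    induction n with
    | zero => exact hst _ (by simp) i
    | succ n ih => rw [pow_succ]; exact hmul _ _ ih ha
  refine ⟨{ carrier := {g | Orb (stabilizer 𝒢 x₀) (g • x₀) (B ^ 2 ^ i)}
            mul_mem' := fun {a b} ha hb => hmul a b ha hb
            one_mem' := hst 1 (one_mem _) i
            inv_mem' := fun {a} ha => ?_ }, fun g hg => hst g hg i,
    fun h hh => hmem i hi.le h hh, fun g hg h => hg (h.mono ?_)⟩
  · obtain ⟨u, v, huv, h⟩ := Set.Finite.exists_lt_map_eq_of_forall_mem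
      (f := fun n : ℕ => (a ^ n) • x₀) (t := (T : Set X))
      (fun n => hmem i hi.le _ (hpow a ha n)) T.finite_toSet
    obtain ⟨w, rfl⟩ := Nat.exists_eq_add_of_lt huv
    rw [add_assoc, pow_add, mul_smul, smul_left_cancel_iff, pow_succ', mul_smul,
      ← inv_smul_eq_iff] at h
    change Orb _ _ _
    rw [h]
    exact hpow a ha w
  · exact Nat.le_self_pow (by positivity) B

theorem avoid (x₀ : X) (T : Finset X) {r M : ℕ} (hT : #T ≤ r) (A : Subgroup 𝒢)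
    (hA : IdxLe (stabilizer 𝒢 x₀) A M) {ι : Type} (s : Finset ι) (y : ι → X)
    (hy : ∀ b ∈ s, ¬ Orb (stabilizer 𝒢 x₀) (y b) (M * (#s * r))) :
    ∃ u ∈ A, ∀ b ∈ s, u • y b ∉ T := by
  classical
  by_contra hc
  push Not at hc
  have hex : ∀ p : ι × X, ∃ g : A, (∃ u : A, (u : 𝒢) • y p.1 = p.2) → (g : 𝒢) • y p.1 = p.2 :=
    fun p => by
      by_cases h : ∃ u : A, (u : 𝒢) • y p.1 = p.2
      · exact ⟨h.choose, fun _ => h.choose_spec⟩
      · exact ⟨1, fun h' => absurd h' h⟩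
  choose g hg using hex
  obtain ⟨p, hp, hfi, hle⟩ := Subgroup.exists_index_le_card_of_leftCoset_cover
    (H := fun p : ι × X => (stabilizer 𝒢 (y p.1)).subgroupOf A) (g := g) (s := s ×ˢ T) (by
      refine Set.eq_univ_of_forall fun u => ?_
      obtain ⟨b, hb, hu⟩ := hc u u.2
      refine Set.mem_iUnion₂.2 ⟨(b, (u : 𝒢) • y b), mem_product.2 ⟨hb, hu⟩, ?_⟩
      rw [mem_leftCoset_iff, SetLike.mem_coe, Subgroup.mem_subgroupOf, mem_stabilizer_iff,
        Subgroup.coe_mul, Subgroup.coe_inv, mul_smul, inv_smul_eq_iff]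
      exact (hg (b, (u : 𝒢) • y b) ⟨u, rfl⟩).symm)
  refine hy p.1 (mem_product.1 hp).1 (orb_of_idx (idx_tri hA (Orb.idx ?_)))
  let _ := Fintype.ofFinite (A ⧸ (stabilizer 𝒢 (y p.1)).subgroupOf A)
  refine ⟨univ.image fun c : A ⧸ (stabilizer 𝒢 (y p.1)).subgroupOf A => (c.out : 𝒢) • y p.1,
    card_image_le.trans ?_, fun σ hσ => mem_image.2 ⟨((⟨σ, hσ⟩ : A) : _ ⧸ _), mem_univ _, ?_⟩⟩
  · rw [card_univ, ← Nat.card_eq_fintype_card]
    refine le_trans hle ?_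
    rw [card_product]
    exact Nat.mul_le_mul_left _ hT
  · have := QuotientGroup.eq.1 (QuotientGroup.out_eq'
      ((⟨σ, hσ⟩ : A) : A ⧸ (stabilizer 𝒢 (y p.1)).subgroupOf A))
    rw [Subgroup.mem_subgroupOf, mem_stabilizer_iff, Subgroup.coe_mul, Subgroup.coe_inv, mul_smul,
      inv_smul_eq_iff] at this
    exact this.symm

/-- `j` distinct translates of `x` whose common stabiliser has index at most `D` -/
def Tup (𝒢 : Type) {X : Type} [Group 𝒢] [MulAction 𝒢 X] (x : X) (j D : ℕ) : Prop :=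
  ∃ g : Fin j → 𝒢, Function.Injective (fun a => g a • x) ∧
    IdxLe ⊤ (⨅ a, stabilizer 𝒢 (g a • x)) D

lemma tup_of_dep {x : X} {d j : ℕ} (hd : Orb (⊤ : Subgroup 𝒢) x d) (g : Fin (j + 1) → 𝒢)
    (hg : Function.Injective fun a => g a • x)
    (h : ∀ σ : 𝒢, (∀ a : Fin j, σ • g a.succ • x = g a.succ • x) → σ • g 0 • x = g 0 • x) :
    Tup 𝒢 x (j + 1) (d ^ j) := by
  refine ⟨g, hg, ?_⟩
  have h1 := IdxLe.iInf fun a : Fin j => (hd.top_smul (g a.succ)).idx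
  rw [prod_const, card_univ, Fintype.card_fin] at h1
  refine idx_le h1 fun σ hσ => ?_
  rw [Subgroup.mem_iInf] at hσ ⊢
  exact fun a => Fin.cases (h σ hσ) hσ a

theorem tup_solv (x : X) {n d : ℕ} (hn : ∀ ν ∈ derivedSeries 𝒢 n, ν • x = x)
    (hd : Orb (⊤ : Subgroup 𝒢) x d) : ∃ j ≤ 3, Tup 𝒢 x (j + 1) (d ^ j) := by
  induction n with
  | zero =>
    exact ⟨0, by omega, tup_of_dep hd (fun _ => 1) (fun a b _ => Subsingleton.elim (α := Fin 1) a b)
      fun σ _ => by simpa using hn σ trivial⟩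
  | succ n ih =>
    by_cases h0 : ∀ ν ∈ derivedSeries 𝒢 n, ν • x = x
    · exact ih h0
    push Not at h0
    obtain ⟨a, ha, hax⟩ := h0
    have hN := derivedSeries_normal 𝒢 n
    have hc : ∀ a ∈ derivedSeries 𝒢 n, ∀ b ∈ derivedSeries 𝒢 n, a • b • x = b • a • x :=
      fun a ha b hb => by
        have := hn _ (Subgroup.commutator_mem_commutator (inv_mem ha) (inv_mem hb))
        rw [commutatorElement_def, inv_inv, inv_inv, mul_smul, mul_smul, mul_smul, inv_smul_eq_iff,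
          inv_smul_eq_iff] at this
        exact this
    have hcj : ∀ σ : 𝒢, σ • x = x → ∀ a : 𝒢, (σ * a * σ⁻¹) • x = σ • a • x := fun σ hσ a => by
      rw [mul_smul, mul_smul, inv_smul_eq_iff.2 hσ.symm]
    have hfix : ∀ σ : 𝒢, ∀ b ∈ derivedSeries 𝒢 n, σ • x = x → σ • a • x = a • x →
        σ • b • x = b • x → σ • (a * b) • x = (a * b) • x := fun σ b hb h1 h2 h3 => by
      calc σ • (a * b) • x = (σ * a * σ⁻¹) • σ • b • x := by simp [mul_smul]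
        _ = b • (σ * a * σ⁻¹) • x := by rw [h3, hc _ (hN.conj_mem a ha σ) _ hb]
        _ = (a * b) • x := by rw [hcj σ h1, h2, mul_smul, hc _ ha _ hb]
    by_cases h2 : a • a • x = x
    · by_cases h3 : ∃ b ∈ derivedSeries 𝒢 n, b • x ≠ x ∧ b • x ≠ a • x
      · obtain ⟨b, hb, hb1, hb2⟩ := h3
        have e1 : a • b • x ≠ x := fun h => hb2 (by
          rw [← smul_left_cancel_iff a, h, h2])
        have e3 : a • b • x ≠ b • x := fun h => hax (by
          rw [hc _ ha _ hb] at h; simpa using h)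
        refine ⟨3, le_rfl, tup_of_dep hd ![a * b, 1, a, b] ?_ fun σ h => ?_⟩
        · refine List.nodup_ofFn.1 ?_
          simp [List.ofFn_succ, mul_smul, e1, e3, hb1, hb1.symm, hb2.symm, hax.symm]
        · exact hfix σ b hb (by simpa using h 0) (h 1) (h 2)
      · push Not at h3
        refine ⟨1, by omega, tup_of_dep hd ![a, 1] ?_ fun σ h => ?_⟩
        · refine List.nodup_ofFn.1 ?_
          simp [List.ofFn_succ, hax]
        · have h4 : σ • x = x := by simpa using h 0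
          have h5 := h3 _ (hN.conj_mem a ha σ)
          rw [hcj σ h4] at h5
          exact h5 fun h6 => hax (by rw [← smul_left_cancel_iff σ, h6, h4])
    · refine ⟨2, by omega, tup_of_dep hd ![a * a, 1, a] ?_ fun σ h => ?_⟩
      · refine List.nodup_ofFn.1 ?_
        simp [List.ofFn_succ, mul_smul, h2, hax, hax.symm]
      · exact hfix σ a ha (by simpa using h 0) (h 1) (h 1)

theorem tup_poly (x : X) {d D : ℕ} (m : ℕ) (hd : Orb (⊤ : Subgroup 𝒢) x d) (N : Subgroup 𝒢)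
    (hN : ∀ g : 𝒢, N ≤ stabilizer 𝒢 (g • x)) (hD : IdxLe ⊤ N D) :
    Tup 𝒢 x 1 m ∨ Tup 𝒢 x (m + 1) D := by
  classical
  obtain ⟨R, -, hR⟩ := hd
  by_cases h : #{y ∈ R | ∃ g : 𝒢, g • x = y} ≤ m
  · refine Or.inl ⟨fun _ => 1, Function.injective_of_subsingleton _, ?_⟩
    rw [iInf_const]
    exact Orb.idx ⟨_, h, fun σ _ => mem_filter.2 ⟨by rw [one_smul]; exact hR σ trivial,
      σ, by rw [one_smul]⟩⟩
  · obtain ⟨f, hf⟩ := Function.Embedding.exists_of_card_le_finset (α := Fin (m + 1))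
      (s := {y ∈ R | ∃ g : 𝒢, g • x = y}) (by rw [Fintype.card_fin]; omega)
    choose g hg using fun a => (mem_filter.1 (hf ⟨a, rfl⟩)).2
    refine Or.inr ⟨g, ?_, idx_le hD (le_iInf fun a => hN _)⟩
    rw [funext hg]
    exact f.injective

end Pool.Agent.Lib.MP_162bbe_gt
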