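import Pool.Agent.Lib.MP_162bbe_gt.DvDiv

set_option autoImplicit false

namespace Pool.Agent.Results.MP_162bbe_gt.TitsAlgebra

open Module Pool.Agent.Lib.MP_162bbe_gt

/-- Uniform discreteness, with growth in the degree of the field, for arithmetic subgroups with a
representation over a division algebra whose dimension does not divide twice the number of
eigenvalues of some modulus above one. -/
theorem result {G : Type*} [Group G] [TopologicalSpace G] (M r N : ℕ) (hN : 0 < N)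
    (π : Fin r → G →* Matrix (Fin M) (Fin M) ℂ) (hπ : ∀ i, Continuous (π i)) :
    ∃ (c : ℝ) (U : ℝ → Set G), 0 < c ∧
      (∀ t, U t = {g | ∀ i, ∀ z ∈ spectrum ℂ (π i g), ‖z‖ < Real.exp (c * t)}) ∧
      (∀ t, 0 < t → U t ∈ nhds (1 : G)) ∧
      ∀ (Γ : Subgroup G) (k : Type) [Field k] [NumberField k]
        (D : Type) [DivisionRing D] [Algebra k D]
        (V : Type) [AddCommGroup V] [Module D V] [Module k V] [IsScalarTower k D V]
        [FiniteDimensional k V] (S : Fin r → k →+* ℂ),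
        (∀ γ ∈ Γ, (∀ i, IsNilpotent (π i γ - 1)) → IsOfFinOrder γ) →
        (∀ γ ∈ Γ, ∃ δ : V →ₗ[D] V,
          (∀ n : ℕ, IsIntegral ℤ ((δ.restrictScalars k).charpoly.coeff n)) ∧
          (∀ i, (π i (γ ^ N)).charpoly = (δ.restrictScalars k).charpoly.map (S i)) ∧
          ∀ σ : k →+* ℂ, σ ∉ Set.range S →
            ∀ z ∈ ((δ.restrictScalars k).charpoly.map σ).roots, ‖z‖ = 1) →
        (∀ γ ∈ Γ, (∃ i, ∃ z ∈ (π i γ).charpoly.roots, 1 < ‖z‖) → ∃ i, ∃ ρ : ℝ, 1 < ρ ∧
          ¬ finrank k D ∣ 2 * ((π i γ).charpoly.roots.filter fun z => ‖z‖ = ρ).card) →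
        ∀ t : ℝ, 0 < t → t ^ 3 ≤ finrank ℚ k →
        ∀ g : G, ∀ γ ∈ Γ, g * γ * g⁻¹ ∈ U t → IsOfFinOrder γ := by
  obtain ⟨c, hc, h⟩ := dd_main M r
  have hN' : (0 : ℝ) < N := by exact_mod_cast hN
  refine ⟨c / N, _, by positivity, fun _ => rfl, fun t ht => ?_, ?_⟩
  · have h1 : 1 < Real.exp (c / N * t) := Real.one_lt_exp_iff.2 (by positivity)
    simpa only [Matrix.mem_spectrum_iff_isRoot_charpoly, Polynomial.IsRoot] using spec_nhds π hπ h1
  intro Γ k _ _ D _ _ V _ _ _ _ _ S huni hδ hcnt t ht htd g γ hγ hU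
  obtain ⟨δ, hint, hchar, hcirc⟩ := hδ γ hγ
  have key : ∀ i, ∃ n, 0 < n ∧ IsNilpotent (π i (γ ^ N) ^ n - 1) := by
    intro i
    refine exists_pow_nilpotent _ fun z hz => h k D V S δ _ t rfl ?_ hint hcirc (fun j w hw => ?_)
      (by simpa only [← hchar] using hcnt _ (pow_mem hγ N)) ht.le htd i z ?_
    · rw [← Polynomial.natDegree_map (S i), ← hchar i, Matrix.charpoly_natDegree_eq_dim,
        Fintype.card_fin]
    · rw [← hchar j, Polynomial.mem_roots (Matrix.charpoly_monic _).ne_zero] at hw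
      refine ⟨eig_ne_zero (π j) hw, ?_⟩
      rw [← Matrix.mem_spectrum_iff_isRoot_charpoly, map_pow, spectrum.map_pow_of_pos _ hN] at hw
      obtain ⟨u, hu, rfl⟩ := hw
      have h1 : (π j (g * γ * g⁻¹)).charpoly = (π j γ).charpoly := by
        rw [map_mul, Matrix.charpoly_mul_comm, ← map_mul, inv_mul_cancel_left]
      have h2 := hU j u (by
        rwa [Matrix.mem_spectrum_iff_isRoot_charpoly, h1, ← Matrix.mem_spectrum_iff_isRoot_charpoly])
      rw [norm_pow]
      refine (pow_le_pow_left₀ (norm_nonneg _) h2.le N).trans (le_of_eq ?_)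
      rw [← Real.exp_nat_mul]
      congr 1
      field_simp
    · rwa [← hchar i, Polynomial.mem_roots (Matrix.charpoly_monic _).ne_zero]
  choose n hn hnil using key
  have hpos : 0 < ∏ i, n i := Finset.prod_pos fun i _ => hn i
  refine (huni _ (pow_mem hγ (N * ∏ i, n i)) fun i => ?_).of_pow (Nat.mul_pos hN hpos).ne'
  obtain ⟨m, hm⟩ := Finset.dvd_prod_of_mem n (Finset.mem_univ i)
  rw [hm, pow_mul, map_pow, pow_mul, ← geom_sum_mul]
  refine Commute.isNilpotent_mul_left ?_ (hnil i)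
  exact Commute.sum_left _ _ _ fun j _ =>
    ((Commute.refl _).sub_right (Commute.one_right _)).pow_left j

end Pool.Agent.Results.MP_162bbe_gt.TitsAlgebra
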