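import Pool.Agent.Lib.MP_162bbe_gt.Poly

set_option autoImplicit false

/-! Torus scalings and Galois twists of plane curves. -/

namespace Pool.Agent.Lib.MP_162bbe_gt

open MvPolynomial Finset

variable {F : Type*} [Field F]

/-- the substitution `X i ↦ ζ i * X i` -/
noncomputable def sc (ζ : Fin 2 → F) : MvPolynomial (Fin 2) F →ₐ[F] MvPolynomial (Fin 2) F :=
  aeval fun i => C (ζ i) * X i

/-- conjugation of coefficients -/
noncomputable def cj (σ : F ≃+* F) : MvPolynomial (Fin 2) F →+* MvPolynomial (Fin 2) F :=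
  map (σ : F →+* F)

lemma sc_X (ζ : Fin 2 → F) (i : Fin 2) : sc ζ (X i) = C (ζ i) * X i := by simp [sc]

lemma sc_C (ζ : Fin 2 → F) (c : F) : sc ζ (C c) = C c := by simp [sc]

lemma sc_monomial (ζ : Fin 2 → F) (e : Fin 2 →₀ ℕ) (c : F) :
    sc ζ (monomial e c) = monomial e (c * (ζ 0 ^ e 0 * ζ 1 ^ e 1)) := by
  rw [sc, aeval_monomial, monomial_eq, Finsupp.prod_fintype _ _ (by simp),
    Finsupp.prod_fintype _ _ (by simp), Fin.prod_univ_two, Fin.prod_univ_two]
  simp only [algebraMap_eq, map_mul, map_pow, mul_pow]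
  ring

lemma coeff_sc (ζ : Fin 2 → F) (P : MvPolynomial (Fin 2) F) (e : Fin 2 →₀ ℕ) :
    coeff e (sc ζ P) = coeff e P * (ζ 0 ^ e 0 * ζ 1 ^ e 1) := by
  classical
  induction P using MvPolynomial.induction_on' with
  | monomial u a =>
    rw [sc_monomial, coeff_monomial, coeff_monomial]
    split_ifs with h
    · rw [h]
    · simp
  | add p q hp hq => rw [map_add, coeff_add, coeff_add, hp, hq, add_mul]

lemma sc_sc (ζ η : Fin 2 → F) (P : MvPolynomial (Fin 2) F) : sc ζ (sc η P) = sc (ζ * η) P := by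
  ext e
  simp only [coeff_sc, Pi.mul_apply, mul_pow]
  ring

lemma sc_one (P : MvPolynomial (Fin 2) F) : sc 1 P = P := by
  ext e
  simp [coeff_sc]

lemma support_sc {ζ : Fin 2 → F} (h : ∀ i, ζ i ≠ 0) (P : MvPolynomial (Fin 2) F) :
    (sc ζ P).support = P.support := by
  ext e
  simp [coeff_sc, h]

lemma totalDegree_sc {ζ : Fin 2 → F} (h : ∀ i, ζ i ≠ 0) (P : MvPolynomial (Fin 2) F) :
    (sc ζ P).totalDegree = P.totalDegree := by
  rw [totalDegree, totalDegree, support_sc h]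

lemma irreducible_sc {ζ : Fin 2 → F} (h : ∀ i, ζ i ≠ 0) {w : MvPolynomial (Fin 2) F}
    (hw : Irreducible w) : Irreducible (sc ζ w) := by
  have h1 : ζ * ζ⁻¹ = 1 := funext fun i => mul_inv_cancel₀ (h i)
  have h2 : ζ⁻¹ * ζ = 1 := funext fun i => inv_mul_cancel₀ (h i)
  let E : MvPolynomial (Fin 2) F ≃ₐ[F] MvPolynomial (Fin 2) F :=
    AlgEquiv.ofAlgHom (sc ζ) (sc ζ⁻¹) (AlgHom.ext fun P => by
      rw [AlgHom.comp_apply, sc_sc, h1, sc_one, AlgHom.id_apply])
      (AlgHom.ext fun P => by rw [AlgHom.comp_apply, sc_sc, h2, sc_one, AlgHom.id_apply])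
  exact (MulEquiv.irreducible_iff E).2 hw

lemma coeff_cj (σ : F ≃+* F) (P : MvPolynomial (Fin 2) F) (e : Fin 2 →₀ ℕ) :
    coeff e (cj σ P) = σ (coeff e P) := by
  simp [cj, coeff_map]

lemma cj_cj (σ τ : F ≃+* F) (P : MvPolynomial (Fin 2) F) : cj σ (cj τ P) = cj (σ * τ) P := by
  ext e
  simp only [coeff_cj]
  rfl

lemma cj_one (P : MvPolynomial (Fin 2) F) : cj 1 P = P := by
  ext e
  simp only [coeff_cj]
  rfl

lemma support_cj (σ : F ≃+* F) (P : MvPolynomial (Fin 2) F) : (cj σ P).support = P.support := by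
  ext e
  simp [coeff_cj]

lemma totalDegree_cj (σ : F ≃+* F) (P : MvPolynomial (Fin 2) F) :
    (cj σ P).totalDegree = P.totalDegree := by
  rw [totalDegree, totalDegree, support_cj]

lemma irreducible_cj (σ : F ≃+* F) {w : MvPolynomial (Fin 2) F} (hw : Irreducible w) :
    Irreducible (cj σ w) :=
  (MulEquiv.irreducible_iff (mapEquiv (Fin 2) σ)).2 hw

lemma cj_sc (σ : F ≃+* F) (ζ : Fin 2 → F) (P : MvPolynomial (Fin 2) F) :
    cj σ (sc ζ P) = sc (fun i => σ (ζ i)) (cj σ P) := by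
  ext e
  simp [coeff_cj, coeff_sc]

lemma eval_cj (σ : F ≃+* F) (z : Fin 2 → F) (P : MvPolynomial (Fin 2) F) :
    eval (fun i => σ (z i)) (cj σ P) = σ (eval z P) := by
  induction P using MvPolynomial.induction_on with
  | C a => simp [cj]
  | add p q hp hq => simp only [map_add, hp, hq]
  | mul_X p i hp =>
    rw [map_mul, map_mul, map_mul, map_mul, hp]
    simp [cj]

lemma sc_expand {q : ℕ} {ζ : Fin 2 → F} (h : ∀ i, ζ i ^ q = 1) (G : MvPolynomial (Fin 2) F) :
    sc ζ (expand q G) = expand q G := by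
  induction G using MvPolynomial.induction_on with
  | C a => rw [expand_C, sc_C]
  | add p q hp hq => simp only [map_add, hp, hq]
  | mul_X p i hp =>
    rw [map_mul, map_mul, hp, expand_X, map_pow, sc_X, mul_pow, ← C_pow, h, C_1, one_mul]

lemma cj_expand (σ : F ≃+* F) (q : ℕ) (G : MvPolynomial (Fin 2) F) :
    cj σ (expand q G) = expand q (cj σ G) := map_expand _ _ _

lemma eq_of_dvd_cj {w : MvPolynomial (Fin 2) F} (hw : Irreducible w) {e : Fin 2 →₀ ℕ}
    (he : coeff e w = 1) {σ τ : F ≃+* F} (h : cj σ w ∣ cj τ w) : cj σ w = cj τ w := by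
  obtain ⟨c, -, hc⟩ := exists_C_of_dvd (irreducible_cj σ hw) (irreducible_cj τ hw) h
  have := congrArg (coeff e) hc
  rw [coeff_C_mul, coeff_cj, coeff_cj, he, map_one, map_one, mul_one] at this
  rw [hc, ← this, C_1, one_mul]

/-- the conjugates of a normalised irreducible factor of an invariant polynomial -/
lemma exists_conj {w G : MvPolynomial (Fin 2) F} (hw : Irreducible w) {e : Fin 2 →₀ ℕ}
    (he : coeff e w = 1) (hG : G ≠ 0) (hinv : ∀ σ, cj σ G = G) (hd : w ∣ G) :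
    ∃ I : Finset (MvPolynomial (Fin 2) F), (∀ v, v ∈ I ↔ ∃ σ, cj σ w = v) ∧
      I.card * w.totalDegree ≤ G.totalDegree := by
  have key : ∀ I : Finset (MvPolynomial (Fin 2) F), (∀ v ∈ I, ∃ σ, cj σ w = v) →
      I.card * w.totalDegree ≤ G.totalDegree := by
    intro I hI
    have := sum_deg_le I id (fun v hv => by
        obtain ⟨σ, rfl⟩ := hI v hv; exact irreducible_cj σ hw)
      (fun v hv v' hv' h => by
        obtain ⟨σ, rfl⟩ := hI v hv
        obtain ⟨τ, rfl⟩ := hI v' hv'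
        exact eq_of_dvd_cj hw he h) hG
      (fun v hv => by
        obtain ⟨σ, rfl⟩ := hI v hv
        rw [← hinv σ]; exact map_dvd _ hd)
    rw [sum_congr rfl (g := fun _ => w.totalDegree) (fun v hv => by
        obtain ⟨σ, rfl⟩ := hI v hv; exact totalDegree_cj σ w), sum_const, smul_eq_mul] at this
    exact this
  have hfin : (Set.range fun σ => cj σ w).Finite := by
    by_contra hinf
    obtain ⟨I, hI, hc⟩ := Set.Infinite.exists_subset_card_eq hinf (G.totalDegree + 1)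
    have h1 := key I fun v hv => hI hv
    have h2 := deg_pos_of_irred hw
    rw [hc] at h1
    nlinarith
  exact ⟨hfin.toFinset, fun v => by simp, key _ fun v hv => by simpa using hv⟩

lemma zpow_det {a b : F} (ha : a ≠ 0) (hb : b ≠ 0) {c d c' d' : ℤ} (h : a ^ c * b ^ d = 1)
    (h' : a ^ c' * b ^ d' = 1) : a ^ (c * d' - d * c') = 1 ∧ b ^ (c * d' - d * c') = 1 := by
  constructor
  · have : a ^ (c * d' - d * c') = (a ^ c * b ^ d) ^ d' / (a ^ c' * b ^ d') ^ d := by
      rw [mul_zpow, mul_zpow, ← zpow_mul, ← zpow_mul, ← zpow_mul, ← zpow_mul, mul_comm d' d,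
        mul_div_mul_right _ _ (zpow_ne_zero _ hb), zpow_sub₀ ha, mul_comm d c']
    rw [this, h, h']; simp
  · have : b ^ (c * d' - d * c') = (a ^ c' * b ^ d') ^ c / (a ^ c * b ^ d) ^ c' := by
      rw [mul_zpow, mul_zpow, ← zpow_mul, ← zpow_mul, ← zpow_mul, ← zpow_mul, mul_comm c' c,
        mul_div_mul_left _ _ (zpow_ne_zero _ ha), zpow_sub₀ hb, mul_comm d' c]
    rw [this, h, h']; simp

/-- scalings that move a curve with non-collinear support to a fixed curve -/
lemma card_fibre_le {w v : MvPolynomial (Fin 2) F} (hw : Irreducible w) (hv : Irreducible v)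
    {e₀ e₁ e₂ : Fin 2 →₀ ℕ} (h₀ : e₀ ∈ w.support) (h₁ : e₁ ∈ w.support) (h₂ : e₂ ∈ w.support)
    {Δ : ℤ} (hΔ : Δ = ((e₁ 0 : ℤ) - e₀ 0) * ((e₂ 1 : ℤ) - e₀ 1) -
      ((e₁ 1 : ℤ) - e₀ 1) * ((e₂ 0 : ℤ) - e₀ 0)) (hΔ0 : Δ ≠ 0)
    (Z : Finset (Fin 2 → F)) (hZ : ∀ ζ ∈ Z, (∀ i, ζ i ≠ 0) ∧ sc ζ w ∣ v) :
    Z.card ≤ Δ.natAbs ^ 2 := by
  classical
  rcases Z.eq_empty_or_nonempty with rfl | ⟨η, hη⟩
  · simp
  have hpos : 0 < Δ.natAbs := Int.natAbs_pos.2 hΔ0
  have hc : (Fintype.piFinset fun _ : Fin 2 => Polynomial.nthRootsFinset Δ.natAbs (1 : F)).card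
      ≤ Δ.natAbs ^ 2 := by
    rw [Fintype.card_piFinset, prod_const, card_univ, Fintype.card_fin]
    exact Nat.pow_le_pow_left ((Multiset.toFinset_card_le _).trans
      (Polynomial.card_nthRoots _ _)) _
  refine le_trans (card_le_card_of_injOn (fun ζ i => ζ i / η i) ?_ ?_) hc
  · intro ζ hζ
    obtain ⟨hζ0, hζd⟩ := hZ ζ hζ
    obtain ⟨hη0, hηd⟩ := hZ η hη
    obtain ⟨c, hc0, hc⟩ := exists_C_of_dvd (irreducible_sc hζ0 hw) hv hζd
    obtain ⟨c', hc0', hc'⟩ := exists_C_of_dvd (irreducible_sc hη0 hw) hv hηd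
    have key : ∀ e ∈ w.support, (ζ 0 / η 0) ^ e 0 * (ζ 1 / η 1) ^ e 1 = c' / c := by
      intro e he
      have := congrArg (coeff e) (hc.symm.trans hc')
      rw [coeff_C_mul, coeff_C_mul, coeff_sc, coeff_sc] at this
      have hw0 := mem_support_iff.1 he
      have := hη0 0
      have := hη0 1
      rw [div_pow, div_pow]
      field_simp
      apply mul_left_cancel₀ hw0
      linear_combination ‹_ = _›
    have ha : ζ 0 / η 0 ≠ 0 := div_ne_zero (hζ0 0) (hη0 0)
    have hb : ζ 1 / η 1 ≠ 0 := div_ne_zero (hζ0 1) (hη0 1)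
    have key2 : ∀ e ∈ w.support, (ζ 0 / η 0) ^ ((e 0 : ℤ) - e₀ 0) *
        (ζ 1 / η 1) ^ ((e 1 : ℤ) - e₀ 1) = 1 := by
      intro e he
      rw [zpow_sub₀ ha, zpow_sub₀ hb, div_mul_div_comm]
      simp only [zpow_natCast]
      rw [key e he, key e₀ h₀, div_self (div_ne_zero hc0' hc0)]
    obtain ⟨k1, k2⟩ := zpow_det ha hb (key2 e₁ h₁) (key2 e₂ h₂)
    rw [← hΔ] at k1 k2
    simp only [mem_coe, Fintype.mem_piFinset, Polynomial.mem_nthRootsFinset hpos]
    have hh : ∀ x : F, x ^ Δ = 1 → x ^ Δ.natAbs = 1 := fun x hx => by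
      rcases Int.natAbs_eq Δ with h | h
      · rw [h, zpow_natCast] at hx; exact hx
      · rw [h, zpow_neg, zpow_natCast, inv_eq_one] at hx; exact hx
    intro i
    fin_cases i
    · exact hh _ k1
    · exact hh _ k2
  · intro ζ _ ζ' _ h
    funext i
    have := congrFun h i
    exact (div_left_inj' ((hZ η hη).1 i)).1 this

/-- every set of bad primes yields many scalings onto conjugates -/
lemma exists_many {w : MvPolynomial (Fin 2) F} (B : Finset ℕ) (hB : ∀ q ∈ B, q.Prime)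
    (hbad : ∀ q ∈ B, ∃ ζ : Fin 2 → F, ζ ≠ 1 ∧ (∀ i, ζ i ^ q = 1) ∧ ∃ σ, sc ζ w ∣ cj σ w) :
    ∃ Z : Finset (Fin 2 → F), Z.card = 2 ^ B.card ∧
      ∀ ζ ∈ Z, (∀ i, ζ i ^ (∏ q ∈ B, q) = 1) ∧ ∃ σ, sc ζ w ∣ cj σ w := by
  classical
  induction B using Finset.induction_on with
  | empty => exact ⟨{1}, by simp, fun ζ hζ => by
      rw [mem_singleton.1 hζ]
      exact ⟨by simp, 1, by rw [sc_one, cj_one]⟩⟩
  | insert q B hq ih =>
    obtain ⟨Z, hZc, hZ⟩ := ih (fun p hp => hB p (mem_insert_of_mem hp))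
      (fun p hp => hbad p (mem_insert_of_mem hp))
    obtain ⟨η, hη1, hηq, σ, hσ⟩ := hbad q (mem_insert_self _ _)
    have hqp := hB q (mem_insert_self _ _)
    have hη0 : ∀ i, η i ≠ 0 := fun i h => by
      have := hηq i
      rw [h, zero_pow hqp.ne_zero] at this
      exact zero_ne_one this
    have hcop : Nat.Coprime q (∏ p ∈ B, p) :=
      Nat.Coprime.prod_right fun p hp => (Nat.coprime_primes hqp
        (hB p (mem_insert_of_mem hp))).2 fun h => hq (h ▸ hp)
    let f : (Fin 2 → F) → (Fin 2 → F) := fun ζ => (fun i => σ (ζ i)) * η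
    have hf : Function.Injective f := fun ζ ζ' h => funext fun i =>
      σ.injective (mul_right_cancel₀ (hη0 i) (congrFun h i))
    refine ⟨Z ∪ Z.image f, ?_, ?_⟩
    · rw [card_union_of_disjoint, card_image_of_injective _ hf, hZc, card_insert_of_notMem hq]
      · ring
      · rw [disjoint_left]
        intro ζ hζ hζ'
        obtain ⟨ξ, hξ, rfl⟩ := mem_image.1 hζ'
        apply hη1
        funext i
        have h1 := (hZ _ hζ).1 i
        simp only [f, Pi.mul_apply] at h1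
        rw [mul_pow, ← map_pow, (hZ _ hξ).1 i, map_one, one_mul] at h1
        have := pow_gcd_eq_one.2 ⟨hηq i, h1⟩
        rwa [hcop, pow_one] at this
    · intro ζ hζ
      rw [prod_insert hq]
      rcases mem_union.1 hζ with h | h
      · exact ⟨fun i => by rw [mul_comm, pow_mul, (hZ _ h).1 i, one_pow], (hZ _ h).2⟩
      · obtain ⟨ξ, hξ, rfl⟩ := mem_image.1 h
        obtain ⟨h1, τ, hτ⟩ := hZ _ hξ
        refine ⟨fun i => ?_, σ * τ, ?_⟩
        · simp only [f, Pi.mul_apply]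
          rw [mul_pow, pow_mul (η i), hηq, one_pow, mul_one, ← map_pow, mul_comm q, pow_mul, h1,
            one_pow, map_one]
        · simp only [f]
          rw [← sc_sc, ← cj_cj]
          refine (map_dvd (sc _) hσ).trans ?_
          rw [← cj_sc]
          exact map_dvd _ hτ

end Pool.Agent.Lib.MP_162bbe_gt
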